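import Pool.Agent.F3.TY.Stm

/-!
# Project F3, block TY, row 22/23: completing a partial typing, requested edges
-/

set_option autoImplicit false

namespace F3

open Finset NW F1

/-- three disjoint subsets of given sizes -/
private theorem assign_three {α : Type} [DecidableEq α] (C : Finset α) (k : Fin 3 → ℕ)
    (h : ∑ t, k t ≤ C.card) : ∃ D : Fin 3 → Finset α, (∀ t, D t ⊆ C) ∧
      (∀ s t, s ≠ t → Disjoint (D s) (D t)) ∧ ∀ t, (D t).card = k t := by
  rw [Fin.sum_univ_three] at h
  obtain ⟨D0, h0, c0⟩ := exists_subset_card_eq (s := C) (n := k 0) (by omega)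
  have e1 : (C \ D0).card = C.card - k 0 := by rw [card_sdiff_of_subset h0, c0]
  obtain ⟨D1, h1, c1⟩ := exists_subset_card_eq (s := C \ D0) (n := k 1) (by omega)
  have e2 : ((C \ D0) \ D1).card = C.card - k 0 - k 1 := by
    rw [card_sdiff_of_subset h1, c1, e1]
  obtain ⟨D2, h2, c2⟩ := exists_subset_card_eq (s := (C \ D0) \ D1) (n := k 2) (by omega)
  have d01 : Disjoint D0 D1 := by
    rw [disjoint_left]
    intro x hx hx'
    exact (mem_sdiff.1 (h1 hx')).2 hx
  have d02 : Disjoint D0 D2 := by
    rw [disjoint_left]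
    intro x hx hx'
    exact (mem_sdiff.1 (mem_sdiff.1 (h2 hx')).1).2 hx
  have d12 : Disjoint D1 D2 := by
    rw [disjoint_left]
    intro x hx hx'
    exact (mem_sdiff.1 (h2 hx')).2 hx
  refine ⟨![D0, D1, D2], ?_, ?_, ?_⟩
  · intro t
    fin_cases t
    · exact h0
    · exact h1.trans sdiff_subset
    · exact (h2.trans sdiff_subset).trans sdiff_subset
  · intro s t hst
    fin_cases s <;> fin_cases t
    · exact absurd rfl hst
    · exact d01
    · exact d02
    · exact d01.symm
    · exact absurd rfl hst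
    · exact d12
    · exact d02.symm
    · exact d12.symm
    · exact absurd rfl hst
  · intro t
    fin_cases t
    · exact c0
    · exact c1
    · exact c2

theorem assign : AssignSt := by
  intro α _ F G f hG hdis hle hsum
  have hGc : (G 0 ∪ G 1 ∪ G 2).card = (G 0).card + (G 1).card + (G 2).card := by
    rw [card_union_of_disjoint, card_union_of_disjoint (hdis 0 1 (by decide))]
    rw [disjoint_union_left]
    exact ⟨hdis 0 2 (by decide), hdis 1 2 (by decide)⟩
  have hGF : G 0 ∪ G 1 ∪ G 2 ⊆ F := union_subset (union_subset (hG 0) (hG 1)) (hG 2)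
  set U := F \ (G 0 ∪ G 1 ∪ G 2) with hU
  have hUc : U.card = F.card - ((G 0).card + (G 1).card + (G 2).card) := by
    rw [hU, card_sdiff_of_subset hGF, hGc]
  have hGle := card_le_card hGF
  rw [hGc] at hGle
  rw [Fin.sum_univ_three] at hsum
  have l0 := hle 0
  have l1 := hle 1
  have l2 := hle 2
  obtain ⟨D, hDU, hDd, hDc⟩ := assign_three U (fun t => f t - (G t).card) (by
    rw [Fin.sum_univ_three]
    omega)
  have hDG : ∀ s t, Disjoint (D s) (G t) := by
    intro s t
    rw [disjoint_left]
    intro x hx hx'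
    have h1 := (mem_sdiff.1 (hDU s hx)).2
    apply h1
    fin_cases t
    · exact mem_union_left _ (mem_union_left _ hx')
    · exact mem_union_left _ (mem_union_right _ hx')
    · exact mem_union_right _ hx'
  set P : Fin 3 → Finset α := fun t => G t ∪ D t with hP
  have hPc : ∀ t, (P t).card = f t := by
    intro t
    rw [hP]
    beta_reduce
    rw [card_union_of_disjoint (hDG t t).symm, hDc t]
    have := hle t
    beta_reduce
    omega
  have hPd : ∀ s t, s ≠ t → Disjoint (P s) (P t) := by
    intro s t hst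
    rw [hP]
    beta_reduce
    rw [disjoint_union_left, disjoint_union_right, disjoint_union_right]
    exact ⟨⟨hdis s t hst, (hDG t s).symm⟩, hDG s t, hDd s t hst⟩
  have hPF : ∀ t, P t ⊆ F := fun t => union_subset (hG t) ((hDU t).trans sdiff_subset)
  have hcov : P 0 ∪ P 1 ∪ P 2 = F := by
    apply eq_of_subset_of_card_le (union_subset (union_subset (hPF 0) (hPF 1)) (hPF 2))
    rw [card_union_of_disjoint, card_union_of_disjoint (hPd 0 1 (by decide)), hPc, hPc, hPc]
    · omega
    · rw [disjoint_union_left]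
      exact ⟨hPd 0 2 (by decide), hPd 1 2 (by decide)⟩
  set ty : α → Fin 3 := fun e => if e ∈ P 0 then 0 else if e ∈ P 1 then 1 else 2 with hty
  have hP2 : ∀ t, ∀ e ∈ P t, ty e = t := by
    intro t e he
    rw [hty]
    beta_reduce
    fin_cases t
    · exact if_pos he
    · have h0 : e ∉ P 0 := fun h => disjoint_left.1 (hPd 0 1 (by decide)) h he
      rw [if_neg h0]
      exact if_pos he
    · have h0 : e ∉ P 0 := fun h => disjoint_left.1 (hPd 0 2 (by decide)) h he
      have h1 : e ∉ P 1 := fun h => disjoint_left.1 (hPd 1 2 (by decide)) h he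
      rw [if_neg h0, if_neg h1]
      rfl
  refine ⟨ty, fun t e he => hP2 t e (mem_union_left _ he), ?_⟩
  intro t
  rw [← hPc t]
  congr 1
  ext e
  rw [mem_filter]
  constructor
  · rintro ⟨heF, het⟩
    rw [← hcov, mem_union, mem_union] at heF
    rcases heF with (he | he) | he
    · rw [← het, hP2 0 e he]
      exact he
    · rw [← het, hP2 1 e he]
      exact he
    · rw [← het, hP2 2 e he]
      exact he
  · intro he
    exact ⟨hPF t he, hP2 t e he⟩

theorem request : RequestSt := by
  intro V _ _ At C k hdis hle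
  have hex : ∀ v : V, ∃ D : Fin 3 → Finset V, v ∈ At → (∀ t, D t ⊆ C v) ∧
      (∀ s t, s ≠ t → Disjoint (D s) (D t)) ∧ ∀ t, (D t).card = k t v := by
    intro v
    by_cases hv : v ∈ At
    · obtain ⟨D, h1, h2, h3⟩ := assign_three (C v) (fun t => k t v) (hle v hv)
      exact ⟨D, fun _ => ⟨h1, h2, h3⟩⟩
    · exact ⟨fun _ => ∅, fun h => absurd h hv⟩
  choose D hD using hex
  have hnot : ∀ v ∈ At, ∀ t, ∀ w ∈ D v t, w ∉ At := by
    intro v hv t w hw hwA
    exact disjoint_left.1 (hdis v hv) ((hD v hv).1 t hw) hwA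
  have hinj : ∀ v ∈ At, ∀ v' ∈ At, ∀ w w' : V, w ∉ At → w' ∉ At → s(v, w) = s(v', w') →
      v = v' ∧ w = w' := by
    intro v hv v' hv' w w' hw hw' h
    rcases Sym2.eq_iff.1 h with h | h
    · exact h
    · exact absurd (h.1 ▸ hv) hw'
  refine ⟨fun t => At.biUnion (fun v => (D v t).image (fun w => s(v, w))), ?_, ?_, ?_, ?_⟩
  · intro s t hst
    rw [disjoint_left]
    intro e he he'
    rw [mem_biUnion] at he he'
    obtain ⟨v, hv, he⟩ := he
    obtain ⟨v', hv', he'⟩ := he'
    rw [mem_image] at he he'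
    obtain ⟨w, hw, rfl⟩ := he
    obtain ⟨w', hw', he'⟩ := he'
    obtain ⟨rfl, rfl⟩ := hinj v' hv' v hv w' w (hnot v' hv' t w' hw') (hnot v hv s w hw) he'
    exact disjoint_left.1 ((hD v' hv).2.1 s t hst) hw hw'
  · intro t e he
    rw [mem_biUnion] at he
    obtain ⟨v, hv, he⟩ := he
    rw [mem_image] at he
    obtain ⟨w, hw, rfl⟩ := he
    exact ⟨v, hv, w, (hD v hv).1 t hw, rfl⟩
  · intro t
    rw [card_biUnion]
    · refine sum_congr rfl fun v hv => ?_
      rw [card_image_of_injOn, (hD v hv).2.2 t]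
      intro w hw w' hw' h
      exact (hinj v hv v hv w w' (hnot v hv t w (mem_coe.1 hw)) (hnot v hv t w' (mem_coe.1 hw'))
        h).2
    · intro v hv v' hv' hne
      change Disjoint _ _
      rw [disjoint_left]
      intro e he he'
      rw [mem_image] at he he'
      obtain ⟨w, hw, rfl⟩ := he
      obtain ⟨w', hw', he'⟩ := he'
      exact hne (hinj v hv v' hv' w w' (hnot v hv t w hw) (hnot v' hv' t w' hw') he'.symm).1
  · intro t v hv
    rw [← (hD v hv).2.2 t]
    unfold NW.deg
    congr 1
    ext u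
    rw [mem_nbr, mem_biUnion]
    constructor
    · rintro ⟨v', hv', he⟩
      rw [mem_image] at he
      obtain ⟨w, hw, he⟩ := he
      rcases Sym2.eq_iff.1 he with ⟨rfl, rfl⟩ | ⟨_, h2⟩
      · exact hw
      · exact absurd (h2 ▸ hv) (hnot v' hv' t w hw)
    · intro hu
      exact ⟨v, hv, mem_image.2 ⟨u, hu, rfl⟩⟩

end F3
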