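import Pool.Agent.F3.TY.Stm

/-!
# Project F3, block TY: choice of the designated edges (row TY-4)
-/

set_option autoImplicit false
set_option linter.unusedSectionVars false

namespace F3

open Finset NW F1

section ChoiceAux

variable {V : Type} [Fintype V] [DecidableEq V]

theorem choice_nbr_union (A B : Finset (Sym2 V)) (v : V) :
    nbr (A ∪ B) v = nbr A v ∪ nbr B v := by
  ext u
  simp only [nbr, mem_filter, mem_univ, true_and, mem_union]

theorem choice_deg_union_le (A B : Finset (Sym2 V)) (v : V) :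
    NW.deg (A ∪ B) v ≤ NW.deg A v + NW.deg B v := by
  unfold NW.deg
  rw [choice_nbr_union]
  exact card_union_le _ _

theorem choice_deg_union_zero (A B : Finset (Sym2 V)) (v : V) (h : NW.deg B v = 0) :
    NW.deg (A ∪ B) v = NW.deg A v := by
  have h1 : nbr B v = ∅ := by
    unfold NW.deg at h
    exact card_eq_zero.mp h
  unfold NW.deg
  rw [choice_nbr_union, h1, union_empty]

theorem choice_deg_zero (B : Finset (Sym2 V)) (v : V) (h : ∀ e ∈ B, v ∉ e) :
    NW.deg B v = 0 := by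
  unfold NW.deg
  rw [card_eq_zero, eq_empty_iff_forall_notMem]
  intro u hu
  simp only [nbr, mem_filter, mem_univ, true_and] at hu
  exact h _ hu (Sym2.mem_mk_left v u)

theorem choice_deg_split (E : Finset (Sym2 V)) (sd : V → Bool) (v : V) :
    NW.deg E v = di sd E v + dc sd E v := by
  unfold NW.deg di dc
  rw [← card_union_of_disjoint]
  · congr 1
    ext u
    simp only [mem_union, mem_inter, Sd, mem_filter, mem_univ, true_and]
    constructor
    · intro h
      by_cases h1 : sd u = sd v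
      · exact Or.inl ⟨h, h1⟩
      · refine Or.inr ⟨h, ?_⟩
        cases hu : sd u <;> cases hv : sd v <;> simp_all
    · rintro (h | h) <;> exact h.1
  · rw [disjoint_left]
    intro u hu hu'
    simp only [mem_inter, Sd, mem_filter, mem_univ, true_and] at hu hu'
    have h1 := hu.2
    rw [hu'.2] at h1
    cases hv : sd v <;> simp_all

theorem choice_dc_miss (E : Finset (Sym2 V)) (sd : V → Bool) (v : V) :
    dc sd E v + ((Sd sd (!sd v)).filter (fun w => s(v, w) ∉ E)).card =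
      (Sd sd (!sd v)).card := by
  have h1 : nbr E v ∩ Sd sd (!sd v) = (Sd sd (!sd v)).filter (fun w => s(v, w) ∈ E) := by
    ext u
    simp only [mem_inter, nbr, mem_filter, mem_univ, true_and]
    tauto
  unfold dc
  rw [h1]
  exact card_filter_add_card_filter_not _

theorem choice_dc_le (E : Finset (Sym2 V)) (sd : V → Bool) (v : V) :
    (dc sd E v : ℝ) ≤ ((Sd sd (!sd v)).card : ℝ) := by
  have h := choice_dc_miss E sd v
  exact_mod_cast (by omega : dc sd E v ≤ (Sd sd (!sd v)).card)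

/-- the low vertices are atypical -/
theorem choice_low_sub {E : Finset (Sym2 V)} {sd : V → Bool} {At : Finset V} {ε : ℝ}
    (hε : ε ≤ 1 / 1000) (h : PX E sd At ε) : Low E sd ⊆ At := by
  intro v hv
  by_contra hA
  simp only [Low, mem_filter, mem_univ, true_and] at hv
  have hn : (0 : ℝ) ≤ nn V := by unfold nn; positivity
  have h1 := h.miss v hA
  have h2 := h.intT v hA
  have h3 := (abs_le.mp (h.side (!sd v))).1
  have h4 : (dc sd E v : ℝ) + (((Sd sd (!sd v)).filter (fun w => s(v, w) ∉ E)).card : ℝ) =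
      ((Sd sd (!sd v)).card : ℝ) := by exact_mod_cast choice_dc_miss E sd v
  have h5 : 100 * (dc sd E v : ℝ) < 100 * (di sd E v : ℝ) + nn V := by
    unfold nn; exact_mod_cast hv
  have h6 : ε * nn V ≤ 1 / 1000 * nn V := mul_le_mul_of_nonneg_right hε hn
  have h7 : 0 < nn V ∨ nn V = 0 := by
    rcases hn.lt_or_eq with h | h
    · exact Or.inl h
    · exact Or.inr h.symm
  rcases h7 with h7 | h7
  · nlinarith
  · unfold nn at h7
    have h8 : Fintype.card V = 0 := by exact_mod_cast h7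
    exact (Fintype.card_eq_zero_iff.mp h8).elim v

/-- the bound of a term of `GamGeSt` -/
theorem choice_term {E : Finset (Sym2 V)} {sd : V → Bool} {At : Finset V} {ε : ℝ}
    (hε : ε ≤ 1 / 1000) (h : PX E sd At ε) (v : V) (hv : v ∈ Low E sd) :
    nn V / 5 ≤ ((NW.deg E v : ℝ) - 3 * nn V / 4) +
      3 * (((Sd sd (!sd v)).card : ℝ) - (dc sd E v : ℝ)) - 3 / 2 * ((Low E sd).card : ℝ) := by
  have hn : (0 : ℝ) ≤ nn V := by unfold nn; positivity
  have h0 : ((Low E sd).card : ℝ) ≤ ε * nn V :=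
    le_trans (by exact_mod_cast card_le_card (choice_low_sub hε h)) h.At_card
  simp only [Low, mem_filter, mem_univ, true_and] at hv
  have h3 := (abs_le.mp (h.side (!sd v))).1
  have h5 : 100 * (dc sd E v : ℝ) < 100 * (di sd E v : ℝ) + nn V := by
    unfold nn; exact_mod_cast hv
  have h4 : (NW.deg E v : ℝ) = (di sd E v : ℝ) + (dc sd E v : ℝ) := by
    exact_mod_cast choice_deg_split E sd v
  have h6 : ε * nn V ≤ 1 / 1000 * nn V := mul_le_mul_of_nonneg_right hε hn
  have h7 := choice_dc_le E sd v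
  nlinarith

end ChoiceAux

theorem choice (hdvd : DvdSt) (hge : GamGeSt) (hfill : FillSt) (hsel : SelectSt) : ChoiceSt := by
  intro δ c hδ hc
  obtain ⟨δ₁, hδ₁, hδδ, hδ1⟩ : ∃ δ₁ : ℝ, 0 < δ₁ ∧ δ₁ ≤ δ ∧ δ₁ ≤ 1 :=
    ⟨min δ 1, lt_min hδ one_pos, min_le_left _ _, min_le_right _ _⟩
  refine ⟨min (1 / 1000) (min (δ₁ / 4) (c * δ₁ / 4)),
    lt_min (by norm_num) (lt_min (by positivity) (by positivity)),
    max 1000 (⌈4 / δ₁⌉₊ + 1), ?_⟩
  intro V _ _ E sd At Cd Rich hn hX hCd hCdA hNL hRA hRc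
  set ε := min (1 / 1000) (min (δ₁ / 4) (c * δ₁ / 4)) with hεdef
  have hε1 : ε ≤ 1 / 1000 := min_le_left _ _
  have hε2 : ε ≤ δ₁ / 4 := (min_le_right _ _).trans (min_le_left _ _)
  have hε3 : ε ≤ c * δ₁ / 4 := (min_le_right _ _).trans (min_le_right _ _)
  clear_value ε
  have hn1 : 1000 ≤ Fintype.card V := (le_max_left _ _).trans hn
  have hn2 : ⌈4 / δ₁⌉₊ + 1 ≤ Fintype.card V := (le_max_right _ _).trans hn
  have hN1 : (1000 : ℝ) ≤ nn V := by unfold nn; exact_mod_cast hn1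
  have hN2 : 4 / δ₁ ≤ nn V := by
    have h1 : (4 / δ₁ : ℝ) ≤ (⌈4 / δ₁⌉₊ : ℝ) := Nat.le_ceil _
    have h2 : ((⌈4 / δ₁⌉₊ + 1 : ℕ) : ℝ) ≤ nn V := by unfold nn; exact_mod_cast hn2
    push_cast at h2
    linarith
  have hN3 : 4 ≤ δ₁ * nn V := by
    rw [div_le_iff₀ hδ₁] at hN2
    linarith
  have hnn : (Fintype.card V : ℝ) = nn V := rfl
  -- the low vertices
  have hLA : Low E sd ⊆ At := choice_low_sub hε1 hX
  set L := Low E sd with hL
  have hLc : (L.card : ℝ) ≤ ε * nn V :=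
    le_trans (by exact_mod_cast card_le_card hLA) hX.At_card
  -- the total
  have hD0 := hge V E sd ∅ hX.div.1 hX.deg
  simp only [sum_empty] at hD0
  have hD0' : 0 ≤ ∑ e ∈ E, gam sd e := by exact_mod_cast hD0
  obtain ⟨t, ht⟩ := hdvd V E sd hX.div
  have ht0 : 0 ≤ t := by omega
  obtain ⟨τ, rfl⟩ := Int.eq_ofNat_of_zero_le ht0
  have hDL := hge V E sd L hX.div.1 hX.deg
  have hDL' : (L.card : ℝ) * (nn V / 5) ≤ 6 * (τ : ℝ) := by
    have h1 : ∑ v ∈ L, (nn V / 5) ≤ ∑ v ∈ L, (((NW.deg E v : ℝ) - 3 * nn V / 4) +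
      3 * (((Sd sd (!sd v)).card : ℝ) - (dc sd E v : ℝ)) - 3 / 2 * (L.card : ℝ)) :=
      sum_le_sum (fun v hv => choice_term hε1 hX v hv)
    rw [sum_const, nsmul_eq_mul] at h1
    have h2 := h1.trans hDL
    rw [ht] at h2
    push_cast at h2
    exact h2
  have hτ : 6 * (τ : ℝ) ≤ ε * nn V ^ 2 := by
    have h1 := hX.ex
    rw [ht] at h1
    push_cast at h1
    exact h1
  -- the number of designated edges at a low vertex
  set k := Fintype.card V / 100 + 1 with hk
  have hk1 : nn V / 100 ≤ (k : ℝ) := by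
    have h1 : Fintype.card V ≤ 100 * k := by omega
    have h2 : nn V ≤ 100 * (k : ℝ) := by unfold nn; exact_mod_cast h1
    linarith
  have hk2 : (k : ℝ) ≤ nn V / 100 + 1 := by
    have h1 : 100 * k ≤ Fintype.card V + 100 := by omega
    have h2 : 100 * (k : ℝ) ≤ nn V + 100 := by unfold nn; exact_mod_cast h1
    linarith
  have hkC : ∀ v ∈ L, k ≤ (Cd v).card := by
    intro v hv
    have h1 := hCd v hv
    have h2 : (k : ℝ) ≤ ((Cd v).card : ℝ) := by linarith
    exact_mod_cast h2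
  have hkL : k * L.card ≤ τ := by
    have h0 : (0 : ℝ) ≤ (L.card : ℝ) := by positivity
    have h1 : (6 : ℝ) * ((k : ℝ) * (L.card : ℝ)) ≤ 6 * (τ : ℝ) := by
      refine le_trans ?_ hDL'
      have h2 : 6 * (k : ℝ) ≤ nn V / 5 := by linarith
      nlinarith
    have h2 : (k : ℝ) * (L.card : ℝ) ≤ (τ : ℝ) := by linarith
    exact_mod_cast h2
  obtain ⟨D₁, hD1c, hD1L, hD1n, hD1A, hD1m⟩ := hsel V L At k Cd hLA hkC hCdA
  -- the rich edges
  obtain ⟨N, hNdef⟩ : ∃ N : ℕ, τ = k * L.card + N := ⟨τ - k * L.card, by omega⟩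
  set q := ⌊δ₁ * nn V / 2⌋₊ with hq
  have hq1 : (q : ℝ) ≤ δ₁ * nn V / 2 := Nat.floor_le (by positivity)
  have hq2 : δ₁ * nn V / 4 ≤ (q : ℝ) := by
    have h1 : δ₁ * nn V / 2 < (q : ℝ) + 1 := Nat.lt_floor_add_one _
    linarith
  have hq0r : (0 : ℝ) < (q : ℝ) := by linarith
  have hq0 : 0 < q := by exact_mod_cast hq0r
  have hfit : N * (2 * Fintype.card V / q + 1) ≤ Rich.card := by
    have h1 : ((2 * Fintype.card V / q : ℕ) : ℝ) ≤ 2 * nn V / (q : ℝ) := by
      refine le_trans Nat.cast_div_le ?_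
      push_cast
      exact le_of_eq rfl
    have h2 : 2 * nn V / (q : ℝ) ≤ 8 / δ₁ := by
      rw [div_le_div_iff₀ hq0r hδ₁]
      nlinarith
    have h3 : (1 : ℝ) ≤ 1 / δ₁ := by
      rw [le_div_iff₀ hδ₁]; linarith
    have h4 : ((2 * Fintype.card V / q : ℕ) : ℝ) + 1 ≤ 9 / δ₁ := by
      have h5 : (9 : ℝ) / δ₁ = 8 / δ₁ + 1 / δ₁ := by ring
      rw [h5]; linarith
    have h6 : (N : ℝ) ≤ ε * nn V ^ 2 / 6 := by
      have h7 : (N : ℝ) ≤ (τ : ℝ) := by exact_mod_cast (by omega : N ≤ τ)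
      linarith
    have h8 : (N : ℝ) ≤ c * δ₁ / 4 * nn V ^ 2 / 6 := by
      refine h6.trans ?_
      have h9 : ε * nn V ^ 2 ≤ c * δ₁ / 4 * nn V ^ 2 :=
        mul_le_mul_of_nonneg_right hε3 (by positivity)
      linarith
    have h10 : (N : ℝ) * (((2 * Fintype.card V / q : ℕ) : ℝ) + 1) ≤
        (c * δ₁ / 4 * nn V ^ 2 / 6) * (9 / δ₁) :=
      mul_le_mul h8 h4 (by positivity) (by positivity)
    have h11 : (c * δ₁ / 4 * nn V ^ 2 / 6) * (9 / δ₁) = 3 / 8 * (c * nn V ^ 2) := by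
      field_simp
      norm_num
    have h12 : (0 : ℝ) ≤ c * nn V ^ 2 := by positivity
    have h13 : (N : ℝ) * (((2 * Fintype.card V / q : ℕ) : ℝ) + 1) ≤ (Rich.card : ℝ) := by
      rw [h11] at h10
      linarith
    exact_mod_cast h13
  obtain ⟨D₂, hD2s, hD2c, hD2d⟩ := hfill V Rich N q hNL hq0 hfit
  have hD2A : ∀ v ∈ At, NW.deg D₂ v = 0 := by
    intro v hv
    apply choice_deg_zero
    intro e he hve
    exact hRA e (hD2s he) v hve hv
  have hdisj : Disjoint D₁ D₂ := by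
    rw [disjoint_left]
    intro e he1 he2
    revert he1 he2
    refine Sym2.ind (fun p r => ?_) e
    intro he1 he2
    rcases hD1m p r he1 with h | h
    · exact hRA _ (hD2s he2) p (Sym2.mem_mk_left p r) (hLA h.1)
    · exact hRA _ (hD2s he2) r (Sym2.mem_mk_right p r) (hLA h.1)
  refine ⟨D₁ ∪ D₂, ⟨?_, ?_, ?_, ?_, ?_, ?_⟩⟩
  · rw [ht, card_union_of_disjoint hdisj, hD1c, hD2c]
    rw [hNdef]
  · intro v hv
    have h1 := choice_deg_union_le D₁ D₂ v
    have h2 := hD1n v (fun h => hv (hLA h))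
    have h3 := hD2d v
    have h4 : (NW.deg (D₁ ∪ D₂) v : ℝ) ≤ (L.card : ℝ) + (q : ℝ) := by
      exact_mod_cast (by omega : NW.deg (D₁ ∪ D₂) v ≤ L.card + q)
    have h5 : ε * nn V ≤ δ₁ / 4 * nn V := mul_le_mul_of_nonneg_right hε2 (by linarith)
    have h6 : δ₁ * nn V ≤ δ * nn V := mul_le_mul_of_nonneg_right hδδ (by linarith)
    linarith
  · intro v hv hvL
    rw [choice_deg_union_zero D₁ D₂ v (hD2A v hv)]
    exact hD1A v hv hvL
  · intro v hv
    rw [choice_deg_union_zero D₁ D₂ v (hD2A v (hLA hv)), hD1L v hv]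
    exact hk1
  · intro v hv
    rw [choice_deg_union_zero D₁ D₂ v (hD2A v (hLA hv)), hD1L v hv]
    exact hk2
  · intro p r h
    rcases mem_union.mp h with h | h
    · rcases hD1m p r h with h | h
      · exact Or.inl h
      · exact Or.inr (Or.inl h)
    · exact Or.inr (Or.inr (hD2s h))

end F3
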