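import Pool.Agent.F3.TY.Stm
import Pool.Agent.F3.W.Basic

/-!
# Project F3, block TY, row TY-1: the sum of the weights of a cut
-/

set_option autoImplicit false
set_option linter.unusedSectionVars false

namespace F3

open Finset NW F1

theorem sumGam : SumGamSt := by
  intro V _ _ E χ hE
  have h1 := sum_gam' hE χ
  have h2 := sum_dc χ E
  have h3 : ∑ v, (dc χ E v : ℤ) = 2 * (eP E (Sd χ true) (Sd χ false) : ℤ) := by
    exact_mod_cast h2
  rw [Finset.sum_sub_distrib, ← Finset.mul_sum, h3, h1]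
  ring

section Cnt

variable {V : Type} [Fintype V] [DecidableEq V]

/-- the number of ordered pairs inside a side is even -/
theorem cnt_even_di {E : Finset (Sym2 V)} (hE : NW.NL E) (χ : V → Bool) (b : Bool) :
    Even (∑ v ∈ Sd χ b, di χ E v) := by
  have h1 : ∑ v, NW.deg (E.filter (fun e => ∀ v ∈ e, χ v = b)) v =
      2 * (E.filter (fun e => ∀ v ∈ e, χ v = b)).card :=
    sum_deg (fun e he => hE e (mem_filter.1 he).1)
  have h2 : ∑ v, NW.deg (E.filter (fun e => ∀ v ∈ e, χ v = b)) v = ∑ v ∈ Sd χ b, di χ E v := by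
    symm
    refine Finset.sum_subset_zero_on_sdiff (Finset.subset_univ _) ?_ ?_
    · intro v hv
      rw [mem_sdiff, mem_Sd] at hv
      unfold NW.deg
      rw [Finset.card_eq_zero, Finset.eq_empty_iff_forall_notMem]
      intro w hw
      rw [mem_nbr, mem_filter] at hw
      exact hv.2 (hw.2 v (by simp))
    · intro v hv
      rw [mem_Sd] at hv
      unfold NW.deg di
      congr 1
      ext w
      rw [mem_nbr, mem_filter, mem_inter, mem_nbr, mem_Sd, hv]
      constructor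
      · rintro ⟨h3, h4⟩
        refine ⟨h3, fun u hu => ?_⟩
        rw [Sym2.mem_iff] at hu
        rcases hu with rfl | rfl
        · exact hv
        · exact h4
      · rintro ⟨h3, h4⟩
        exact ⟨h3, h4 w (by simp)⟩
  rw [← h2, h1]
  exact even_two_mul _

theorem cnt_sum_dc (E : Finset (Sym2 V)) (χ : V → Bool) :
    ∑ v ∈ Sd χ true, dc χ E v = eP E (Sd χ true) (Sd χ false) := by
  rw [eP_eq_sum]
  refine Finset.sum_congr rfl fun v hv => ?_
  rw [mem_Sd] at hv
  unfold dc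
  rw [hv]
  rfl

/-- number of missing cross pairs at a vertex -/
def cntY (χ : V → Bool) (E : Finset (Sym2 V)) (S : Finset V) (v : V) : ℕ :=
  (S.filter (fun w => χ w = !χ v ∧ s(v, w) ∉ E)).card

theorem cntY_add (χ : V → Bool) (E : Finset (Sym2 V)) (v : V) :
    dc χ E v + cntY χ E univ v = (Sd χ (!χ v)).card := by
  unfold dc cntY
  rw [← Finset.card_union_of_disjoint]
  · congr 1
    ext w
    simp only [mem_union, mem_inter, mem_nbr, mem_Sd, mem_filter, mem_univ, true_and]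
    tauto
  · rw [Finset.disjoint_left]
    intro w h1 h2
    rw [mem_inter, mem_nbr] at h1
    rw [mem_filter] at h2
    exact h2.2.2 h1.1

theorem cntY_split (χ : V → Bool) (E : Finset (Sym2 V)) (S : Finset V) (v : V) :
    cntY χ E univ v = cntY χ E S v + cntY χ E (univ \ S) v := by
  unfold cntY
  rw [← Finset.card_union_of_disjoint]
  · congr 1
    ext w
    simp only [mem_union, mem_sdiff, mem_filter, mem_univ, true_and]
    tauto
  · rw [Finset.disjoint_left]
    intro w h1 h2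
    rw [mem_filter] at h1 h2
    exact (mem_sdiff.1 h2.1).2 h1.1

theorem cntY_comm (χ : V → Bool) (E : Finset (Sym2 V)) (S T : Finset V) :
    ∑ v ∈ T, cntY χ E S v = ∑ w ∈ S, cntY χ E T w := by
  unfold cntY
  simp only [Finset.card_filter]
  rw [Finset.sum_comm]
  refine Finset.sum_congr rfl fun w _ => Finset.sum_congr rfl fun v _ => ?_
  have h : (χ w = !χ v ∧ s(v, w) ∉ E) ↔ (χ v = !χ w ∧ s(w, v) ∉ E) := by
    rw [Sym2.eq_swap (a := w) (b := v)]
    cases χ v <;> cases χ w <;> simp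
  by_cases h1 : χ w = !χ v ∧ s(v, w) ∉ E
  · rw [if_pos h1, if_pos (h.1 h1)]
  · rw [if_neg h1, if_neg (fun h2 => h1 (h.2 h2))]

/-- every missing cross pair is charged to its end in `S` -/
theorem cntY_ge (χ : V → Bool) (E : Finset (Sym2 V)) (S : Finset V) :
    ∑ v ∈ S, (2 * (cntY χ E univ v : ℝ) - (S.card : ℝ)) ≤ ∑ v, (cntY χ E univ v : ℝ) := by
  have h1 : ∑ v, cntY χ E univ v =
      ∑ v ∈ S, cntY χ E univ v + ∑ v ∈ univ \ S, cntY χ E univ v := by
    rw [add_comm, Finset.sum_sdiff (Finset.subset_univ S)]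
  have h2 : ∑ v ∈ univ \ S, cntY χ E S v ≤ ∑ v ∈ univ \ S, cntY χ E univ v := by
    refine Finset.sum_le_sum fun v _ => ?_
    rw [cntY_split χ E S v]
    omega
  have h3 : ∑ v ∈ S, cntY χ E univ v ≤ ∑ v ∈ S, (S.card + cntY χ E (univ \ S) v) := by
    refine Finset.sum_le_sum fun v _ => ?_
    rw [cntY_split χ E S v]
    have : cntY χ E S v ≤ S.card := Finset.card_filter_le _ _
    omega
  rw [Finset.sum_add_distrib] at h3
  have h4 := cntY_comm χ E S (univ \ S)
  have h5 : ∑ v ∈ S, cntY χ E univ v + ∑ v ∈ S, cntY χ E univ v ≤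
      ∑ v ∈ S, S.card + ∑ v, cntY χ E univ v := by omega
  have h6 : ∑ v ∈ S, (cntY χ E univ v : ℝ) + ∑ v ∈ S, (cntY χ E univ v : ℝ) ≤
      ∑ v ∈ S, (S.card : ℝ) + ∑ v, (cntY χ E univ v : ℝ) := by exact_mod_cast h5
  rw [Finset.sum_sub_distrib, ← Finset.mul_sum]
  linarith

theorem cnt_sum_Sd (χ : V → Bool) :
    ∑ v, ((Sd χ (!χ v)).card : ℝ) = 2 * (((Sd χ true).card : ℝ) * ((Sd χ false).card : ℝ)) := by
  rw [← Finset.sum_filter_add_sum_filter_not univ (fun v => χ v = true)]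
  have h1 : ∑ v ∈ univ.filter (fun v => χ v = true), ((Sd χ (!χ v)).card : ℝ) =
      ((Sd χ true).card : ℝ) * ((Sd χ false).card : ℝ) := by
    rw [Finset.sum_congr rfl (g := fun _ => ((Sd χ false).card : ℝ))]
    · rw [Finset.sum_const, nsmul_eq_mul]
      rfl
    · intro v hv
      rw [mem_filter] at hv
      rw [hv.2]
      rfl
  have h2 : ∑ v ∈ univ.filter (fun v => ¬ χ v = true), ((Sd χ (!χ v)).card : ℝ) =
      ((Sd χ true).card : ℝ) * ((Sd χ false).card : ℝ) := by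
    rw [Finset.sum_congr rfl (g := fun _ => ((Sd χ true).card : ℝ))]
    · rw [Finset.sum_const, nsmul_eq_mul]
      have h3 : (univ.filter (fun v => ¬ χ v = true)).card = (Sd χ false).card := by
        congr 1
        ext v
        simp [mem_Sd]
      rw [h3, mul_comm]
    · intro v hv
      rw [mem_filter] at hv
      have h3 : χ v = false := by simpa using hv.2
      rw [h3]
      rfl
  rw [h1, h2]
  ring

end Cnt

theorem dvd_gam : DvdSt := by
  intro V _ _ E χ hD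
  obtain ⟨hNL, hev, m, hm⟩ := hD
  rw [sum_gam]
  have h1 : Even (∑ v ∈ Sd χ true, NW.deg E v) := Finset.even_sum _ fun v _ => hev v
  have h2 : ∑ v ∈ Sd χ true, NW.deg E v =
      ∑ v ∈ Sd χ true, di χ E v + ∑ v ∈ Sd χ true, dc χ E v := by
    rw [← Finset.sum_add_distrib]
    exact Finset.sum_congr rfl fun v _ => deg_eq_di_dc χ E v
  rw [h2, cnt_sum_dc] at h1
  obtain ⟨a, ha⟩ := cnt_even_di hNL χ true
  obtain ⟨b, hb⟩ := h1
  have h3 : (eP E (Sd χ true) (Sd χ false) : ℤ) = 2 * ((b : ℤ) - a) := by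
    have h4 : (a : ℤ) + a + (eP E (Sd χ true) (Sd χ false) : ℤ) = b + b := by
      rw [ha] at hb
      exact_mod_cast hb
    linarith
  rw [h3, hm]
  refine ⟨(m : ℤ) - (b - a), ?_⟩
  push_cast
  ring

theorem gamGe : GamGeSt := by
  intro V _ _ E χ S hE hdeg
  have h1 := sumGam V E χ hE
  have h2 : 2 * ((∑ e ∈ E, gam χ e : ℤ) : ℝ) = ∑ v, (2 * (di χ E v : ℝ) - (dc χ E v : ℝ)) := by
    exact_mod_cast h1
  have hdc : ∀ v, (dc χ E v : ℝ) = ((Sd χ (!χ v)).card : ℝ) - (cntY χ E univ v : ℝ) := by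
    intro v
    have h3 := cntY_add χ E v
    have h4 : (dc χ E v : ℝ) + (cntY χ E univ v : ℝ) = ((Sd χ (!χ v)).card : ℝ) := by
      exact_mod_cast h3
    linarith
  have hdi : ∀ v, (di χ E v : ℝ) = (NW.deg E v : ℝ) - (dc χ E v : ℝ) := by
    intro v
    have h3 := deg_eq_di_dc χ E v
    have h4 : (NW.deg E v : ℝ) = (di χ E v : ℝ) + (dc χ E v : ℝ) := by exact_mod_cast h3
    linarith
  have h3 : ∑ v, (2 * (di χ E v : ℝ) - (dc χ E v : ℝ)) =
      2 * ∑ v, ((NW.deg E v : ℝ) - 3 * nn V / 4) + 3 * nn V ^ 2 / 2 -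
        3 * ∑ v, ((Sd χ (!χ v)).card : ℝ) + 3 * ∑ v, (cntY χ E univ v : ℝ) := by
    have h4 : ∑ _v : V, (3 * nn V / 4) = 3 * nn V ^ 2 / 4 := by
      rw [Finset.sum_const, Finset.card_univ, nsmul_eq_mul]
      unfold nn
      ring
    have h5 : ∑ v, (2 * (di χ E v : ℝ) - (dc χ E v : ℝ)) =
        ∑ v, (2 * ((NW.deg E v : ℝ) - 3 * nn V / 4) + 2 * (3 * nn V / 4) -
          3 * ((Sd χ (!χ v)).card : ℝ) + 3 * (cntY χ E univ v : ℝ)) := by
      refine Finset.sum_congr rfl fun v _ => ?_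
      rw [hdi, hdc]
      ring
    rw [h5, Finset.sum_add_distrib, Finset.sum_sub_distrib, Finset.sum_add_distrib,
      ← Finset.mul_sum, ← Finset.mul_sum, ← Finset.mul_sum, ← Finset.mul_sum, h4]
    ring
  have h4 := cnt_sum_Sd χ
  have h5 := card_Sd χ
  have h6 := cntY_ge χ E S
  have h7 : ∑ v ∈ S, ((NW.deg E v : ℝ) - 3 * nn V / 4) ≤
      ∑ v, ((NW.deg E v : ℝ) - 3 * nn V / 4) := by
    refine Finset.sum_le_sum_of_subset_of_nonneg (Finset.subset_univ S) fun v _ _ => ?_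
    have h8 : (3 : ℝ) * (Fintype.card V : ℝ) ≤ 4 * (NW.deg E v : ℝ) := by
      exact_mod_cast hdeg v
    unfold nn
    linarith
  have h8 : 3 * nn V ^ 2 / 2 - 3 * ∑ v, ((Sd χ (!χ v)).card : ℝ) ≥ 0 := by
    rw [h4, ← h5]
    nlinarith [sq_nonneg (((Sd χ true).card : ℝ) - ((Sd χ false).card : ℝ))]
  have h9 : ∑ v ∈ S, (((NW.deg E v : ℝ) - 3 * nn V / 4) +
      3 * (((Sd χ (!χ v)).card : ℝ) - (dc χ E v : ℝ)) - 3 / 2 * (S.card : ℝ)) =
      ∑ v ∈ S, ((NW.deg E v : ℝ) - 3 * nn V / 4) +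
        3 / 2 * ∑ v ∈ S, (2 * (cntY χ E univ v : ℝ) - (S.card : ℝ)) := by
    rw [Finset.mul_sum, ← Finset.sum_add_distrib]
    refine Finset.sum_congr rfl fun v _ => ?_
    rw [hdc]
    ring
  rw [h9]
  linarith

end F3
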