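import Pool.Agent.F3.TY.Stm

/-!
# Project F3, block TY, row TY-20: degrees of world T
-/

set_option autoImplicit false
set_option linter.unusedSectionVars false

namespace F3

open Finset NW F1

section Deg4Aux

variable {V : Type} [Fintype V] [DecidableEq V]

theorem deg4_bool : ∀ (t : Fin 3) (a b c d : Bool),
    (if (if t = 0 then c else if t = 1 then d else xor c d) =
      !(if t = 0 then a else if t = 1 then b else xor a b) then 1 else 0) =
    ∑ t' ∈ univ.erase t, (if ((if t' = 0 then a else if t' = 1 then b else xor a b) =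
      (if t' = 0 then c else if t' = 1 then d else xor c d)) ∧ ¬ (a = c ∧ b = d) then 1
        else 0) := by
  decide

theorem deg4_bool1 : ∀ (a b c d : Bool),
    1 = (if a = c ∧ b = d then 1 else 0) +
    ∑ t : Fin 3, (if ((if t = 0 then a else if t = 1 then b else xor a b) =
      (if t = 0 then c else if t = 1 then d else xor c d)) ∧ ¬ (a = c ∧ b = d) then 1
        else 0) := by
  decide

theorem deg4_bool2 : ∀ (t : Fin 3) (a b c d : Bool),
    (if (if t = 0 then c else if t = 1 then d else xor c d) =
      (if t = 0 then a else if t = 1 then b else xor a b) then 1 else 0) =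
    (if a = c ∧ b = d then 1 else 0) +
      (if ((if t = 0 then a else if t = 1 then b else xor a b) =
        (if t = 0 then c else if t = 1 then d else xor c d)) ∧ ¬ (a = c ∧ b = d) then 1
        else 0) := by
  decide

/-- the class of type `t` seen from `v` is one part -/
theorem deg4_part (sd pt : V → Bool) (t : Fin 3) (v : V) :
    ∃ a b : Bool, univ.filter (fun w => CT sd pt t v w) = Pa sd pt a b := by
  have key : ∃ a b : Bool, ∀ w, CT sd pt t v w ↔ (sd w = a ∧ pt w = b) := by
    fin_cases t
    · refine ⟨sd v, !pt v, fun w => ?_⟩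
      unfold CT cut
      cases sd v <;> cases pt v <;> cases sd w <;> cases pt w <;> decide
    · refine ⟨!sd v, pt v, fun w => ?_⟩
      unfold CT cut
      cases sd v <;> cases pt v <;> cases sd w <;> cases pt w <;> decide
    · refine ⟨!sd v, !pt v, fun w => ?_⟩
      unfold CT cut
      cases sd v <;> cases pt v <;> cases sd w <;> cases pt w <;> decide
  obtain ⟨a, b, h⟩ := key
  refine ⟨a, b, ?_⟩
  unfold Pa
  exact filter_congr (fun w _ => h w)

/-- own part and the three classes -/
theorem deg4_split (sd pt : V → Bool) (S : Finset V) (v : V) :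
    S.card = (S.filter (fun w => sd v = sd w ∧ pt v = pt w)).card +
      ∑ t, (S.filter (fun w => CT sd pt t v w)).card := by
  have h : ∀ w ∈ S, 1 = (if sd v = sd w ∧ pt v = pt w then 1 else 0) +
      ∑ t : Fin 3, (if CT sd pt t v w then 1 else 0) := fun w _ =>
    (deg4_bool1 (sd v) (pt v) (sd w) (pt w)).trans
      (congrArg₂ (· + ·) (if_congr Iff.rfl rfl rfl)
        (sum_congr rfl (fun t' _ => if_congr Iff.rfl rfl rfl)))
  simp only [card_filter]
  rw [sum_comm, ← sum_add_distrib, card_eq_sum_ones]
  exact sum_congr rfl h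

/-- the own side of the cut `t` -/
theorem deg4_side (sd pt : V → Bool) (S : Finset V) (v : V) (t : Fin 3) :
    (S.filter (fun w => cut sd pt t w = cut sd pt t v)).card =
      (S.filter (fun w => sd v = sd w ∧ pt v = pt w)).card +
      (S.filter (fun w => CT sd pt t v w)).card := by
  have h : ∀ w ∈ S, (if cut sd pt t w = cut sd pt t v then 1 else 0) =
      (if sd v = sd w ∧ pt v = pt w then 1 else 0) + (if CT sd pt t v w then 1 else 0) :=
    fun w _ =>
    (if_congr Iff.rfl rfl rfl).trans ((deg4_bool2 t (sd v) (pt v) (sd w) (pt w)).trans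
      (congrArg₂ (· + ·) (if_congr Iff.rfl rfl rfl) (if_congr Iff.rfl rfl rfl)))
  simp only [card_filter]
  rw [← sum_add_distrib]
  exact sum_congr rfl h

/-- the other side of the cut `t` -/
theorem deg4_cross (sd pt : V → Bool) (S : Finset V) (v : V) (t : Fin 3) :
    (S.filter (fun w => cut sd pt t w = !cut sd pt t v)).card =
      ∑ t' ∈ univ.erase t, (S.filter (fun w => CT sd pt t' v w)).card := by
  have h : ∀ w ∈ S, (if cut sd pt t w = !cut sd pt t v then 1 else 0) =
      ∑ t' ∈ univ.erase t, (if CT sd pt t' v w then 1 else 0) := fun w _ =>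
    (if_congr Iff.rfl rfl rfl).trans ((deg4_bool t (sd v) (pt v) (sd w) (pt w)).trans
      (sum_congr rfl (fun t' _ => if_congr Iff.rfl rfl rfl)))
  simp only [card_filter]
  rw [sum_comm]
  exact sum_congr rfl h

/-- a side of the cut `t` consists of two parts -/
theorem deg4_sd (sd pt : V → Bool) (t : Fin 3) (b : Bool) :
    ∃ a₁ b₁ a₂ b₂ : Bool, (Sd (cut sd pt t) b).card =
      (Pa sd pt a₁ b₁).card + (Pa sd pt a₂ b₂).card := by
  have key : ∃ a₁ b₁ a₂ b₂ : Bool, ∀ w, (if cut sd pt t w = b then 1 else 0) =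
      (if sd w = a₁ ∧ pt w = b₁ then 1 else 0) + (if sd w = a₂ ∧ pt w = b₂ then 1 else 0) := by
    fin_cases t
    · refine ⟨b, true, b, false, fun w => ?_⟩
      unfold cut
      cases b <;> cases sd w <;> cases pt w <;> decide
    · refine ⟨true, b, false, b, fun w => ?_⟩
      unfold cut
      cases b <;> cases sd w <;> cases pt w <;> decide
    · refine ⟨true, !b, false, b, fun w => ?_⟩
      unfold cut
      cases b <;> cases sd w <;> cases pt w <;> decide
  obtain ⟨a₁, b₁, a₂, b₂, h⟩ := key
  refine ⟨a₁, b₁, a₂, b₂, ?_⟩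
  unfold Sd Pa
  simp only [card_filter]
  rw [← sum_add_distrib]
  exact sum_congr rfl (fun w _ => h w)

end Deg4Aux

/-- row TY-20 -/
theorem deg4 : Deg4St := by
  intro V _ _ E sd pt At ε hP
  have c1 : ∀ v, NW.deg E v = ex4 sd pt E v + ∑ t, NT sd pt E t v := fun v =>
    deg4_split sd pt (nbr E v) v
  have c6 : ∀ v t, ((univ.filter (fun w => CT sd pt t v w)).card : ℝ) ≤
      (1 / 4 + ε) * nn V := by
    intro v t
    obtain ⟨a, b, h⟩ := deg4_part sd pt t v
    rw [h]
    have := (abs_le.mp (hP.part a b)).2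
    linarith
  have c7 : ∀ v t, (1 / 4 - ε) * nn V ≤
      ((univ.filter (fun w => CT sd pt t v w)).card : ℝ) := by
    intro v t
    obtain ⟨a, b, h⟩ := deg4_part sd pt t v
    rw [h]
    have := (abs_le.mp (hP.part a b)).1
    linarith
  have c2 : ∀ v t, (NT sd pt E t v : ℝ) ≤ (1 / 4 + ε) * nn V := by
    intro v t
    refine le_trans ?_ (c6 v t)
    exact_mod_cast card_le_card (filter_subset_filter _ (subset_univ _))
  have hε : 0 ≤ ε * nn V := (abs_nonneg _).trans (hP.part true true)
  refine ⟨c1, c2, ?_, ?_, ?_, c6, c7, ?_, ?_⟩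
  · intro v t
    have h1 : (3 : ℝ) * nn V ≤ 4 * (NW.deg E v : ℝ) := by
      unfold nn
      exact_mod_cast hP.deg v
    have h2 : (NW.deg E v : ℝ) = (ex4 sd pt E v : ℝ) + ∑ t, (NT sd pt E t v : ℝ) := by
      rw [c1 v]
      push_cast
      ring
    have h3 : (ex4 sd pt E v : ℝ) ≤ (NT sd pt E t v : ℝ) := by
      exact_mod_cast hP.loc v t
    have h4 := c2 v 0
    have h5 := c2 v 1
    have h6 := c2 v 2
    rw [Fin.sum_univ_three] at h2
    fin_cases t
    · simp only [Fin.zero_eta, Fin.isValue] at h3 ⊢
      nlinarith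
    · simp only [Fin.mk_one, Fin.isValue] at h3 ⊢
      nlinarith
    · simp only [Fin.reduceFinMk, Fin.isValue] at h3 ⊢
      nlinarith
  · intro v t
    have := deg4_side sd pt (nbr E v) v t
    unfold di ex4 NT
    rw [← this]
    congr 1
    ext w
    unfold Sd
    simp only [mem_inter, mem_filter, mem_univ, true_and]
  · intro v t
    have := deg4_cross sd pt (nbr E v) v t
    unfold dc NT
    rw [← this]
    congr 1
    ext w
    unfold Sd
    simp only [mem_inter, mem_filter, mem_univ, true_and]
  · intro v t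
    have := deg4_cross sd pt univ v t
    unfold Sd
    exact this
  · intro t b
    obtain ⟨a₁, b₁, a₂, b₂, h⟩ := deg4_sd sd pt t b
    rw [h]
    have h1 := abs_le.mp (hP.part a₁ b₁)
    have h2 := abs_le.mp (hP.part a₂ b₂)
    push_cast
    rw [abs_le]
    constructor <;> linarith [h1.1, h1.2, h2.1, h2.2]

end F3
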