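import Pool.Agent.F3.TY.Stm

/-!
# Project F3, block TY: an exceptional edge with a typical end, and its apexes
-/

set_option autoImplicit false
set_option linter.unusedSectionVars false

namespace F3

open Finset NW F1

section E0

variable {V : Type} [Fintype V] [DecidableEq V]

theorem e0_mem_Sd {sd : V → Bool} {b : Bool} {v : V} : v ∈ Sd sd b ↔ sd v = b := by
  unfold Sd; simp

theorem e0_mem_Pa {sd pt : V → Bool} {b c : Bool} {v : V} :
    v ∈ Pa sd pt b c ↔ sd v = b ∧ pt v = c := by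
  unfold Pa; simp

theorem e0_co_symm {fl : Bool → Bool} {sd pt : V → Bool} {u v : V} (h : Co fl sd pt u v) :
    Co fl sd pt v u := by
  unfold Co CoP at h ⊢
  by_cases hs : sd u = sd v
  · rcases h with h | h
    · exact absurd hs h
    · right
      rw [hs]
      split_ifs with h1
      · rw [if_pos h1] at h; exact h.symm
      · rw [if_neg h1] at h; exact fun h2 => h h2.symm
  · left
    exact fun h2 => hs h2.symm

theorem e0_co_of_ne {fl : Bool → Bool} {sd pt : V → Bool} {u v : V} (h : sd u ≠ sd v) :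
    Co fl sd pt u v := Or.inl h

theorem e0_card_Sd (sd pt : V → Bool) (b : Bool) :
    (Sd sd b).card = (Pa sd pt b true).card + (Pa sd pt b false).card := by
  rw [← Finset.card_union_of_disjoint]
  · congr 1
    ext v
    rw [Finset.mem_union, e0_mem_Sd, e0_mem_Pa, e0_mem_Pa]
    cases pt v <;> simp
  · rw [Finset.disjoint_left]
    intro v h1 h2
    rw [e0_mem_Pa] at h1 h2
    rw [h1.2] at h2
    exact absurd h2.2 (by simp)

theorem e0_card_univ (sd : V → Bool) :
    Fintype.card V = (Sd sd true).card + (Sd sd false).card := by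
  rw [← Finset.card_univ, ← Finset.card_union_of_disjoint]
  · congr 1
    ext v
    rw [Finset.mem_union, e0_mem_Sd, e0_mem_Sd]
    cases sd v <;> simp
  · rw [Finset.disjoint_left]
    intro v h1 h2
    rw [e0_mem_Sd] at h1 h2
    rw [h1] at h2
    exact absurd h2 (by simp)

/-- the degree of a typical vertex all of whose edges are core, side of type D -/
theorem e0_degD {E : Finset (Sym2 V)} {fl : Bool → Bool} {sd pt : V → Bool} (hE : NL E) (v : V)
    (hco : ∀ w, s(v, w) ∈ E → Co fl sd pt v w) (hfl : fl (sd v) = true) :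
    NW.deg E v + 1 ≤ (Sd sd (!sd v)).card + (Pa sd pt (sd v) (pt v)).card := by
  have h1 : NW.nbr E v ⊆ Sd sd (!sd v) ∪ (Pa sd pt (sd v) (pt v)).erase v := by
    intro w hw
    have hw' : s(v, w) ∈ E := NW.mem_nbr.1 hw
    have hne : w ≠ v := by
      rintro rfl
      exact hE _ hw' (by simp)
    have h2 := hco w hw'
    unfold Co CoP at h2
    rw [Finset.mem_union]
    by_cases hs : sd v = sd w
    · right
      rw [Finset.mem_erase, e0_mem_Pa]
      rcases h2 with h2 | h2
      · exact absurd hs h2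
      · rw [← hs, if_pos hfl] at h2
        exact ⟨hne, hs.symm, h2.symm⟩
    · left
      rw [e0_mem_Sd]
      revert hs
      cases sd v <;> cases sd w <;> simp
  have h2 := (Finset.card_le_card h1).trans (Finset.card_union_le _ _)
  have h3 : v ∈ Pa sd pt (sd v) (pt v) := e0_mem_Pa.2 ⟨rfl, rfl⟩
  rw [Finset.card_erase_of_mem h3] at h2
  have h4 : 0 < (Pa sd pt (sd v) (pt v)).card := Finset.card_pos.2 ⟨v, h3⟩
  unfold NW.deg
  omega

/-- the degree of a typical vertex all of whose edges are core, side of type P -/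
theorem e0_degP {E : Finset (Sym2 V)} {fl : Bool → Bool} {sd pt : V → Bool} (v : V)
    (hco : ∀ w, s(v, w) ∈ E → Co fl sd pt v w) (hfl : fl (sd v) ≠ true) :
    NW.deg E v ≤ (Sd sd (!sd v)).card + (Pa sd pt (sd v) (!pt v)).card := by
  have h1 : NW.nbr E v ⊆ Sd sd (!sd v) ∪ Pa sd pt (sd v) (!pt v) := by
    intro w hw
    have hw' : s(v, w) ∈ E := NW.mem_nbr.1 hw
    have h2 := hco w hw'
    unfold Co CoP at h2
    rw [Finset.mem_union]
    by_cases hs : sd v = sd w
    · right
      rw [e0_mem_Pa]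
      rcases h2 with h2 | h2
      · exact absurd hs h2
      · rw [← hs, if_neg hfl] at h2
        refine ⟨hs.symm, ?_⟩
        revert h2
        cases pt v <;> cases pt w <;> simp
    · left
      rw [e0_mem_Sd]
      revert hs
      cases sd v <;> cases sd w <;> simp
  exact (Finset.card_le_card h1).trans (Finset.card_union_le _ _)

theorem e0_nn_pos (h : 0 < Fintype.card V) : 0 < nn V := by
  unfold nn
  exact_mod_cast h

/-- every part has a typical vertex -/
theorem e0_typ {E : Finset (Sym2 V)} {fl : Bool → Bool} {sd pt : V → Bool} {At : Finset V} {ε : ℝ}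
    (hn : 0 < Fintype.card V) (hε1 : ε ≤ 1 / 1000) (h : PR E fl sd pt At ε) (b c : Bool) :
    ∃ v, sd v = b ∧ pt v = c ∧ v ∉ At := by
  by_contra hcon
  push Not at hcon
  have h1 : Pa sd pt b c ⊆ At := by
    intro v hv
    rw [e0_mem_Pa] at hv
    exact hcon v hv.1 hv.2
  have h2 : ((Pa sd pt b c).card : ℝ) ≤ (At.card : ℝ) := by
    exact_mod_cast Finset.card_le_card h1
  have h3 := (abs_le.1 (h.part b c)).1
  have h4 := h.x.At_card
  have h5 := e0_nn_pos hn
  nlinarith

end E0

/-- row TY-13 -/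
theorem e0 : E0St := by
  intro V _ _ E fl sd pt At ε hn hε hε1 h
  by_contra hcon
  push Not at hcon
  have hco : ∀ v, v ∉ At → ∀ w, s(v, w) ∈ E → Co fl sd pt v w := by
    intro v hv w hw
    by_contra h1
    exact hv (hcon v w hw h1)
  have hE : NL E := h.x.div.1
  obtain ⟨v1, a1, b1, c1⟩ := e0_typ hn hε1 h true true
  obtain ⟨v2, a2, b2, c2⟩ := e0_typ hn hε1 h true false
  obtain ⟨v3, a3, b3, c3⟩ := e0_typ hn hε1 h false true
  obtain ⟨v4, a4, b4, c4⟩ := e0_typ hn hε1 h false false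
  have d3 := e0_degD hE v3 (hco v3 c3) (by rw [a3]; exact h.flD)
  have d4 := e0_degD hE v4 (hco v4 c4) (by rw [a4]; exact h.flD)
  rw [a3, b3] at d3
  rw [a4, b4] at d4
  have s1 := e0_card_Sd sd pt true
  have s2 := e0_card_Sd sd pt false
  have s3 := e0_card_univ sd
  have g1 := h.x.deg v1
  have g2 := h.x.deg v2
  have g3 := h.x.deg v3
  have g4 := h.x.deg v4
  simp only [Bool.not_false] at d3 d4
  by_cases hfl : fl true = true
  · have d1 := e0_degD hE v1 (hco v1 c1) (by rw [a1]; exact hfl)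
    have d2 := e0_degD hE v2 (hco v2 c2) (by rw [a2]; exact hfl)
    rw [a1, b1] at d1
    rw [a2, b2] at d2
    simp only [Bool.not_true] at d1 d2
    omega
  · have d1 := e0_degP v1 (hco v1 c1) (by rw [a1]; exact hfl)
    have d2 := e0_degP v2 (hco v2 c2) (by rw [a2]; exact hfl)
    rw [a1, b1] at d1
    rw [a2, b2] at d2
    simp only [Bool.not_true, Bool.not_false] at d1 d2
    omega

/-- row TY-14 -/
theorem apex : ApexSt := by
  intro V _ _ E De H fl sd pt At ε' hε0 hε1 hR hDe hH u₀ v₀ he hnc hu₀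
  have hsd : sd u₀ = sd v₀ := by
    by_contra h1
    exact hnc (e0_co_of_ne h1)
  have hint : Int sd s(u₀, v₀) := by
    intro u hu v hv
    rw [Sym2.mem_iff] at hu hv
    rcases hu with rfl | rfl <;> rcases hv with rfl | rfl
    · rfl
    · exact hsd
    · exact hsd.symm
    · rfl
  refine ⟨hint, ?_, ?_⟩
  · intro u v huv hco
    rw [Sym2.eq_iff] at huv
    rcases huv with ⟨rfl, rfl⟩ | ⟨rfl, rfl⟩
    · exact hnc hco
    · exact hnc (e0_co_symm hco)
  · intro u v huv b
    -- cross edges to typical vertices are in `H`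
    have hcr : ∀ x w, sd x ≠ sd w → w ∉ At → s(x, w) ∈ E → s(x, w) ∈ H := by
      intro x w hxw hw hxE
      rw [hH, Finset.mem_filter, Finset.mem_sdiff]
      refine ⟨⟨hxE, fun h1 => hxw (hDe _ h1 x (by simp) w (by simp))⟩, ⟨w, by simp, hw⟩, ?_⟩
      intro p hp r hr hpr
      rw [Sym2.mem_iff] at hp hr
      rcases hp with rfl | rfl <;> rcases hr with rfl | rfl
      · exact absurd rfl hpr
      · exact e0_co_of_ne hxw
      · exact e0_co_of_ne (Ne.symm hxw)
      · exact absurd rfl hpr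
    set W : Finset V := ((NW.nbr E v₀ ∩ Pa sd pt (!sd u₀) b) \ At) \
      ((Sd sd (!sd u₀)).filter (fun w => s(u₀, w) ∉ E)) with hW
    have hsub : W ⊆ (Pa sd pt (!sd u) b \ At).filter (fun w => s(u, w) ∈ H ∧ s(v, w) ∈ H) := by
      intro w hw
      rw [hW, Finset.mem_sdiff, Finset.mem_sdiff, Finset.mem_inter, Finset.mem_filter] at hw
      obtain ⟨⟨⟨h1, h2⟩, h3⟩, h4⟩ := hw
      have h5 : s(v₀, w) ∈ E := NW.mem_nbr.1 h1
      have h6 := e0_mem_Pa.1 h2
      have h7 : s(u₀, w) ∈ E := by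
        by_contra h8
        exact h4 ⟨e0_mem_Sd.2 h6.1, h8⟩
      have h8 : sd u₀ ≠ sd w := by
        rw [h6.1]
        cases sd u₀ <;> simp
      have h9 : sd v₀ ≠ sd w := by rw [← hsd]; exact h8
      have h10 := hcr u₀ w h8 h3 h7
      have h11 := hcr v₀ w h9 h3 h5
      rw [Finset.mem_filter, Finset.mem_sdiff, e0_mem_Pa]
      rw [Sym2.eq_iff] at huv
      rcases huv with ⟨rfl, rfl⟩ | ⟨rfl, rfl⟩
      · exact ⟨⟨h6, h3⟩, h10, h11⟩
      · exact ⟨⟨by rw [← hsd]; exact h6, h3⟩, h11, h10⟩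
    have hcard : ((W.card : ℕ) : ℝ) ≤
        (((Pa sd pt (!sd u) b \ At).filter (fun w => s(u, w) ∈ H ∧ s(v, w) ∈ H)).card : ℝ) := by
      exact_mod_cast Finset.card_le_card hsub
    refine le_trans ?_ hcard
    -- lower bound for `W`
    have k1 : (NW.nbr E v₀ ∩ Pa sd pt (!sd u₀) b).card ≤ W.card + At.card +
        ((Sd sd (!sd u₀)).filter (fun w => s(u₀, w) ∉ E)).card := by
      have h1 := Finset.card_le_card_sdiff_add_card (t := At)
        (s := NW.nbr E v₀ ∩ Pa sd pt (!sd u₀) b)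
      have h2 := Finset.card_le_card_sdiff_add_card
        (t := (Sd sd (!sd u₀)).filter (fun w => s(u₀, w) ∉ E))
        (s := (NW.nbr E v₀ ∩ Pa sd pt (!sd u₀) b) \ At)
      rw [hW]
      omega
    have k2 : dc sd E v₀ ≤ (NW.nbr E v₀ ∩ Pa sd pt (!sd u₀) b).card +
        (Pa sd pt (!sd u₀) (!b)).card := by
      unfold dc
      rw [← hsd]
      have h1 : NW.nbr E v₀ ∩ Sd sd (!sd u₀) ⊆
          (NW.nbr E v₀ ∩ Pa sd pt (!sd u₀) b) ∪ Pa sd pt (!sd u₀) (!b) := by
        intro w hw
        rw [Finset.mem_inter, e0_mem_Sd] at hw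
        rw [Finset.mem_union, Finset.mem_inter, e0_mem_Pa, e0_mem_Pa]
        by_cases h2 : pt w = b
        · exact Or.inl ⟨hw.1, hw.2, h2⟩
        · right
          refine ⟨hw.2, ?_⟩
          revert h2
          cases pt w <;> cases b <;> simp
      exact (Finset.card_le_card h1).trans (Finset.card_union_le _ _)
    have k3 : NW.deg E v₀ ≤ di sd E v₀ + dc sd E v₀ := by
      unfold di dc NW.deg
      have h1 : NW.nbr E v₀ ⊆ (NW.nbr E v₀ ∩ Sd sd (sd v₀)) ∪ (NW.nbr E v₀ ∩ Sd sd (!sd v₀)) := by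
        intro w hw
        rw [Finset.mem_union, Finset.mem_inter, Finset.mem_inter, e0_mem_Sd, e0_mem_Sd]
        by_cases h2 : sd w = sd v₀
        · exact Or.inl ⟨hw, h2⟩
        · right
          refine ⟨hw, ?_⟩
          revert h2
          cases sd w <;> cases sd v₀ <;> simp
      exact (Finset.card_le_card h1).trans (Finset.card_union_le _ _)
    have k4 := hR.x.loc v₀
    have k5 := hR.x.deg v₀
    have k6 := (abs_le.1 (hR.part (!sd u₀) (!b))).2
    have k7 := hR.x.At_card
    have k8 := hR.x.miss u₀ hu₀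
    have k9 : (0 : ℝ) ≤ nn V := by unfold nn; positivity
    have q1 : ((NW.nbr E v₀ ∩ Pa sd pt (!sd u₀) b).card : ℝ) ≤ (W.card : ℝ) + At.card +
        ((Sd sd (!sd u₀)).filter (fun w => s(u₀, w) ∉ E)).card := by exact_mod_cast k1
    have q2 : (dc sd E v₀ : ℝ) ≤ (NW.nbr E v₀ ∩ Pa sd pt (!sd u₀) b).card +
        ((Pa sd pt (!sd u₀) (!b)).card : ℝ) := by exact_mod_cast k2
    have q3 : (NW.deg E v₀ : ℝ) ≤ di sd E v₀ + dc sd E v₀ := by exact_mod_cast k3
    have q4 : (di sd E v₀ : ℝ) ≤ dc sd E v₀ := by exact_mod_cast k4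
    have q5 : 3 * nn V ≤ 4 * (NW.deg E v₀ : ℝ) := by
      unfold nn
      exact_mod_cast k5
    nlinarith

end F3
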