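import Pool.Agent.F3.TY.Stm

/-!
# Project F3, block TY, row TY-2: edges of a dense set with bounded degrees
-/

set_option autoImplicit false
set_option linter.unusedSectionVars false

namespace F3

open Finset NW F1

section FillSec

variable {V : Type} [Fintype V] [DecidableEq V]

/-- the number of a vertex -/
noncomputable def fillNum (v : V) : ℕ := (Fintype.equivFin V v : ℕ)

theorem fillNum_lt (v : V) : fillNum v < Fintype.card V := (Fintype.equivFin V v).2

theorem fillNum_inj {u v : V} (h : fillNum u = fillNum v) : u = v :=
  (Fintype.equivFin V).injective (Fin.ext h)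

/-- the block of an edge -/
noncomputable def fillBlock (q : ℕ) : Sym2 V → ℕ :=
  Sym2.lift ⟨fun a b => (fillNum a + fillNum b) / q, fun a b => by
    show (fillNum a + fillNum b) / q = (fillNum b + fillNum a) / q
    rw [add_comm]⟩

theorem fillBlock_mk (q : ℕ) (a b : V) :
    fillBlock q s(a, b) = (fillNum a + fillNum b) / q := rfl

theorem fillBlock_lt (q : ℕ) (e : Sym2 V) : fillBlock q e < 2 * Fintype.card V / q + 1 := by
  induction e using Sym2.ind with
  | _ a b =>
    rw [fillBlock_mk]
    have h1 := fillNum_lt a
    have h2 := fillNum_lt b
    have h3 : (fillNum a + fillNum b) / q ≤ 2 * Fintype.card V / q :=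
      Nat.div_le_div_right (by omega)
    omega

end FillSec

theorem fill : FillSt := by
  intro V _ _ R N q _ hq hR
  obtain ⟨y, _, hy⟩ := Finset.exists_le_card_fiber_of_mul_le_card_of_maps_to
    (s := R) (t := Finset.range (2 * Fintype.card V / q + 1)) (f := fillBlock q) (n := N)
    (fun e _ => Finset.mem_range.2 (fillBlock_lt q e)) ⟨0, by simp⟩
    (by rw [Finset.card_range, mul_comm]; exact hR)
  obtain ⟨F, hF, hc⟩ := Finset.exists_subset_card_eq hy
  refine ⟨F, hF.trans (Finset.filter_subset _ _), hc, fun v => ?_⟩
  unfold NW.deg
  have key : ∀ u ∈ nbr F v, y * q ≤ fillNum v + fillNum u ∧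
      fillNum v + fillNum u < y * q + q := by
    intro u hu
    have h1 : s(v, u) ∈ F := by simpa using hu
    have h2 := (Finset.mem_filter.1 (hF h1)).2
    rw [fillBlock_mk] at h2
    rw [← h2]
    exact ⟨Nat.div_mul_le_self _ _, by
      have := Nat.lt_div_mul_add (a := fillNum v + fillNum u) hq
      omega⟩
  calc (nbr F v).card ≤ (Finset.range q).card := by
        refine Finset.card_le_card_of_injOn (fun u => fillNum v + fillNum u - y * q) ?_ ?_
        · intro u hu
          have h1 := key u hu
          rw [Finset.mem_coe, Finset.mem_range]
          show fillNum v + fillNum u - y * q < q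
          omega
        · intro u hu w hw huw
          have h1 := key u hu
          have h2 := key w hw
          apply fillNum_inj
          have h3 : fillNum v + fillNum u - y * q = fillNum v + fillNum w - y * q := huw
          omega
    _ = q := Finset.card_range q

end F3
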