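import Pool.Agent.F3.TY.Stm

/-!
# Project F3, row TY-25: the requests fit
-/

set_option autoImplicit false
set_option linter.unusedSectionVars false

namespace F3

open Finset NW F1

section Fit

variable {V : Type} [Fintype V] [DecidableEq V]

/-- the sum over the two other types -/
theorem fit_erase (f : Fin 3 → ℕ) (t : Fin 3) :
    ∑ t' ∈ univ.erase t, f t' = f (t + 1) + f (t + 2) := by
  have h : univ.erase t = {t + 1, t + 2} := by
    revert t
    decide
  rw [h, Finset.sum_pair]
  revert t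
  decide

/-- typical vertices miss few vertices -/
theorem fit_typ {E : Finset (Sym2 V)} {sd pt : V → Bool} {At : Finset V} {ε : ℝ}
    (h : PT E sd pt At ε) (v : V) (hv : v ∉ At) (t : Fin 3)
    (hc : (1 / 4 - ε) * nn V ≤ ((univ.filter (fun w => CT sd pt t v w)).card : ℝ)) :
    (1 / 4 - 2 * ε) * nn V ≤ (NT sd pt E t v : ℝ) := by
  have h1 : univ.filter (fun w => CT sd pt t v w) ⊆ (nbr E v).filter (fun w => CT sd pt t v w) ∪
      univ.filter (fun w => ¬ (sd v = sd w ∧ pt v = pt w) ∧ s(v, w) ∉ E) := by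
    intro w hw
    rw [Finset.mem_filter] at hw
    rw [Finset.mem_union, Finset.mem_filter, Finset.mem_filter, mem_nbr]
    by_cases he : s(v, w) ∈ E
    · exact Or.inl ⟨he, hw.2⟩
    · exact Or.inr ⟨Finset.mem_univ _, hw.2.2, he⟩
  have h2 := (Finset.card_le_card h1).trans (Finset.card_union_le _ _)
  have h3 : ((univ.filter (fun w => CT sd pt t v w)).card : ℝ) ≤ (NT sd pt E t v : ℝ) +
      ((univ.filter (fun w => ¬ (sd v = sd w ∧ pt v = pt w) ∧ s(v, w) ∉ E)).card : ℝ) := by
    unfold NT
    exact_mod_cast h2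
  have h4 := h.miss v hv
  linarith

end Fit

theorem fit (hdeg : Deg4St) : FitSt := by
  intro V _ _ E sd pt At ε hV hε0 hε h
  obtain ⟨d1, d2, d3, d4, d5, -, d7, -, d9⟩ := hdeg V E sd pt At ε h
  have hn : (1000 : ℝ) ≤ nn V := by
    unfold nn
    exact_mod_cast hV
  have hεn : ε * nn V ≤ nn V / 1000 := by
    have := mul_le_mul_of_nonneg_right hε (by linarith : (0 : ℝ) ≤ nn V)
    linarith
  have hεn0 : 0 ≤ ε * nn V := mul_nonneg hε0 (by linarith)
  -- the degrees in real numbers
  have hdi : ∀ v t, (di (cut sd pt t) E v : ℝ) = ex4 sd pt E v + NT sd pt E t v := by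
    intro v t
    rw [d4]
    push_cast
    ring
  have hdc : ∀ v t, (dc (cut sd pt t) E v : ℝ) = NT sd pt E (t + 1) v + NT sd pt E (t + 2) v := by
    intro v t
    rw [d5, fit_erase]
    push_cast
    ring
  have hdeg3 : ∀ v t, (NW.deg E v : ℝ) = ex4 sd pt E v + NT sd pt E t v +
      NT sd pt E (t + 1) v + NT sd pt E (t + 2) v := by
    intro v t
    have h1 : NW.deg E v = ex4 sd pt E v + (NT sd pt E t v + (NT sd pt E (t + 1) v +
        NT sd pt E (t + 2) v)) := by
      rw [d1, ← fit_erase (fun t => NT sd pt E t v) t,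
        Finset.add_sum_erase univ (fun t => NT sd pt E t v) (Finset.mem_univ t)]
    rw [h1]
    push_cast
    ring
  have hd34 : ∀ v, 3 * nn V ≤ 4 * (NW.deg E v : ℝ) := by
    intro v
    unfold nn
    exact_mod_cast h.deg v
  have hloc : ∀ v t, (ex4 sd pt E v : ℝ) ≤ NT sd pt E t v := by
    intro v t
    exact_mod_cast h.loc v t
  -- the requests
  set r : Fin 3 → V → ℝ := fun t v =>
    ((di (cut sd pt t) E v : ℝ) - dc (cut sd pt t) E v + nn V / 100) / 2 with hr
  have hr' : ∀ t v, r t v = ((ex4 sd pt E v : ℝ) + NT sd pt E t v - (NT sd pt E (t + 1) v +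
      NT sd pt E (t + 2) v) + nn V / 100) / 2 := by
    intro t v
    simp only [hr]
    rw [hdi, hdc]
  refine ⟨fun t v => if v ∈ At then ⌈r t v⌉₊ else 0, ?_, ?_, ?_, ?_⟩
  · intro t v
    by_cases hv : v ∈ At
    · simp only [if_pos hv]
      have h1 := Nat.le_ceil (r t v)
      simp only [hr] at h1 ⊢
      linarith
    · simp only [if_neg hv]
      rw [hdi, hdc]
      have h1 := h.exc v hv
      have h2 := d2 v t
      have h3 := fit_typ h v hv (t + 1) (d7 v (t + 1))
      have h4 := fit_typ h v hv (t + 2) (d7 v (t + 2))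
      push_cast
      linarith
  · intro t v hv
    simp only [if_neg hv]
  · intro v hv hne
    simp only [if_pos hv] at hne ⊢
    -- facts for one type
    have hlt : ∀ t, ⌈r t v⌉₊ ≠ 0 → (⌈r t v⌉₊ : ℝ) < r t v + 1 ∧ 0 < r t v := by
      intro t ht
      have h1 : 0 < r t v := Nat.ceil_pos.1 (Nat.pos_of_ne_zero ht)
      exact ⟨Nat.ceil_lt_add_one h1.le, h1⟩
    have hone : ∀ t, ⌈r t v⌉₊ ≠ 0 → (⌈r t v⌉₊ : ℝ) + ε * nn V ≤ ex4 sd pt E v := by
      intro t ht
      obtain ⟨h1, -⟩ := hlt t ht
      have h2 := d2 v t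
      have h3 := hd34 v
      rw [hdeg3 v t] at h3
      have h4 := hr' t v
      linarith
    have htwo : ∀ t t', t ≠ t' → ⌈r t v⌉₊ ≠ 0 → ⌈r t' v⌉₊ ≠ 0 →
        (⌈r t v⌉₊ : ℝ) ≤ nn V / 100 + 1 ∧ (1 / 8 - 2 * ε) * nn V - nn V / 100 ≤ ex4 sd pt E v := by
      intro t t' htt ht ht'
      obtain ⟨h1, h2⟩ := hlt t ht
      obtain ⟨h3, h4⟩ := hlt t' ht'
      have q1 := hr' t v
      have q2 := hr' t' v
      have hcase : ∀ a b : Fin 3, a ≠ b → b = a + 1 ∨ b = a + 2 := by decide
      rcases hcase t t' htt with rfl | rfl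
      · have e1 : t + 1 + 1 = t + 2 := by rw [add_assoc]; rfl
        have e2 : t + 1 + 2 = t := by
          rw [add_assoc, show (1 : Fin 3) + 2 = 0 from rfl, add_zero]
        rw [e1, e2] at q2
        have h5 := hloc v (t + 2)
        have h6 := d3 v (t + 2)
        constructor <;> linarith
      · have e1 : t + 2 + 1 = t := by
          rw [add_assoc, show (2 : Fin 3) + 1 = 0 from rfl, add_zero]
        have e2 : t + 2 + 2 = t + 1 := by rw [add_assoc]; rfl
        rw [e1, e2] at q2
        have h5 := hloc v (t + 1)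
        have h6 := d3 v (t + 1)
        constructor <;> linarith
    rw [Fin.sum_univ_three] at hne ⊢
    push_cast
    by_cases h0 : ⌈r 0 v⌉₊ = 0
    · by_cases h1 : ⌈r 1 v⌉₊ = 0
      · have h2 : ⌈r 2 v⌉₊ ≠ 0 := by omega
        have := hone 2 h2
        rw [h0, h1]
        push_cast
        linarith
      · by_cases h2 : ⌈r 2 v⌉₊ = 0
        · have := hone 1 h1
          rw [h0, h2]
          push_cast
          linarith
        · obtain ⟨a1, a2⟩ := htwo 1 2 (by decide) h1 h2
          obtain ⟨b1, -⟩ := htwo 2 1 (by decide) h2 h1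
          rw [h0]
          push_cast
          linarith
    · by_cases h1 : ⌈r 1 v⌉₊ = 0
      · by_cases h2 : ⌈r 2 v⌉₊ = 0
        · have := hone 0 h0
          rw [h1, h2]
          push_cast
          linarith
        · obtain ⟨a1, a2⟩ := htwo 0 2 (by decide) h0 h2
          obtain ⟨b1, -⟩ := htwo 2 0 (by decide) h2 h0
          rw [h1]
          push_cast
          linarith
      · obtain ⟨a1, a2⟩ := htwo 0 1 (by decide) h0 h1
        obtain ⟨b1, -⟩ := htwo 1 0 (by decide) h1 h0
        by_cases h2 : ⌈r 2 v⌉₊ = 0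
        · rw [h2]
          push_cast
          linarith
        · obtain ⟨c1, -⟩ := htwo 2 1 (by decide) h2 h1
          linarith
  · intro t v hk
    by_cases hv : v ∈ At
    · simp only [if_pos hv] at hk ⊢
      have h1 : 0 < r t v := Nat.ceil_pos.1 (Nat.pos_of_ne_zero hk)
      have h2 := Nat.ceil_lt_add_one h1.le
      have q1 := hr' t v
      have h3 := abs_le.1 (d9 t (!cut sd pt t v))
      have h4 := d2 v t
      have h5 := hloc v (t + 1)
      have h6 := hloc v (t + 2)
      rw [hdc, hdeg3 v t]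
      linarith [h3.1]
    · simp only [if_neg hv] at hk
      exact absurd rfl hk

end F3
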