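import Pool.Agent.F3.TY.Stm

/-!
# Project F3, block TY, row 24: infeasible types
-/

set_option autoImplicit false
set_option linter.unusedSectionVars false

namespace F3

open Finset NW F1

section infeasSec

variable {V : Type} [Fintype V] [DecidableEq V]

theorem infeas_ct {sd pt : V → Bool} {u v : V} (h1 : sd u = sd v) (h2 : pt u = pt v) (t : Fin 3)
    (w : V) : CT sd pt t u w ↔ CT sd pt t v w := by
  unfold CT cut
  rw [h1, h2]

theorem infeas_symm {sd pt : V → Bool} {u v : V} (h1 : sd u = sd v) (h2 : pt u = pt v)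
    (E : Finset (Sym2 V)) (At : Finset V) (t : Fin 3) :
    ct4 sd pt E At t u v = ct4 sd pt E At t v u := by
  unfold ct4
  ext w
  simp only [Finset.mem_filter, infeas_ct h1 h2 t w]
  tauto

/-- inclusion and exclusion -/
theorem infeas_ie {sd pt : V → Bool} {u v : V} (h1 : sd u = sd v) (h2 : pt u = pt v)
    (E : Finset (Sym2 V)) (At : Finset V) (t : Fin 3) :
    NT sd pt E t u + NT sd pt E t v ≤ (univ.filter (fun w => CT sd pt t u w)).card +
      (ct4 sd pt E At t u v).card + At.card := by
  have hv : (nbr E v).filter (fun w => CT sd pt t v w) =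
      (nbr E v).filter (fun w => CT sd pt t u w) :=
    Finset.filter_congr fun w _ => (infeas_ct h1 h2 t w).symm
  unfold NT
  rw [hv, ← Finset.card_union_add_card_inter]
  have h3 : ((nbr E u).filter (fun w => CT sd pt t u w) ∪
      (nbr E v).filter (fun w => CT sd pt t u w)) ⊆ univ.filter (fun w => CT sd pt t u w) := by
    intro w hw
    simp only [Finset.mem_union, Finset.mem_filter] at hw
    simp only [Finset.mem_filter, Finset.mem_univ, true_and]
    rcases hw with h | h
    · exact h.2
    · exact h.2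
  have h4 : ((nbr E u).filter (fun w => CT sd pt t u w) ∩
      (nbr E v).filter (fun w => CT sd pt t u w)) ⊆ ct4 sd pt E At t u v ∪ At := by
    intro w hw
    simp only [Finset.mem_inter, Finset.mem_filter, nbr, Finset.mem_univ, true_and] at hw
    simp only [ct4, Finset.mem_union, Finset.mem_filter, Finset.mem_sdiff, Finset.mem_univ,
      true_and]
    by_cases hA : w ∈ At
    · exact Or.inr hA
    · exact Or.inl ⟨hA, hw.1.2, hw.1.1, hw.2.1⟩
  have h5 := Finset.card_le_card h3
  have h6 := (Finset.card_le_card h4).trans (Finset.card_union_le _ _)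
  omega

theorem infeas_miss {sd pt : V → Bool} {u v : V} (h1 : sd u = sd v) (h2 : pt u = pt v)
    (E : Finset (Sym2 V)) (At : Finset V) (t : Fin 3) :
    NT sd pt E t v ≤ (ct4 sd pt E At t u v).card +
      (univ.filter (fun w => ¬ (sd u = sd w ∧ pt u = pt w) ∧ s(u, w) ∉ E)).card + At.card := by
  have h3 : (nbr E v).filter (fun w => CT sd pt t v w) ⊆ (ct4 sd pt E At t u v ∪
      univ.filter (fun w => ¬ (sd u = sd w ∧ pt u = pt w) ∧ s(u, w) ∉ E)) ∪ At := by
    intro w hw
    simp only [Finset.mem_filter, nbr, Finset.mem_univ, true_and] at hw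
    have h4 := (infeas_ct h1 h2 t w).2 hw.2
    simp only [ct4, Finset.mem_union, Finset.mem_filter, Finset.mem_sdiff, Finset.mem_univ,
      true_and]
    by_cases hA : w ∈ At
    · exact Or.inr hA
    · by_cases hE : s(u, w) ∈ E
      · exact Or.inl (Or.inl ⟨hA, h4, hE, hw.1⟩)
      · exact Or.inl (Or.inr ⟨h4.2, hE⟩)
  have h4 := (Finset.card_le_card h3).trans (Finset.card_union_le _ _)
  have h5 := Finset.card_union_le (ct4 sd pt E At t u v)
    (univ.filter (fun w => ¬ (sd u = sd w ∧ pt u = pt w) ∧ s(u, w) ∉ E))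
  unfold NT
  omega

end infeasSec

theorem infeas_third {s t : Fin 3} (h : s ≠ t) : ∃ r : Fin 3, r ≠ s ∧ r ≠ t ∧
    (∀ f : Fin 3 → ℕ, ∑ x, f x = f s + f t + f r) ∧
    ∀ f : Fin 3 → ℕ, ∑ x ∈ univ.erase s, f x = f t + f r := by
  have hr : ∃ r : Fin 3, r ≠ s ∧ r ≠ t := by
    revert s t
    decide
  obtain ⟨r, hrs, hrt⟩ := hr
  have he : (univ : Finset (Fin 3)).erase s = {t, r} := by
    revert s t r
    decide
  have h1 : ∀ f : Fin 3 → ℕ, ∑ x ∈ univ.erase s, f x = f t + f r := by
    intro f
    rw [he, Finset.sum_pair (Ne.symm hrt)]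
  refine ⟨r, hrs, hrt, fun f => ?_, h1⟩
  rw [← Finset.add_sum_erase Finset.univ f (Finset.mem_univ s), h1 f]
  ring

theorem infeas (hdeg : Deg4St) : InfeasSt := by
  intro V _ _ E sd pt At ε hε0 hε hT u v hsd hpt t hct
  obtain ⟨d1, d2, d3, d4, d5, d6, d7, d8, _⟩ := hdeg V E sd pt At ε hT
  have hn : (0 : ℝ) ≤ nn V := by unfold nn; positivity
  have hεn : ε * nn V ≤ 1 / 1000 * nn V := mul_le_mul_of_nonneg_right hε hn
  have hεn0 : 0 ≤ ε * nn V := mul_nonneg hε0 hn
  have hAt := hT.At_card
  have hct' : ((ct4 sd pt E At t v u).card : ℝ) < nn V / 100 := by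
    rw [← infeas_symm hsd hpt]; exact hct
  have hdegR : ∀ x : V, 3 / 4 * nn V ≤ (NW.deg E x : ℝ) := by
    intro x
    have h1 : (3 : ℝ) * (Fintype.card V : ℝ) ≤ 4 * (NW.deg E x : ℝ) := by
      exact_mod_cast hT.deg x
    unfold nn
    linarith
  -- (1)
  have h1 : (NT sd pt E t u : ℝ) + NT sd pt E t v ≤ 26 / 100 * nn V + 2 * (ε * nn V) := by
    have h := infeas_ie hsd hpt E At t
    have h' : (NT sd pt E t u : ℝ) + NT sd pt E t v ≤
        ((univ.filter (fun w => CT sd pt t u w)).card : ℝ) +
        (ct4 sd pt E At t u v).card + At.card := by exact_mod_cast h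
    have h6 := d6 u t
    linarith
  have h1u : (NT sd pt E t u : ℝ) ≤ 135 / 1000 * nn V + 4 * (ε * nn V) := by
    have := d3 v t
    linarith
  have h1v : (NT sd pt E t v : ℝ) ≤ 135 / 1000 * nn V + 4 * (ε * nn V) := by
    have := d3 u t
    linarith
  -- (3)
  have key : ∀ x : V, (NT sd pt E t x : ℝ) ≤ 135 / 1000 * nn V + 4 * (ε * nn V) →
      ∀ s, s ≠ t → 22 / 100 * nn V ≤ (NT sd pt E s x : ℝ) := by
    intro x hx s hs
    obtain ⟨r, _, _, hr, _⟩ := infeas_third hs
    have e1 := d1 x
    rw [hr] at e1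
    have e2 : (NW.deg E x : ℝ) = ex4 sd pt E x +
        (NT sd pt E s x + NT sd pt E t x + NT sd pt E r x) := by exact_mod_cast e1
    have e3 : (ex4 sd pt E x : ℝ) ≤ NT sd pt E t x := by exact_mod_cast hT.loc x t
    have e4 := d2 x r
    have e5 := hdegR x
    linarith
  refine ⟨?_, ?_, ?_, ?_⟩
  · intro s hs
    have e1 := key u h1u s hs
    have e2 := key v h1v s hs
    have h := infeas_ie hsd hpt E At s
    have h' : (NT sd pt E s u : ℝ) + NT sd pt E s v ≤
        ((univ.filter (fun w => CT sd pt s u w)).card : ℝ) +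
        (ct4 sd pt E At s u v).card + At.card := by exact_mod_cast h
    have h6 := d6 u s
    linarith
  · intro s hs
    obtain ⟨r, _, _, _, hr⟩ := infeas_third hs
    have e1 := d8 u s
    have e2 := d5 u s
    rw [hr] at e1 e2
    have e3 : ((Sd (cut sd pt s) (!cut sd pt s u)).card : ℝ) =
        (univ.filter (fun w => CT sd pt t u w)).card +
          (univ.filter (fun w => CT sd pt r u w)).card := by exact_mod_cast e1
    have e4 : (dc (cut sd pt s) E u : ℝ) = NT sd pt E t u + NT sd pt E r u := by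
      exact_mod_cast e2
    have e5 : (NT sd pt E r u : ℝ) ≤ (univ.filter (fun w => CT sd pt r u w)).card := by
      have : NT sd pt E r u ≤ (univ.filter (fun w => CT sd pt r u w)).card := by
        unfold NT
        refine Finset.card_le_card ?_
        exact Finset.filter_subset_filter _ (Finset.subset_univ _)
      exact_mod_cast this
    have e6 := d7 u t
    linarith
  · by_contra hA
    have h := infeas_miss hsd hpt E At t
    have h' : (NT sd pt E t v : ℝ) ≤ (ct4 sd pt E At t u v).card +
        (univ.filter (fun w => ¬ (sd u = sd w ∧ pt u = pt w) ∧ s(u, w) ∉ E)).card + At.card := by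
      exact_mod_cast h
    have h2 := hT.miss u hA
    have h3 := d3 v t
    linarith
  · by_contra hA
    have h := infeas_miss hsd.symm hpt.symm E At t
    have h' : (NT sd pt E t u : ℝ) ≤ (ct4 sd pt E At t v u).card +
        (univ.filter (fun w => ¬ (sd v = sd w ∧ pt v = pt w) ∧ s(v, w) ∉ E)).card + At.card := by
      exact_mod_cast h
    have h2 := hT.miss v hA
    have h3 := d3 u t
    linarith

end F3
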