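import Pool.Agent.F3.TY.Stm

/-!
# Project F3, block TY, row TY-6: low vertices
-/

set_option autoImplicit false
set_option linter.unusedSectionVars false

namespace F3

open Finset NW F1

section

variable {V : Type} [Fintype V] [DecidableEq V]

theorem low_deg (E : Finset (Sym2 V)) (sd : V → Bool) (v : V) :
    (NW.deg E v : ℝ) = (di sd E v : ℝ) + (dc sd E v : ℝ) := by
  have h1 : nbr E v = (nbr E v ∩ Sd sd (sd v)) ∪ (nbr E v ∩ Sd sd (!sd v)) := by
    ext w
    rw [mem_union, mem_inter, mem_inter, Sd, Sd, mem_filter, mem_filter]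
    constructor
    · intro h
      by_cases hw : sd w = sd v
      · exact Or.inl ⟨h, mem_univ _, hw⟩
      · refine Or.inr ⟨h, mem_univ _, ?_⟩
        cases h1 : sd w <;> cases h2 : sd v <;> simp_all
    · rintro (h | h) <;> exact h.1
  have h2 : Disjoint (nbr E v ∩ Sd sd (sd v)) (nbr E v ∩ Sd sd (!sd v)) := by
    rw [Finset.disjoint_left]
    intro w hw hw'
    rw [mem_inter, Sd, mem_filter] at hw hw'
    have h3 := hw.2.2
    have h4 := hw'.2.2
    rw [h3] at h4
    cases h1 : sd v <;> rw [h1] at h4 <;> simp at h4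
  have h3 : NW.deg E v = di sd E v + dc sd E v := by
    unfold NW.deg di dc
    conv_lhs => rw [h1]
    exact card_union_of_disjoint h2
  rw [h3]
  push_cast
  ring

theorem low_nn (E : Finset (Sym2 V)) {v : V} (h : 3 * Fintype.card V ≤ 4 * NW.deg E v) :
    3 / 4 * nn V ≤ (NW.deg E v : ℝ) := by
  have h1 : (3 : ℝ) * nn V ≤ 4 * (NW.deg E v : ℝ) := by
    unfold nn; exact_mod_cast h
  linarith

theorem low_sdiff (S T : Finset V) : (S.card : ℝ) - (T.card : ℝ) ≤ ((S \ T).card : ℝ) := by
  have h1 : (S.card : ℝ) ≤ ((S \ T).card : ℝ) + (T.card : ℝ) := by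
    have h2 : S.card ≤ (S \ T).card + T.card := by
      have := Finset.le_card_sdiff T S
      omega
    exact_mod_cast h2
  linarith

theorem low_dc (E : Finset (Sym2 V)) (sd : V → Bool) (v : V) :
    (dc sd E v : ℝ) = ((Sd sd (!sd v)).card : ℝ) -
      (((Sd sd (!sd v)).filter (fun w => s(v, w) ∉ E)).card : ℝ) := by
  have h1 := Finset.card_filter_add_card_filter_not (s := Sd sd (!sd v)) (fun w => s(v, w) ∈ E)
  have h2 : (Sd sd (!sd v)).filter (fun w => s(v, w) ∈ E) = nbr E v ∩ Sd sd (!sd v) := by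
    ext w
    rw [mem_filter, mem_inter, mem_nbr]
    exact and_comm
  rw [h2] at h1
  have h3 : (dc sd E v : ℝ) + (((Sd sd (!sd v)).filter (fun w => s(v, w) ∉ E)).card : ℝ) =
      ((Sd sd (!sd v)).card : ℝ) := by
    unfold dc
    exact_mod_cast h1
  linarith

theorem low_inter (A B S : Finset V) (hA : A ⊆ S) (hB : B ⊆ S) :
    (A.card : ℝ) + (B.card : ℝ) - (S.card : ℝ) ≤ ((A ∩ B).card : ℝ) := by
  have h1 := Finset.card_union_add_card_inter A B
  have h2 := card_le_card (union_subset hA hB)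
  have h3 : (A.card : ℝ) + (B.card : ℝ) ≤ (S.card : ℝ) + ((A ∩ B).card : ℝ) := by
    exact_mod_cast (by omega : A.card + B.card ≤ S.card + (A ∩ B).card)
  linarith

end

theorem low : LowSt := by
  intro V _ _ E sd At ε hn hε0 hε h
  have hn' : (200 : ℝ) ≤ nn V := by unfold nn; exact_mod_cast hn
  have hεn : ε * nn V ≤ 1 / 1000 * nn V := mul_le_mul_of_nonneg_right hε (by linarith)
  have hAt := h.At_card
  have hlow : ∀ v ∈ Low E sd, 100 * (dc sd E v : ℝ) < 100 * (di sd E v : ℝ) + nn V := by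
    intro v hv
    have h1 := (mem_filter.1 hv).2
    unfold nn
    exact_mod_cast h1
  have hdi : ∀ v ∈ Low E sd, 37 / 100 * nn V ≤ (di sd E v : ℝ) := by
    intro v hv
    have h1 := hlow v hv
    have h2 := low_nn E (h.deg v)
    rw [low_deg E sd v] at h2
    linarith
  refine ⟨?_, hdi, ?_, ?_⟩
  · intro v hv
    by_contra hvA
    have h1 := hlow v hv
    have h2 := h.intT v hvA
    have h3 := h.miss v hvA
    have h4 := low_dc E sd v
    have h5 := (abs_le.1 (h.side (!sd v))).1
    nlinarith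
  · intro v hv
    have h1 := low_sdiff (nbr E v ∩ Sd sd (sd v)) At
    have h2 := hdi v hv
    unfold di at h2
    linarith
  · intro v hv a ha
    rw [mem_sdiff, mem_inter, Sd, mem_filter] at ha
    have hsd : sd a = sd v := ha.1.2.2
    have h1 := hdi v hv
    have h2 := low_nn E (h.deg a)
    rw [low_deg E sd a] at h2
    have h3 : (dc sd E a : ℝ) ≤ ((Sd sd (!sd a)).card : ℝ) := by
      unfold dc
      exact_mod_cast card_le_card inter_subset_right
    have h4 := (abs_le.1 (h.side (!sd a))).2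
    have h5 := (abs_le.1 (h.side (sd v))).2
    have h6 := low_inter (nbr E v ∩ Sd sd (sd v)) (nbr E a ∩ Sd sd (sd v)) (Sd sd (sd v))
      inter_subset_right inter_subset_right
    have h7 : (nbr E v ∩ Sd sd (sd v)) ∩ (nbr E a ∩ Sd sd (sd v)) =
        (nbr E v ∩ nbr E a) ∩ Sd sd (sd v) := by
      ext w
      simp only [mem_inter]
      tauto
    rw [h7] at h6
    have h8 := low_sdiff ((nbr E v ∩ nbr E a) ∩ Sd sd (sd v)) At
    have h9 : (di sd E a : ℝ) = ((nbr E a ∩ Sd sd (sd v)).card : ℝ) := by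
      unfold di
      rw [hsd]
    unfold di at h1
    rw [h9] at h2
    linarith

end F3
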