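import Pool.Agent.F3.TY.Stm

/-!
# Project F3, block TY: low vertices of world R (row TY-9)
-/

set_option autoImplicit false
set_option linter.unusedSectionVars false

namespace F3

open Finset NW F1

section LowR

variable {V : Type} [Fintype V] [DecidableEq V]

theorem lowR_cpt (fl : Bool → Bool) (sd pt : V → Bool) (v : V) :
    CoP fl sd pt v (sd v) (cpt fl sd pt v) := by
  unfold CoP cpt
  right
  by_cases h : fl (sd v) = true
  · simp [h]
  · simp [h]

theorem lowR_co {fl : Bool → Bool} {sd pt : V → Bool} {v a r : V} (h1 : sd a = sd v)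
    (h2 : pt a = pt v) (h3 : sd r = sd v) (h4 : pt r = cpt fl sd pt v) : Co fl sd pt a r := by
  unfold Co CoP
  right
  rw [h3, h4, h2]
  unfold cpt
  by_cases h : fl (sd v) = true
  · simp [h]
  · simp [h]

/-- the internal degree is the sum over the two parts -/
theorem lowR_di (E : Finset (Sym2 V)) (sd pt : V → Bool) (v : V) (c : Bool) :
    di sd E v = (nbr E v ∩ Pa sd pt (sd v) c).card + (nbr E v ∩ Pa sd pt (sd v) (!c)).card := by
  unfold di
  rw [← Finset.card_union_of_disjoint]
  · congr 1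
    ext w
    simp only [Finset.mem_union, Finset.mem_inter, Sd, Pa, Finset.mem_filter, Finset.mem_univ,
      true_and]
    cases c <;> cases pt w <;> simp
  · rw [Finset.disjoint_left]
    intro w h1 h2
    simp only [Finset.mem_inter, Pa, Finset.mem_filter, Finset.mem_univ, true_and] at h1 h2
    have := h2.2.2
    rw [h1.2.2] at this
    cases c <;> simp at this

/-- removing the atypical vertices -/
theorem lowR_sdiff (S At : Finset V) : (S.card : ℝ) - (At.card : ℝ) ≤ ((S \ At).card : ℝ) := by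
  have h := Finset.le_card_sdiff At S
  have h' : S.card ≤ (S \ At).card + At.card := by omega
  have h'' : (S.card : ℝ) ≤ ((S \ At).card : ℝ) + (At.card : ℝ) := by exact_mod_cast h'
  linarith

/-- row TY-9 -/
theorem lowR : LowRSt := by
  intro V _ _ E fl sd pt At ε hε0 hε hP hL
  have hn : (0 : ℝ) ≤ nn V := by unfold nn; positivity
  have hεn : ε * nn V ≤ 1 / 1000 * nn V := mul_le_mul_of_nonneg_right hε hn
  have hAt := hP.x.At_card
  have key : ∀ v ∈ Low E sd, 184 / 1000 * nn V ≤
      (((nbr E v ∩ Pa sd pt (sd v) (cpt fl sd pt v)) \ At).card : ℝ) := by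
    intro v hv
    have h1 := hL v hv
    have h2 := hP.more v _ (lowR_cpt fl sd pt v)
    have h3 := lowR_di E sd pt v (cpt fl sd pt v)
    have h4 := lowR_sdiff (nbr E v ∩ Pa sd pt (sd v) (cpt fl sd pt v)) At
    have h5 : di sd E v ≤ 2 * (nbr E v ∩ Pa sd pt (sd v) (cpt fl sd pt v)).card := by omega
    have h6 : (di sd E v : ℝ) ≤ 2 * ((nbr E v ∩ Pa sd pt (sd v) (cpt fl sd pt v)).card : ℝ) := by
      exact_mod_cast h5
    linarith
  refine ⟨?_, ?_, ?_⟩
  · intro v hv c
    have h1 := hL v hv
    have h3 := lowR_di E sd pt v c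
    have h4 := lowR_sdiff (nbr E v ∩ Pa sd pt (sd v) c) At
    have h5 : (nbr E v ∩ Pa sd pt (sd v) (!c)).card ≤ (Pa sd pt (sd v) (!c)).card :=
      Finset.card_le_card Finset.inter_subset_right
    have h5' : ((nbr E v ∩ Pa sd pt (sd v) (!c)).card : ℝ) ≤
        ((Pa sd pt (sd v) (!c)).card : ℝ) := by exact_mod_cast h5
    have h6 := (abs_le.1 (hP.part (sd v) (!c))).2
    have h7 : (di sd E v : ℝ) = ((nbr E v ∩ Pa sd pt (sd v) c).card : ℝ) +
        ((nbr E v ∩ Pa sd pt (sd v) (!c)).card : ℝ) := by exact_mod_cast h3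
    linarith
  · intro v hv
    have := key v hv
    linarith
  · intro v hv a ha
    have h1 := key v hv
    rw [Finset.mem_sdiff, Finset.mem_inter] at ha
    obtain ⟨⟨hav, haP⟩, haA⟩ := ha
    simp only [Pa, Finset.mem_filter, Finset.mem_univ, true_and] at haP
    have h2 := hP.core a haA
    have hsub : (nbr E v ∩ Pa sd pt (sd v) (cpt fl sd pt v)) \ At ⊆
        (((nbr E v ∩ nbr E a) ∩ Pa sd pt (sd v) (cpt fl sd pt v)) \ At) ∪
          (univ.filter (fun w => Co fl sd pt a w ∧ s(a, w) ∉ E)) := by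
      intro r hr
      rw [Finset.mem_sdiff, Finset.mem_inter] at hr
      obtain ⟨⟨hr1, hr2⟩, hr3⟩ := hr
      rw [Finset.mem_union]
      by_cases h : s(a, r) ∈ E
      · left
        rw [Finset.mem_sdiff, Finset.mem_inter, Finset.mem_inter]
        exact ⟨⟨⟨hr1, by simpa [nbr] using h⟩, hr2⟩, hr3⟩
      · right
        simp only [Pa, Finset.mem_filter, Finset.mem_univ, true_and] at hr2
        simp only [Finset.mem_filter, Finset.mem_univ, true_and]
        exact ⟨lowR_co haP.1 haP.2 hr2.1 hr2.2, h⟩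
    have h3 := (Finset.card_le_card hsub).trans (Finset.card_union_le _ _)
    have h4 : (((nbr E v ∩ Pa sd pt (sd v) (cpt fl sd pt v)) \ At).card : ℝ) ≤
        ((((nbr E v ∩ nbr E a) ∩ Pa sd pt (sd v) (cpt fl sd pt v)) \ At).card : ℝ) +
          ((univ.filter (fun w => Co fl sd pt a w ∧ s(a, w) ∉ E)).card : ℝ) := by
      exact_mod_cast h3
    linarith

end LowR

end F3
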