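import Pool.Agent.F3.TY.Stm
import Pool.Agent.F3.W.Basic

/-!
# Project F3, block TY, row TY-5: the fields of `WX`
-/

set_option autoImplicit false
set_option linter.unusedSectionVars false

namespace F3

open Finset NW F1

theorem mkwx_swap {V : Type} [Fintype V] [DecidableEq V] {H : Finset (Sym2 V)} {sd : V → Bool}
    {At : Finset V} {p q : V} (h : sd p = sd q) :
    (Sd sd (sd q) \ At).filter (fun r => s(q, r) ∈ H ∧ s(p, r) ∈ H) =
      (Sd sd (sd p) \ At).filter (fun r => s(p, r) ∈ H ∧ s(q, r) ∈ H) := by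
  rw [h]
  ext r
  simp only [Finset.mem_filter]
  tauto

theorem mkWX : MkWXSt := by
  intro V _ _ E De H sd At Cd Rich ε δ θ c hn hε hδ hδε hδ50 hc hX hLow hCh hDe hDeI hCd hRich hH
    hrich hlow hodd
  have hnn : (200 : ℝ) ≤ nn V := by
    unfold nn
    exact_mod_cast hn
  have hn0 : (0 : ℝ) ≤ nn V := by linarith
  have hεn : 0 ≤ ε * nn V := mul_nonneg hε.le hn0
  have hdd : ∀ v, (NW.deg E v : ℝ) = di sd E v + dc sd E v := fun v => by
    exact_mod_cast deg_eq_di_dc sd E v
  have hdeg : ∀ v, 3 / 4 * nn V ≤ (NW.deg E v : ℝ) := fun v => by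
    have h1 : ((3 * Fintype.card V : ℕ) : ℝ) ≤ ((4 * NW.deg E v : ℕ) : ℝ) := by
      exact_mod_cast hX.deg v
    push_cast at h1
    unfold nn
    linarith
  have hdc : ∀ v, (dc sd E v : ℝ) ≤ (1 / 2 + ε) * nn V := fun v => by
    have h1 : (dc sd E v : ℝ) ≤ ((Sd sd (!sd v)).card : ℝ) := by
      unfold dc
      exact_mod_cast Finset.card_le_card Finset.inter_subset_right
    have h2 := (abs_le.1 (hX.side (!sd v))).2
    nlinarith
  have hloc : ∀ v, (di sd E v : ℝ) ≤ dc sd E v := fun v => by exact_mod_cast hX.loc v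
  have hint : ∀ v, (1 / 4 - ε) * nn V ≤ (di sd E v : ℝ) := fun v => by
    have h1 := hdd v
    have h2 := hdeg v
    have h3 := hdc v
    nlinarith
  have hCdn : ∀ p q, p ∈ Low E sd → q ∈ Cd p → q ∉ At := fun p q hp hq hqA =>
    Finset.disjoint_left.1 (hCd p hp) hq hqA
  refine
    { div := hX.div
      deg3 := hX.deg
      loc := hX.loc
      De_sub := hDe
      De_int := hDeI
      De_typ := ?_
      tot := hCh.tot
      H_sub := hH
      side := hX.side
      At_card := hX.At_card
      miss := hX.miss
      intT := ?_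
      De_T := ?_
      De_A := ?_
      int := hint
      cross := ?_
      slack := ?_
      rich := ?_
      richA := ?_
      odd := hodd }
  · intro e he
    induction e using Sym2.ind with
    | _ p q =>
      rcases hCh.mem p q he with ⟨hp, hq⟩ | ⟨hq, hp⟩ | h
      · exact ⟨q, by simp, hCdn p q hp hq⟩
      · exact ⟨p, by simp, hCdn q p hq hp⟩
      · exact ⟨p, by simp, hRich _ h p (by simp)⟩
  · intro v hv
    have h1 := hX.intT v hv
    have h2 := hint v
    rw [abs_le]
    constructor <;> nlinarith
  · intro v hv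
    exact (hCh.T v hv).trans (mul_le_mul_of_nonneg_right hδε hn0)
  · intro v
    by_cases hv : v ∈ At
    · by_cases hl : v ∈ Low E sd
      · have h1 := hCh.hi v hl
        linarith
      · rw [hCh.A0 v hv hl]
        push_cast
        linarith
    · have h1 := hCh.T v hv
      have h2 : δ * nn V ≤ 1 / 50 * nn V := mul_le_mul_of_nonneg_right hδ50 hn0
      linarith
  · intro v
    have h1 := hdd v
    have h2 := hdeg v
    have h3 := hloc v
    nlinarith
  · intro v
    by_cases hl : v ∈ Low E sd
    · have h1 := hCh.lo v hl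
      have h2 := hloc v
      linarith
    · have h1 : 100 * di sd E v + Fintype.card V ≤ 100 * dc sd E v := by
        by_contra hcon
        apply hl
        unfold Low
        rw [Finset.mem_filter]
        exact ⟨Finset.mem_univ _, by omega⟩
      have h2 : (100 : ℝ) * di sd E v + nn V ≤ 100 * dc sd E v := by
        unfold nn
        exact_mod_cast h1
      have h3 : (0 : ℝ) ≤ NW.deg De v := Nat.cast_nonneg _
      linarith
  · intro p q hpq
    have hcn : c * nn V ≤ nn V / 12 := by nlinarith
    rcases hCh.mem p q hpq with ⟨hp, hq⟩ | ⟨hq, hp⟩ | h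
    · exact hcn.trans (hlow p q hp hq hpq)
    · have h1 := hlow q p hq hp (by rw [Sym2.eq_swap]; exact hpq)
      have h2 : sd p = sd q := hDeI _ hpq p (by simp) q (by simp)
      rw [mkwx_swap h2] at h1
      exact hcn.trans h1
    · exact hrich p q h hpq
  · intro p q hpq hpA
    rcases hCh.mem p q hpq with ⟨hp, hq⟩ | ⟨hq, hp⟩ | h
    · exact hlow p q hp hq hpq
    · exact absurd hpA (hCdn q p hq hp)
    · exact absurd hpA (hRich _ h p (by simp))

end F3
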