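import Pool.Agent.F3.TY.Stm

/-!
# Project F3, block TY, row TY-7: rich edges from triangles
-/

set_option autoImplicit false
set_option linter.unusedSectionVars false

namespace F3

open Finset NW F1

section RichG

variable {V : Type} [Fintype V] [DecidableEq V]

/-- triples containing the pair `x y` with third vertex in `Z` -/
theorem richg_third {x y : V} (S : Finset (Tri V)) (Z : Finset V)
    (hS : ∀ T ∈ S, s(x, y) ∈ NW.edg T.1)
    (hZ : ∀ T ∈ S, ∀ z ∈ T.1, z ≠ x → z ≠ y → z ∈ Z) : S.card ≤ Z.card := by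
  have h1 : S.image (fun T => T.1) ⊆ Z.image (fun z : V => ({x, y, z} : Finset V)) := by
    intro A hA
    rw [mem_image] at hA
    obtain ⟨T, hT, rfl⟩ := hA
    obtain ⟨hx, hy, hxy⟩ := NW.mk_mem_edg.1 (hS T hT)
    have h2 : 0 < (T.1 \ {x, y}).card := by
      have h3 := le_card_sdiff ({x, y} : Finset V) T.1
      rw [T.2, card_pair hxy] at h3
      omega
    obtain ⟨z, hz⟩ := card_pos.1 h2
    rw [mem_sdiff, mem_insert, mem_singleton, not_or] at hz
    rw [mem_image]
    refine ⟨z, hZ T hT z hz.1 hz.2.1 hz.2.2, eq_of_subset_of_card_le ?_ ?_⟩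
    · intro w hw
      rw [mem_insert, mem_insert, mem_singleton] at hw
      rcases hw with rfl | rfl | rfl
      · exact hx
      · exact hy
      · exact hz.1
    · rw [T.2, card_insert_of_notMem, card_pair]
      · exact fun h => hz.2.2 h.symm
      · rw [mem_insert, mem_singleton, not_or]
        exact ⟨hxy, fun h => hz.2.1 h.symm⟩
  have h2 := card_le_card h1
  rw [card_image_of_injective _ Subtype.val_injective] at h2
  exact le_trans h2 card_image_le

theorem richg_sym2 : (Fintype.card (Sym2 V) : ℝ) ≤ nn V ^ 2 := by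
  have h : Fintype.card (Sym2 V) ≤ Fintype.card V ^ 2 := by
    rw [Sym2.card, Nat.choose_two_right]
    have h1 : Fintype.card V + 1 - 1 = Fintype.card V := rfl
    rw [h1]
    apply Nat.div_le_of_le_mul
    rcases Nat.eq_zero_or_pos (Fintype.card V) with h0 | h0
    · rw [h0]; simp
    · nlinarith
  unfold nn
  exact_mod_cast h

theorem richg_card3 (T : Tri V) : (NW.edg T.1).card = 3 := by
  obtain ⟨a, b, c, hab, hac, hbc, h⟩ := card_eq_three.1 T.2
  rw [h, NW.edg_triple hab hbc hac, NW.card_tri hab hbc hac]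

end RichG

/-- row TY-7 -/
theorem richG : RichGSt := by
  intro V _ _ E W θ hE hθ hT
  classical
  set 𝒯 := univ.filter (fun T : Tri V => T.1 ⊆ W ∧ NW.edg T.1 ⊆ E) with h𝒯
  have hn : 0 ≤ nn V := by unfold nn; positivity
  -- the count for one edge
  have hall : ∀ e ∈ E, ((𝒯.filter (fun T => e ∈ NW.edg T.1)).card : ℝ) ≤ nn V := by
    intro e he
    induction e with
    | _ x y =>
    have h := richg_third (x := x) (y := y) (𝒯.filter (fun T => s(x, y) ∈ NW.edg T.1)) univ
      (fun T hT => (mem_filter.1 hT).2) (fun T _ z _ _ _ => mem_univ z)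
    rw [card_univ] at h
    unfold nn
    exact_mod_cast h
  have hpoor : ∀ e ∈ E, e ∉ RichE E W θ →
      ((𝒯.filter (fun T => e ∈ NW.edg T.1)).card : ℝ) ≤ θ * nn V := by
    intro e he hr
    by_contra hcon
    push Not at hcon
    have hpos : 0 < (𝒯.filter (fun T => e ∈ NW.edg T.1)).card := by
      have h0 : (0 : ℝ) < ((𝒯.filter (fun T => e ∈ NW.edg T.1)).card : ℝ) :=
        lt_of_le_of_lt (mul_nonneg hθ hn) hcon
      exact_mod_cast h0
    obtain ⟨T₀, hT₀⟩ := card_pos.1 hpos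
    apply hr
    induction e with
    | _ x y =>
    obtain ⟨hT1, hT2⟩ := mem_filter.1 hT₀
    obtain ⟨hx, hy, hxy⟩ := NW.mk_mem_edg.1 hT2
    have hW := ((mem_filter.1 hT1).2).1
    refine mem_filter.2 ⟨he, x, hW hx, y, hW hy, rfl, le_trans hcon.le ?_⟩
    have h := richg_third (x := x) (y := y) (𝒯.filter (fun T => s(x, y) ∈ NW.edg T.1))
      ((nbr E x ∩ nbr E y) ∩ W) (fun T hT => (mem_filter.1 hT).2) (fun T hT z hz hzx hzy => by
        obtain ⟨h1, h2⟩ := mem_filter.1 hT
        obtain ⟨h3, h4, -⟩ := NW.mk_mem_edg.1 h2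
        obtain ⟨h5, h6⟩ := (mem_filter.1 h1).2
        refine mem_inter.2 ⟨mem_inter.2 ⟨?_, ?_⟩, h5 hz⟩
        · exact NW.mem_nbr.2 (h6 (NW.mk_mem_edg.2 ⟨h3, hz, fun h => hzx h.symm⟩))
        · exact NW.mem_nbr.2 (h6 (NW.mk_mem_edg.2 ⟨h4, hz, fun h => hzy h.symm⟩)))
    exact_mod_cast h
  -- double counting
  have hdc : 3 * (𝒯.card : ℝ) = ∑ e ∈ E, ((𝒯.filter (fun T => e ∈ NW.edg T.1)).card : ℝ) := by
    have h1 : ∑ T ∈ 𝒯, (E.filter (fun e => e ∈ NW.edg T.1)).card =
        ∑ e ∈ E, (𝒯.filter (fun T => e ∈ NW.edg T.1)).card := by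
      simp only [card_filter]
      exact sum_comm
    have h2 : ∑ T ∈ 𝒯, (E.filter (fun e => e ∈ NW.edg T.1)).card = 𝒯.card * 3 := by
      rw [← smul_eq_mul, ← sum_const]
      refine sum_congr rfl (fun T hT => ?_)
      have h3 : E.filter (fun e => e ∈ NW.edg T.1) = NW.edg T.1 := by
        ext e
        rw [mem_filter]
        exact ⟨fun h => h.2, fun h => ⟨((mem_filter.1 hT).2).2 h, h⟩⟩
      rw [h3, richg_card3]
    rw [h1] at h2
    have h4 : ((∑ e ∈ E, (𝒯.filter (fun T => e ∈ NW.edg T.1)).card : ℕ) : ℝ) =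
        ((𝒯.card * 3 : ℕ) : ℝ) := by rw [h2]
    push_cast at h4
    linarith
  have hsplit : ∑ e ∈ E, ((𝒯.filter (fun T => e ∈ NW.edg T.1)).card : ℝ) ≤
      ((RichE E W θ).card : ℝ) * nn V + (E.card : ℝ) * (θ * nn V) := by
    have hsub : RichE E W θ ⊆ E := filter_subset _ _
    rw [← sum_sdiff hsub, add_comm]
    refine add_le_add ?_ ?_
    · refine le_trans (sum_le_card_nsmul _ _ (nn V) (fun e he => hall e (hsub he))) ?_
      rw [nsmul_eq_mul]
    · refine le_trans (sum_le_card_nsmul _ _ (θ * nn V) (fun e he =>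
        hpoor e (mem_sdiff.1 he).1 (mem_sdiff.1 he).2)) ?_
      rw [nsmul_eq_mul]
      refine mul_le_mul_of_nonneg_right ?_ (mul_nonneg hθ hn)
      exact_mod_cast card_le_card sdiff_subset
  have hEc : (E.card : ℝ) ≤ nn V ^ 2 := by
    refine le_trans ?_ (richg_sym2 (V := V))
    exact_mod_cast card_le_univ E
  rcases hn.eq_or_lt with h0 | h0
  · rw [← h0]; simp
  · have h1 : (E.card : ℝ) * (θ * nn V) ≤ nn V ^ 2 * (θ * nn V) :=
      mul_le_mul_of_nonneg_right hEc (mul_nonneg hθ hn)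
    have h2 : 3 * (θ * nn V ^ 3) ≤ ((RichE E W θ).card : ℝ) * nn V + nn V ^ 2 * (θ * nn V) := by
      linarith
    have h3 : (2 * θ * nn V ^ 2) * nn V ≤ ((RichE E W θ).card : ℝ) * nn V := by nlinarith
    have h4 := le_of_mul_le_mul_right h3 h0
    have h5 : 0 ≤ θ * nn V ^ 2 := by positivity
    linarith

end F3
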