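import Pool.Agent.F3.TY.Stm

/-!
# Project F3, block TY, rows TY-10 and TY-11: the cliques of world R
-/

set_option autoImplicit false
set_option linter.unusedSectionVars false

namespace F3

open Finset NW F1

section RichR

variable {V : Type} [Fintype V] [DecidableEq V]

theorem richR_nn : (0 : ℝ) ≤ nn V := by unfold nn; positivity

/-- the size of a part without the atypical vertices -/
theorem richR_part {E : Finset (Sym2 V)} {fl : Bool → Bool} {sd pt : V → Bool} {At : Finset V}
    {ε : ℝ} (hε : ε ≤ 1 / 1000) (h : PR E fl sd pt At ε) (b c : Bool) :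
    248 / 1000 * nn V ≤ ((Pa sd pt b c \ At).card : ℝ) := by
  have hn : (0 : ℝ) ≤ nn V := richR_nn
  have h1 := (abs_le.1 (h.part b c)).1
  have h2 := h.x.At_card
  have h3 : (Pa sd pt b c).card ≤ (Pa sd pt b c \ At).card + At.card :=
    card_le_card_sdiff_add_card
  have h4 : ((Pa sd pt b c).card : ℝ) ≤ ((Pa sd pt b c \ At).card : ℝ) + (At.card : ℝ) := by
    exact_mod_cast h3
  have h5 : ε * nn V ≤ 1 / 1000 * nn V := mul_le_mul_of_nonneg_right hε hn
  linarith

/-- non-neighbours of a typical vertex in its part -/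
theorem richR_miss {E : Finset (Sym2 V)} {fl : Bool → Bool} {sd pt : V → Bool} {At : Finset V}
    {ε : ℝ} (hε : ε ≤ 1 / 1000) (h : PR E fl sd pt At ε) {p : V} (hp : p ∉ At)
    (hs : sd p = false) {S : Finset V} (hS : S ⊆ Pa sd pt false (pt p)) :
    ((S.filter (fun q => s(p, q) ∉ E)).card : ℝ) ≤ 1 / 1000 * nn V := by
  have h0 : ((S.filter (fun q => s(p, q) ∉ E)).card : ℝ) ≤ ε * nn V := by
    refine le_trans ?_ (h.core p hp)
    have h1 : S.filter (fun q => s(p, q) ∉ E) ⊆
        univ.filter (fun w => Co fl sd pt p w ∧ s(p, w) ∉ E) := by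
      intro q hq
      rw [mem_filter] at hq ⊢
      have h2 := hS hq.1
      rw [Pa, mem_filter] at h2
      refine ⟨mem_univ _, ?_, hq.2⟩
      right
      rw [h2.2.1, if_pos h.flD, h2.2.2]
    exact_mod_cast card_le_card h1
  exact h0.trans (mul_le_mul_of_nonneg_right hε richR_nn)

theorem richR_filter {S : Finset V} {a : V → Prop} [DecidablePred a] {t : ℝ}
    (h : ((S.filter (fun q => ¬ a q)).card : ℝ) ≤ t) :
    (S.card : ℝ) - t ≤ ((S.filter a).card : ℝ) := by
  have h1 := card_filter_add_card_filter_not (s := S) a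
  have h2 : ((S.filter a).card : ℝ) + ((S.filter (fun q => ¬ a q)).card : ℝ) = (S.card : ℝ) := by
    exact_mod_cast h1
  linarith

theorem richR_filter2 {S : Finset V} {a b : V → Prop} [DecidablePred a] [DecidablePred b]
    {t t' : ℝ} (h : ((S.filter (fun q => ¬ a q)).card : ℝ) ≤ t)
    (h' : ((S.filter (fun q => ¬ b q)).card : ℝ) ≤ t') :
    (S.card : ℝ) - t - t' ≤ ((S.filter (fun q => a q ∧ b q)).card : ℝ) := by
  have h0 : ((S.filter (fun q => ¬ (a q ∧ b q))).card : ℝ) ≤ t + t' := by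
    have h1 : S.filter (fun q => ¬ (a q ∧ b q)) ⊆
        S.filter (fun q => ¬ a q) ∪ S.filter (fun q => ¬ b q) := by
      intro q hq
      rw [mem_union, mem_filter, mem_filter]
      rw [mem_filter, not_and_or] at hq
      rcases hq.2 with h2 | h2
      · exact Or.inl ⟨hq.1, h2⟩
      · exact Or.inr ⟨hq.1, h2⟩
    have h2 := (card_le_card h1).trans (card_union_le _ _)
    have h3 : ((S.filter (fun q => ¬ (a q ∧ b q))).card : ℝ) ≤
        ((S.filter (fun q => ¬ a q)).card : ℝ) + ((S.filter (fun q => ¬ b q)).card : ℝ) := by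
      exact_mod_cast h2
    linarith
  have h1 := richR_filter (a := fun q => a q ∧ b q) h0
  linarith

theorem richR_pairs {P : Finset V} {E : Finset (Sym2 V)} :
    (∑ p ∈ P, (P.filter (fun q => s(p, q) ∈ E)).card) ≤
      2 * (E.filter (fun e => ∀ v ∈ e, v ∈ P)).card := by
  have h1 : ∑ p ∈ P, (P.filter (fun q => s(p, q) ∈ E)).card =
      ((P ×ˢ P).filter (fun x => s(x.1, x.2) ∈ E)).card := by
    rw [card_filter, sum_product]
    exact sum_congr rfl (fun p _ => card_filter _ _)
  rw [h1]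
  apply card_le_mul_card_image_of_maps_to (f := fun x : V × V => s(x.1, x.2))
  · rintro ⟨p, q⟩ hx
    rw [mem_filter, mem_product] at hx
    rw [mem_filter]
    refine ⟨hx.2, ?_⟩
    intro v hv
    rw [Sym2.mem_iff] at hv
    rcases hv with rfl | rfl
    · exact hx.1.1
    · exact hx.1.2
  · intro e _
    induction e using Sym2.ind with
    | _ u v =>
      refine le_trans (card_le_card (t := {(u, v), (v, u)}) ?_) card_le_two
      rintro ⟨p, q⟩ hx
      rw [mem_filter, Sym2.eq_iff] at hx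
      rw [mem_insert, mem_singleton]
      rcases hx.2 with ⟨h2, h3⟩ | ⟨h2, h3⟩
      · left
        simp only at h2 h3
        rw [h2, h3]
      · right
        simp only at h2 h3
        rw [h2, h3]

/-- many closed walks of length five -/
theorem richR_walks {E' : Finset (Sym2 V)} {P W : Finset V} (hPW : P ⊆ W) {y : V} {t : ℝ}
    (hy : ((P.filter (fun q => ¬ s(y, q) ∈ E')).card : ℝ) ≤ t)
    (hP : ∀ p ∈ P, ((P.filter (fun q => ¬ s(p, q) ∈ E')).card : ℝ) ≤ t)
    (ht : 0 ≤ (P.card : ℝ) - t - t) (ht0 : 0 ≤ t) :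
    ((P.card : ℝ) - t) * (((P.card : ℝ) - t) * (((P.card : ℝ) - t) * ((P.card : ℝ) - t - t))) ≤
      ((walks5 E' W y y).card : ℝ) := by
  classical
  set A := (P.card : ℝ) - t with hA
  have hA0 : 0 ≤ A := by linarith
  let X : Finset (Σ _ : V, Σ _ : V, Σ _ : V, V) :=
    (P.filter (fun a => s(y, a) ∈ E')).sigma (fun a =>
      (P.filter (fun b => s(a, b) ∈ E')).sigma (fun b =>
        (P.filter (fun c => s(b, c) ∈ E')).sigma (fun c =>
          P.filter (fun d => s(c, d) ∈ E' ∧ s(y, d) ∈ E'))))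
  have hX : (X.card : ℝ) ≤ ((walks5 E' W y y).card : ℝ) := by
    have h1 : X.card ≤ (walks5 E' W y y).card := by
      apply card_le_card_of_injOn (fun x => (x.1, x.2.1, x.2.2.1, x.2.2.2))
      · rintro ⟨a, b, c, d⟩ hx
        simp only [X, coe_sigma, Set.mem_sigma_iff, mem_coe, mem_sigma, mem_filter] at hx
        simp only [walks5, coe_filter, mem_product, Set.mem_setOf_eq]
        obtain ⟨⟨a1, a2⟩, ⟨b1, b2⟩, ⟨c1, c2⟩, d1, d2, d3⟩ := hx
        refine ⟨⟨hPW a1, hPW b1, hPW c1, hPW d1⟩, a2, b2, c2, d2, ?_⟩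
        rw [Sym2.eq_swap]; exact d3
      · rintro ⟨a, b, c, d⟩ _ ⟨a', b', c', d'⟩ _ hh
        simp only [Prod.mk.injEq] at hh
        obtain ⟨rfl, rfl, rfl, rfl⟩ := hh
        rfl
    exact_mod_cast h1
  refine le_trans ?_ hX
  have e1 : X.card = ∑ a ∈ P.filter (fun a => s(y, a) ∈ E'),
      ∑ b ∈ P.filter (fun b => s(a, b) ∈ E'), ∑ c ∈ P.filter (fun c => s(b, c) ∈ E'),
        (P.filter (fun d => s(c, d) ∈ E' ∧ s(y, d) ∈ E')).card := by
    simp only [X, card_sigma]
  rw [e1]
  push_cast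
  have key : ∀ (S : Finset V) (f : V → ℝ) (B : ℝ), 0 ≤ B → A ≤ (S.card : ℝ) →
      (∀ x ∈ S, B ≤ f x) → A * B ≤ ∑ x ∈ S, f x := by
    intro S f B hB hS hf
    have h2 := card_nsmul_le_sum S f B hf
    rw [nsmul_eq_mul] at h2
    exact le_trans (mul_le_mul_of_nonneg_right hS hB) h2
  apply key _ _ _ (by positivity) (richR_filter hy)
  intro a ha
  rw [mem_filter] at ha
  apply key _ _ _ (by positivity) (richR_filter (hP a ha.1))
  intro b hb
  rw [mem_filter] at hb
  apply key _ _ _ ht (richR_filter (hP b hb.1))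
  intro c hc
  rw [mem_filter] at hc
  exact richR_filter2 (hP c hc.1) hy

end RichR

theorem richR : RichRSt := by
  intro V _ _ E fl sd pt At ε hε0 hε h
  have hn : (0 : ℝ) ≤ nn V := richR_nn
  have hPc := richR_part hε h false true
  have hmem : ∀ p ∈ Pa sd pt false true \ At, p ∉ At ∧ sd p = false ∧ pt p = true := by
    intro p hp
    rw [mem_sdiff, Pa, mem_filter] at hp
    exact ⟨hp.2, hp.1.2.1, hp.1.2.2⟩
  have hmiss : ∀ p ∈ Pa sd pt false true \ At,
      (((Pa sd pt false true \ At).filter (fun q => ¬ s(p, q) ∈ E)).card : ℝ) ≤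
        1 / 1000 * nn V := by
    intro p hp
    obtain ⟨h1, h2, h3⟩ := hmem p hp
    exact richR_miss hε h h1 h2 (by rw [h3]; exact sdiff_subset)
  constructor
  · have h1 := richR_pairs (P := Pa sd pt false true \ At) (E := E)
    have h2 : (∑ p ∈ Pa sd pt false true \ At,
        (((Pa sd pt false true \ At).filter (fun q => s(p, q) ∈ E)).card : ℝ)) ≤
        2 * ((E.filter (fun e => ∀ v ∈ e, v ∈ Pa sd pt false true \ At)).card : ℝ) := by
      exact_mod_cast h1
    have h3 := card_nsmul_le_sum (Pa sd pt false true \ At)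
      (fun p => (((Pa sd pt false true \ At).filter (fun q => s(p, q) ∈ E)).card : ℝ))
      (247 / 1000 * nn V) (fun p hp => by
        have h4 := richR_filter (hmiss p hp)
        linarith)
    rw [nsmul_eq_mul] at h3
    have h5 : 248 / 1000 * nn V * (247 / 1000 * nn V) ≤
        ((Pa sd pt false true \ At).card : ℝ) * (247 / 1000 * nn V) :=
      mul_le_mul_of_nonneg_right hPc (by positivity)
    have h6 : 0 ≤ nn V ^ 2 := by positivity
    nlinarith
  · intro p hp q hq
    have h1 := richR_filter2 (hmiss p hp) (hmiss q hq)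
    have h2 : (Pa sd pt false true \ At).filter (fun r => s(p, r) ∈ E ∧ s(q, r) ∈ E) ⊆
        ((nbr E p ∩ nbr E q) ∩ Pa sd pt false true) \ At := by
      intro r hr
      rw [mem_filter, mem_sdiff] at hr
      rw [mem_sdiff, mem_inter, mem_inter, mem_nbr, mem_nbr]
      exact ⟨⟨⟨hr.2.1, hr.2.2⟩, hr.1.1⟩, hr.1.2⟩
    have h3 : (((Pa sd pt false true \ At).filter
        (fun r => s(p, r) ∈ E ∧ s(q, r) ∈ E)).card : ℝ) ≤
        ((((nbr E p ∩ nbr E q) ∩ Pa sd pt false true) \ At).card : ℝ) := by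
      exact_mod_cast card_le_card h2
    linarith

theorem oddR : OddRSt := by
  intro V _ _ E De fl sd pt At ε δ hε0 hε hδ0 hδ h hDe y hy hsy
  have hn : (0 : ℝ) ≤ nn V := richR_nn
  have hPc := richR_part hε h false (pt y)
  have hmiss : ∀ p : V, p ∉ At → sd p = false → pt p = pt y →
      (((Pa sd pt false (pt y) \ At).filter (fun q => ¬ s(p, q) ∈ E \ De)).card : ℝ) ≤
        2 / 1000 * nn V := by
    intro p h1 h2 h3
    have h4 := richR_miss hε h h1 h2 (S := Pa sd pt false (pt y) \ At)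
      (by rw [h3]; exact sdiff_subset)
    have h5 := hDe p h1
    have h6 : (Pa sd pt false (pt y) \ At).filter (fun q => ¬ s(p, q) ∈ E \ De) ⊆
        (Pa sd pt false (pt y) \ At).filter (fun q => s(p, q) ∉ E) ∪ nbr De p := by
      intro q hq
      rw [mem_filter, mem_sdiff (s := E), not_and_or, not_not] at hq
      rw [mem_union, mem_filter, mem_nbr]
      rcases hq.2 with h7 | h7
      · exact Or.inl ⟨hq.1, h7⟩
      · exact Or.inr h7
    have h7 := (card_le_card h6).trans (card_union_le _ _)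
    have h8 : (((Pa sd pt false (pt y) \ At).filter (fun q => ¬ s(p, q) ∈ E \ De)).card : ℝ) ≤
        (((Pa sd pt false (pt y) \ At).filter (fun q => s(p, q) ∉ E)).card : ℝ) +
          (NW.deg De p : ℝ) := by
      unfold NW.deg
      exact_mod_cast h7
    have h9 : δ * nn V ≤ 1 / 1000 * nn V := mul_le_mul_of_nonneg_right hδ hn
    linarith
  have hPW : Pa sd pt false (pt y) \ At ⊆ Sd sd false \ At := by
    apply sdiff_subset_sdiff _ (le_refl _)
    intro v hv
    rw [Pa, mem_filter] at hv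
    rw [Sd, mem_filter]
    exact ⟨mem_univ _, hv.2.1⟩
  have h1 := richR_walks (E' := E \ De) hPW (y := y) (t := 2 / 1000 * nn V)
    (hmiss y hy hsy rfl) (fun p hp => by
      rw [mem_sdiff, Pa, mem_filter] at hp
      exact hmiss p hp.2 hp.1.2.1 hp.1.2.2) (by linarith) (by positivity)
  refine le_trans ?_ h1
  have h2 : 246 / 1000 * nn V ≤ ((Pa sd pt false (pt y) \ At).card : ℝ) - 2 / 1000 * nn V := by
    linarith
  have h3 : 244 / 1000 * nn V ≤ ((Pa sd pt false (pt y) \ At).card : ℝ) - 2 / 1000 * nn V -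
      2 / 1000 * nn V := by
    linarith
  have h4 : 246 / 1000 * nn V * (246 / 1000 * nn V * (246 / 1000 * nn V *
      (244 / 1000 * nn V))) ≤ (((Pa sd pt false (pt y) \ At).card : ℝ) - 2 / 1000 * nn V) *
      ((((Pa sd pt false (pt y) \ At).card : ℝ) - 2 / 1000 * nn V) *
      ((((Pa sd pt false (pt y) \ At).card : ℝ) - 2 / 1000 * nn V) *
      (((Pa sd pt false (pt y) \ At).card : ℝ) - 2 / 1000 * nn V - 2 / 1000 * nn V))) := by
    have p1 : 0 ≤ 244 / 1000 * nn V := by positivity
    have p2 : 0 ≤ 246 / 1000 * nn V := by positivity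
    have p3 := p2.trans h2
    refine mul_le_mul h2 (mul_le_mul h2 (mul_le_mul h2 h3 p1 p3) (by positivity) p3)
      (by positivity) p3
  refine le_trans ?_ h4
  have h5 : 0 ≤ nn V ^ 4 := by positivity
  nlinarith

end F3
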