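import Pool.Agent.F3.TY.Stm

/-!
# Project F3, block TY, row TY-8: the core edges of world G
-/

set_option autoImplicit false
set_option linter.unusedSectionVars false

namespace F3

open Finset NW F1

section RobG

variable {V : Type} [Fintype V] [DecidableEq V]

private theorem robg_mem_Sd {sd : V → Bool} {b : Bool} {v : V} : v ∈ Sd sd b ↔ sd v = b := by
  simp [Sd]

private theorem robg_nbr {E : Finset (Sym2 V)} {v w : V} : w ∈ nbr E v ↔ s(v, w) ∈ E := by
  simp [nbr]

private theorem robg_deg (sd : V → Bool) (E : Finset (Sym2 V)) (v : V) :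
    NW.deg E v = di sd E v + dc sd E v := by
  unfold NW.deg di dc
  rw [← Finset.card_union_of_disjoint]
  · congr 1
    ext w
    simp only [Finset.mem_union, Finset.mem_inter, robg_mem_Sd]
    cases sd v <;> cases sd w <;> simp
  · rw [Finset.disjoint_left]
    intro w h1 h2
    simp only [Finset.mem_inter, robg_mem_Sd] at h1 h2
    rw [h1.2] at h2
    simp at h2

/-- cross pairs are not designated -/
private theorem robg_cross {De : Finset (Sym2 V)} {sd : V → Bool} (hDe : ∀ e ∈ De, Int sd e)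
    {v w : V} (h : sd w = !sd v) : s(v, w) ∉ De := by
  intro h1
  have h2 := hDe _ h1 v (by simp) w (by simp)
  rw [h] at h2
  cases h3 : sd v <;> rw [h3] at h2 <;> simp at h2

end RobG

/-- row TY-8 -/
theorem robG : RobGSt := by
  intro V _ _ E De sd At Cd Rich ε ε' δ θ hn hε' hδ hε'1 hε hPX hLA hLow hC hDe hg1 hg2
  have hN : (200 : ℝ) ≤ nn V := by
    unfold nn
    exact_mod_cast hn
  have hN0 : (0 : ℝ) ≤ nn V := by linarith
  have hεε : ε' * nn V ≤ ε * nn V := mul_le_mul_of_nonneg_right (by linarith) hN0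
  have hεδ : (2 * (ε' + δ)) * nn V ≤ ε * nn V := mul_le_mul_of_nonneg_right hε hN0
  have hδ0 : 0 ≤ δ * nn V := mul_nonneg hδ hN0
  have hε0 : 0 ≤ ε' * nn V := mul_nonneg hε'.le hN0
  have hε1 : ε' * nn V ≤ 1 / 1000 * nn V := mul_le_mul_of_nonneg_right hε'1 hN0
  set H : Finset (Sym2 V) := (E \ De).filter (fun e => ∃ v ∈ e, v ∉ At) with hH
  have hHmem : ∀ {v w : V}, s(v, w) ∈ E → s(v, w) ∉ De → (v ∉ At ∨ w ∉ At) → s(v, w) ∈ H := by
    intro v w h1 h2 h3
    rw [hH, Finset.mem_filter, Finset.mem_sdiff]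
    refine ⟨⟨h1, h2⟩, ?_⟩
    rcases h3 with h3 | h3
    · exact ⟨v, by simp, h3⟩
    · exact ⟨w, by simp, h3⟩
  have hdegR : ∀ v, 3 / 4 * nn V ≤ (NW.deg E v : ℝ) := by
    intro v
    have h1 := hPX.deg v
    have h2 : (3 : ℝ) * nn V ≤ 4 * (NW.deg E v : ℝ) := by
      unfold nn
      exact_mod_cast h1
    linarith
  have hdd : ∀ v, (NW.deg E v : ℝ) = (di sd E v : ℝ) + (dc sd E v : ℝ) := by
    intro v
    exact_mod_cast robg_deg sd E v
  refine ⟨?_, ?_, ?_, ?_, ?_, ?_, ?_, ?_, ?_⟩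
  · intro e he
    rw [hH, Finset.mem_filter, Finset.mem_sdiff] at he
    exact hPX.div.1 e he.1.1
  · intro b
    have h1 := (abs_le.1 (hPX.side b)).2
    linarith
  · exact hPX.At_card.trans hεε
  · intro u hu v hv h
    rw [hH, Finset.mem_filter] at h
    obtain ⟨w, hw, hwA⟩ := h.2
    rw [Sym2.mem_iff] at hw
    rcases hw with rfl | rfl
    · exact hwA hu
    · exact hwA hv
  · intro v hv
    refine le_trans ?_ ((hPX.miss v hv).trans hεε)
    have h1 : (Sd sd (!sd v)).filter (fun w => s(v, w) ∉ H) ⊆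
        (Sd sd (!sd v)).filter (fun w => s(v, w) ∉ E) := by
      intro w hw
      rw [Finset.mem_filter] at hw ⊢
      refine ⟨hw.1, fun h2 => hw.2 (hHmem h2 (robg_cross hDe (robg_mem_Sd.1 hw.1)) (Or.inl hv))⟩
    exact_mod_cast Finset.card_le_card h1
  · intro v
    have h1 : (nbr E v ∩ Sd sd (!sd v)) ⊆ (nbr H v ∩ Sd sd (!sd v)) ∪ At := by
      intro w hw
      rw [Finset.mem_inter] at hw
      rw [Finset.mem_union, Finset.mem_inter]
      by_cases hwA : w ∈ At
      · exact Or.inr hwA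
      · exact Or.inl ⟨robg_nbr.2 (hHmem (robg_nbr.1 hw.1)
          (robg_cross hDe (robg_mem_Sd.1 hw.2)) (Or.inr hwA)), hw.2⟩
    have h2 : dc sd E v ≤ (nbr H v ∩ Sd sd (!sd v)).card + At.card :=
      (Finset.card_le_card h1).trans (Finset.card_union_le _ _)
    have h3 : (dc sd E v : ℝ) ≤ ((nbr H v ∩ Sd sd (!sd v)).card : ℝ) + (At.card : ℝ) := by
      exact_mod_cast h2
    have h4 : (di sd E v : ℝ) ≤ (dc sd E v : ℝ) := by exact_mod_cast hPX.loc v
    have h5 := hdegR v
    have h6 := hdd v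
    have h7 := hPX.At_card
    linarith
  · intro v
    have h1 : (nbr E v ∩ Sd sd (sd v)) ⊆ ((nbr H v ∩ Sd sd (sd v)) ∪ At) ∪ nbr De v := by
      intro w hw
      rw [Finset.mem_inter] at hw
      rw [Finset.mem_union, Finset.mem_union, Finset.mem_inter]
      by_cases hwD : s(v, w) ∈ De
      · exact Or.inr (robg_nbr.2 hwD)
      by_cases hwA : w ∈ At
      · exact Or.inl (Or.inr hwA)
      · exact Or.inl (Or.inl ⟨robg_nbr.2 (hHmem (robg_nbr.1 hw.1) hwD (Or.inr hwA)), hw.2⟩)
    have h2 : di sd E v ≤ (nbr H v ∩ Sd sd (sd v)).card + At.card + NW.deg De v :=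
      (Finset.card_le_card h1).trans ((Finset.card_union_le _ _).trans
        (Nat.add_le_add_right (Finset.card_union_le _ _) _))
    have h3 : (di sd E v : ℝ) ≤ ((nbr H v ∩ Sd sd (sd v)).card : ℝ) + (At.card : ℝ) +
        (NW.deg De v : ℝ) := by exact_mod_cast h2
    have h4 := hPX.At_card
    by_cases hL : v ∈ Low E sd
    · have h5 := hLow v hL
      have h6 := hC.hi v hL
      linarith
    · have h5 : (NW.deg De v : ℝ) ≤ δ * nn V := by
        by_cases hA : v ∈ At
        · rw [hC.A0 v hA hL]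
          simpa using hδ0
        · exact hC.T v hA
      have h6 : (dc sd E v : ℝ) ≤ ((Sd sd (!sd v)).card : ℝ) := by
        unfold dc
        exact_mod_cast Finset.card_le_card Finset.inter_subset_right
      have h7 := (abs_le.1 (hPX.side (!sd v))).2
      have h8 := hdegR v
      have h9 := hdd v
      linarith
  · intro y z hy hz hy' hz'
    exact hg1 y (Finset.mem_sdiff.2 ⟨robg_mem_Sd.2 hy', hy⟩) z
      (Finset.mem_sdiff.2 ⟨robg_mem_Sd.2 hz', hz⟩)
  · intro y z hy hz hy' hz'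
    exact hg2 y (Finset.mem_sdiff.2 ⟨robg_mem_Sd.2 hy', hy⟩) z
      (Finset.mem_sdiff.2 ⟨robg_mem_Sd.2 hz', hz⟩)

end F3
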