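import Pool.Agent.F3.TY.Stm

/-!
# Project F3, row TY-12: the core edges of world R
-/

set_option autoImplicit false
set_option linter.unusedSectionVars false

namespace F3

open Finset NW F1

section RobRSec

variable {V : Type} [Fintype V] [DecidableEq V]

theorem robr_symm {fl : Bool → Bool} {sd pt : V → Bool} {u v : V} (h : Co fl sd pt u v) :
    Co fl sd pt v u := by
  unfold Co CoP at *
  rcases h with h | h
  · exact Or.inl (Ne.symm h)
  · by_cases hs : sd u = sd v
    · right
      rw [hs]
      by_cases hf : fl (sd v) = true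
      · rw [if_pos hf] at h ⊢
        exact h.symm
      · rw [if_neg hf] at h ⊢
        exact Ne.symm h
    · exact Or.inl (Ne.symm hs)

theorem robr_mem {E De : Finset (Sym2 V)} {fl : Bool → Bool} {sd pt : V → Bool} {At : Finset V}
    {v w : V} (h1 : s(v, w) ∈ E) (h2 : s(v, w) ∉ De) (h3 : v ∉ At ∨ w ∉ At)
    (h4 : Co fl sd pt v w) : s(v, w) ∈ (E \ De).filter (fun e => (∃ v ∈ e, v ∉ At) ∧
      ∀ u ∈ e, ∀ v ∈ e, u ≠ v → Co fl sd pt u v) := by
  rw [mem_filter, mem_sdiff]
  refine ⟨⟨h1, h2⟩, ?_, ?_⟩
  · rcases h3 with h | h
    · exact ⟨v, Sym2.mem_mk_left v w, h⟩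
    · exact ⟨w, Sym2.mem_mk_right v w, h⟩
  · intro a ha b hb hab
    rw [Sym2.mem_iff] at ha hb
    rcases ha with rfl | rfl
    · rcases hb with rfl | rfl
      · exact absurd rfl hab
      · exact h4
    · rcases hb with rfl | rfl
      · exact robr_symm h4
      · exact absurd rfl hab

theorem robr_split (sd pt : V → Bool) (E : Finset (Sym2 V)) (v : V) (b c : Bool) :
    (nbr E v ∩ Sd sd b).card =
      (nbr E v ∩ Pa sd pt b c).card + (nbr E v ∩ Pa sd pt b (!c)).card := by
  rw [← card_union_of_disjoint]
  · congr 1
    ext w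
    simp only [mem_inter, mem_union, Sd, Pa, mem_filter, mem_univ, true_and]
    cases pt w <;> cases c <;> simp
  · rw [disjoint_left]
    intro w h1 h2
    simp only [mem_inter, Pa, mem_filter, mem_univ, true_and] at h1 h2
    have h3 := h1.2.2
    rw [h2.2.2] at h3
    cases c <;> simp at h3

theorem robr_deg (sd : V → Bool) (E : Finset (Sym2 V)) (v : V) :
    NW.deg E v = di sd E v + dc sd E v := by
  unfold NW.deg di dc
  rw [← card_union_of_disjoint]
  · congr 1
    ext w
    simp only [mem_inter, mem_union, Sd, mem_filter, mem_univ, true_and]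
    cases sd w <;> cases sd v <;> simp
  · rw [disjoint_left]
    intro w h1 h2
    simp only [mem_inter, Sd, mem_filter, mem_univ, true_and] at h1 h2
    have h3 := h1.2
    rw [h2.2] at h3
    cases h4 : sd v <;> rw [h4] at h3 <;> simp at h3

end RobRSec

theorem robR : RobRSt := by
  intro V _ _ E De H fl sd pt At Cd Rich ε ε' δ hV hε' hδ hε'1 hε hPR hLow hl hCh hInt hH
  have hn : (200 : ℝ) ≤ nn V := by
    unfold nn
    exact_mod_cast hV
  have hn0 : 0 ≤ nn V := by linarith
  have hεε : ε' ≤ ε := by linarith
  have hnl : NW.NL E := hPR.x.div.1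
  have a1 : ε' * nn V ≤ ε * nn V := mul_le_mul_of_nonneg_right hεε hn0
  have a2 : 2 * (ε' * nn V) + 2 * (δ * nn V) ≤ ε * nn V := by
    have := mul_le_mul_of_nonneg_right hε hn0
    linarith
  have a3 : 0 ≤ ε' * nn V := by positivity
  have a4 : 0 ≤ δ * nn V := by positivity
  have a5 : ε' * nn V ≤ 1 / 1000 * nn V := mul_le_mul_of_nonneg_right hε'1 hn0
  have hPa : ∀ b c, ((Pa sd pt b c).card : ℝ) ≤ (1 / 4 + ε') * nn V ∧
      (1 / 4 - ε') * nn V ≤ ((Pa sd pt b c).card : ℝ) := by
    intro b c
    have h1 := abs_le.1 (hPR.part b c)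
    constructor
    · linarith [h1.2]
    · linarith [h1.1]
  refine ⟨?_, ?_, ?_, ?_, ?_, ?_, ?_⟩
  · intro e he
    rw [hH, mem_filter, mem_sdiff] at he
    exact hnl e he.1.1
  · intro b c
    have := (hPa b c).1
    linarith
  · exact hPR.x.At_card.trans a1
  · intro u hu v hv h
    rw [hH, mem_filter] at h
    obtain ⟨w, hw, hw'⟩ := h.2.1
    rw [Sym2.mem_iff] at hw
    rcases hw with rfl | rfl
    · exact hw' hu
    · exact hw' hv
  · intro u v h
    rw [hH, mem_filter, mem_sdiff] at h
    refine h.2.2 u (Sym2.mem_mk_left u v) v (Sym2.mem_mk_right u v) ?_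
    rintro rfl
    exact hnl _ h.1.1 (Sym2.mk_isDiag_iff.2 rfl)
  · intro v hv
    have h1 : univ.filter (fun w => Co fl sd pt v w ∧ s(v, w) ∉ H) ⊆
        univ.filter (fun w => Co fl sd pt v w ∧ s(v, w) ∉ E) ∪ nbr De v := by
      intro w hw
      rw [mem_filter] at hw
      rw [mem_union, mem_filter, mem_nbr]
      by_cases h2 : s(v, w) ∈ E
      · right
        by_contra h3
        apply hw.2.2
        rw [hH]
        exact robr_mem h2 h3 (Or.inl hv) hw.2.1
      · exact Or.inl ⟨mem_univ _, hw.2.1, h2⟩
    have h2 := card_le_card h1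
    have h3 := card_union_le (univ.filter (fun w => Co fl sd pt v w ∧ s(v, w) ∉ E)) (nbr De v)
    have h4 : ((univ.filter (fun w => Co fl sd pt v w ∧ s(v, w) ∉ H)).card : ℝ) ≤
        ((univ.filter (fun w => Co fl sd pt v w ∧ s(v, w) ∉ E)).card : ℝ) +
          ((nbr De v).card : ℝ) := by exact_mod_cast h2.trans h3
    have h5 := hPR.core v hv
    have h6 : ((nbr De v).card : ℝ) ≤ δ * nn V := hCh.T v hv
    linarith
  · intro v b c hbc
    have hdeg : 3 / 4 * nn V ≤ (di sd E v : ℝ) + (dc sd E v : ℝ) := by
      have h1 := hPR.x.deg v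
      rw [robr_deg sd] at h1
      have h2 : (3 : ℝ) * (Fintype.card V : ℝ) ≤ 4 * ((di sd E v : ℝ) + (dc sd E v : ℝ)) := by
        exact_mod_cast h1
      unfold nn
      linarith
    by_cases hb : sd v = b
    · -- the own side
      subst hb
      have hc : c = cpt fl sd pt v := by
        unfold CoP at hbc
        unfold cpt
        rcases hbc with h | h
        · exact absurd rfl h
        · by_cases hf : fl (sd v) = true
          · rw [if_pos hf] at h ⊢
            exact h.symm
          · rw [if_neg hf] at h ⊢
            revert h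
            cases pt v <;> cases c <;> simp
      have hCo : ∀ w ∈ Pa sd pt (sd v) c, Co fl sd pt v w := by
        intro w hw
        simp only [Pa, mem_filter, mem_univ, true_and] at hw
        unfold Co
        rw [hw.1, hw.2]
        exact hbc
      have hhalf : (1 / 8 - ε' / 2) * nn V ≤ ((nbr E v ∩ Pa sd pt (sd v) c).card : ℝ) := by
        have h1 : (dc sd E v : ℝ) ≤ (1 / 2 + ε') * nn V := by
          have h2 : dc sd E v ≤ (Sd sd (!sd v)).card := card_le_card inter_subset_right
          have h3 := (abs_le.1 (hPR.x.side (!sd v))).2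
          have h4 : (dc sd E v : ℝ) ≤ ((Sd sd (!sd v)).card : ℝ) := by exact_mod_cast h2
          linarith
        have h2 : di sd E v = (nbr E v ∩ Pa sd pt (sd v) c).card +
            (nbr E v ∩ Pa sd pt (sd v) (!c)).card := robr_split sd pt E v (sd v) c
        have h3 := hPR.more v c hbc
        have h4 : (di sd E v : ℝ) ≤ 2 * ((nbr E v ∩ Pa sd pt (sd v) c).card : ℝ) := by
          have : di sd E v ≤ 2 * (nbr E v ∩ Pa sd pt (sd v) c).card := by omega
          exact_mod_cast this
        linarith
      by_cases hv : v ∈ At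
      · by_cases hvL : v ∈ Low E sd
        · have h1 := hl v hvL
          rw [← hc] at h1
          have h2 := hCh.hi v hvL
          have h3 : ((nbr E v ∩ Pa sd pt (sd v) c) \ At) ⊆
              (nbr H v ∩ Pa sd pt (sd v) c) ∪ nbr De v := by
            intro w hw
            rw [mem_sdiff, mem_inter, mem_nbr] at hw
            rw [mem_union, mem_inter, mem_nbr, mem_nbr]
            by_cases h4 : s(v, w) ∈ De
            · exact Or.inr h4
            · left
              refine ⟨?_, hw.1.2⟩
              rw [hH]
              exact robr_mem hw.1.1 h4 (Or.inr hw.2) (hCo w hw.1.2)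
          have h4 := (card_le_card h3).trans (card_union_le _ _)
          have h5 : ((((nbr E v ∩ Pa sd pt (sd v) c) \ At)).card : ℝ) ≤
              ((nbr H v ∩ Pa sd pt (sd v) c).card : ℝ) + ((nbr De v).card : ℝ) := by
            exact_mod_cast h4
          have h6 : ((nbr De v).card : ℝ) ≤ nn V / 100 + 1 := h2
          linarith
        · have h1 : NW.deg De v = 0 := hCh.A0 v hv hvL
          have h2 : ((nbr E v ∩ Pa sd pt (sd v) c)) ⊆
              (nbr H v ∩ Pa sd pt (sd v) c) ∪ At := by
            intro w hw
            rw [mem_inter, mem_nbr] at hw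
            rw [mem_union, mem_inter, mem_nbr]
            by_cases h4 : w ∈ At
            · exact Or.inr h4
            · left
              refine ⟨?_, hw.2⟩
              rw [hH]
              refine robr_mem hw.1 ?_ (Or.inr h4) (hCo w hw.2)
              intro h5
              have h6 : w ∈ nbr De v := mem_nbr.2 h5
              unfold NW.deg at h1
              rw [card_eq_zero] at h1
              rw [h1] at h6
              exact notMem_empty _ h6
          have h4 := (card_le_card h2).trans (card_union_le _ _)
          have h5 : ((nbr E v ∩ Pa sd pt (sd v) c).card : ℝ) ≤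
              ((nbr H v ∩ Pa sd pt (sd v) c).card : ℝ) + (At.card : ℝ) := by
            exact_mod_cast h4
          have h6 := hPR.x.At_card
          linarith
      · have h3 : (nbr E v ∩ Pa sd pt (sd v) c) ⊆
            (nbr H v ∩ Pa sd pt (sd v) c) ∪ nbr De v := by
          intro w hw
          rw [mem_inter, mem_nbr] at hw
          rw [mem_union, mem_inter, mem_nbr, mem_nbr]
          by_cases h4 : s(v, w) ∈ De
          · exact Or.inr h4
          · left
            refine ⟨?_, hw.2⟩
            rw [hH]
            exact robr_mem hw.1 h4 (Or.inl hv) (hCo w hw.2)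
        have h4 := (card_le_card h3).trans (card_union_le _ _)
        have h5 : ((nbr E v ∩ Pa sd pt (sd v) c).card : ℝ) ≤
            ((nbr H v ∩ Pa sd pt (sd v) c).card : ℝ) + ((nbr De v).card : ℝ) := by
          exact_mod_cast h4
        have h6 : ((nbr De v).card : ℝ) ≤ δ * nn V := hCh.T v hv
        linarith
    · -- the other side
      have hb' : b = !sd v := by
        revert hb
        cases sd v <;> cases b <;> simp
      have hCo : ∀ w ∈ Pa sd pt b c, Co fl sd pt v w := by
        intro w hw
        simp only [Pa, mem_filter, mem_univ, true_and] at hw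
        unfold Co CoP
        left
        rw [hw.1]
        exact hb
      have hDe : ∀ w ∈ Pa sd pt b c, s(v, w) ∉ De := by
        intro w hw h
        simp only [Pa, mem_filter, mem_univ, true_and] at hw
        apply hb
        rw [← hw.1]
        exact hInt _ h v (Sym2.mem_mk_left v w) w (Sym2.mem_mk_right v w)
      by_cases hv : v ∈ At
      · have h1 : nbr E v ∩ Pa sd pt b c ⊆ (nbr H v ∩ Pa sd pt b c) ∪ At := by
          intro w hw
          rw [mem_inter, mem_nbr] at hw
          rw [mem_union, mem_inter, mem_nbr]
          by_cases h4 : w ∈ At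
          · exact Or.inr h4
          · left
            refine ⟨?_, hw.2⟩
            rw [hH]
            exact robr_mem hw.1 (hDe w hw.2) (Or.inr h4) (hCo w hw.2)
        have h2 := (card_le_card h1).trans (card_union_le _ _)
        have h3 : ((nbr E v ∩ Pa sd pt b c).card : ℝ) ≤
            ((nbr H v ∩ Pa sd pt b c).card : ℝ) + (At.card : ℝ) := by exact_mod_cast h2
        have h4 : dc sd E v = (nbr E v ∩ Pa sd pt b c).card +
            (nbr E v ∩ Pa sd pt b (!c)).card := by
          unfold dc
          rw [← hb']
          exact robr_split sd pt E v b c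
        have h5 : (nbr E v ∩ Pa sd pt b (!c)).card ≤ (Pa sd pt b (!c)).card :=
          card_le_card inter_subset_right
        have h6 : (dc sd E v : ℝ) ≤ ((nbr E v ∩ Pa sd pt b c).card : ℝ) +
            ((Pa sd pt b (!c)).card : ℝ) := by
          rw [h4]
          exact_mod_cast Nat.add_le_add_left h5 _
        have h7 := (hPa b (!c)).1
        have h8 : (di sd E v : ℝ) ≤ (dc sd E v : ℝ) := by exact_mod_cast hPR.x.loc v
        have h9 := hPR.x.At_card
        linarith
      · have h1 : Pa sd pt b c ⊆ (nbr H v ∩ Pa sd pt b c) ∪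
            univ.filter (fun w => Co fl sd pt v w ∧ s(v, w) ∉ E) := by
          intro w hw
          rw [mem_union, mem_inter, mem_nbr, mem_filter]
          by_cases h4 : s(v, w) ∈ E
          · left
            refine ⟨?_, hw⟩
            rw [hH]
            exact robr_mem h4 (hDe w hw) (Or.inl hv) (hCo w hw)
          · exact Or.inr ⟨mem_univ _, hCo w hw, h4⟩
        have h2 := (card_le_card h1).trans (card_union_le _ _)
        have h3 : ((Pa sd pt b c).card : ℝ) ≤ ((nbr H v ∩ Pa sd pt b c).card : ℝ) +
            ((univ.filter (fun w => Co fl sd pt v w ∧ s(v, w) ∉ E)).card : ℝ) := by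
          exact_mod_cast h2
        have h4 := hPR.core v hv
        have h5 := (hPa b c).2
        linarith

end F3
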