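import Pool.Agent.F3.TY.Stm

/-!
# Project F3, block TY, row TY-3: `k` edges at each low vertex
-/

set_option autoImplicit false
set_option linter.unusedSectionVars false

namespace F3

open Finset NW F1

theorem select : SelectSt := by
  intro V _ _ L At k Cd hL hk hd
  have h1 : ∀ v, ∃ C : Finset V, v ∈ L → C ⊆ Cd v ∧ C.card = k := by
    intro v
    by_cases hv : v ∈ L
    · obtain ⟨C, hC1, hC2⟩ := Finset.exists_subset_card_eq (hk v hv)
      exact ⟨C, fun _ => ⟨hC1, hC2⟩⟩
    · exact ⟨∅, fun h => absurd h hv⟩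
  choose C hC using h1
  have hnA : ∀ v ∈ L, ∀ a ∈ C v, a ∉ At := fun v hv a ha hA =>
    Finset.disjoint_left.1 (hd v hv) ((hC v hv).1 ha) hA
  set F : Finset (Sym2 V) := (L.sigma C).image (fun x => s(x.1, x.2)) with hF
  have hmem : ∀ p q, s(p, q) ∈ F ↔ (p ∈ L ∧ q ∈ C p) ∨ (q ∈ L ∧ p ∈ C q) := by
    intro p q
    rw [hF, Finset.mem_image]
    constructor
    · rintro ⟨⟨v, a⟩, hx, h⟩
      rw [Finset.mem_sigma] at hx
      rw [Sym2.eq_iff] at h
      rcases h with ⟨h2, h3⟩ | ⟨h2, h3⟩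
      · subst h2; subst h3
        exact Or.inl hx
      · subst h2; subst h3
        exact Or.inr hx
    · rintro (h | h)
      · exact ⟨⟨p, q⟩, Finset.mem_sigma.2 h, rfl⟩
      · exact ⟨⟨q, p⟩, Finset.mem_sigma.2 h, Sym2.eq_swap⟩
  have hnbr : ∀ v u, u ∈ nbr F v ↔ (v ∈ L ∧ u ∈ C v) ∨ (u ∈ L ∧ v ∈ C u) := by
    intro v u
    rw [mem_nbr]
    exact hmem v u
  refine ⟨F, ?_, ?_, ?_, ?_, ?_⟩
  · rw [hF, Finset.card_image_of_injOn, Finset.card_sigma,
      Finset.sum_congr rfl fun v hv => (hC v hv).2, Finset.sum_const, smul_eq_mul, mul_comm]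
    rintro ⟨v, a⟩ hx ⟨v', a'⟩ hx' h
    rw [Finset.mem_coe, Finset.mem_sigma] at hx hx'
    simp only [Sym2.eq_iff] at h
    rcases h with ⟨h2, h3⟩ | ⟨h2, h3⟩
    · subst h2; subst h3
      rfl
    · exfalso
      refine hnA v' hx'.1 a' hx'.2 ?_
      rw [← h2]
      exact hL hx.1
  · intro v hv
    have h2 : nbr F v = C v := by
      ext u
      rw [hnbr]
      constructor
      · rintro (h | h)
        · exact h.2
        · exact absurd (hL hv) (hnA u h.1 v h.2)
      · intro h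
        exact Or.inl ⟨hv, h⟩
    unfold NW.deg
    rw [h2]
    exact (hC v hv).2
  · intro v hv
    refine Finset.card_le_card fun u hu => ?_
    rcases (hnbr v u).1 hu with h | h
    · exact absurd h.1 hv
    · exact h.1
  · intro v hA hv
    unfold NW.deg
    rw [Finset.card_eq_zero, Finset.eq_empty_iff_forall_notMem]
    intro u hu
    rcases (hnbr v u).1 hu with h | h
    · exact hv h.1
    · exact hnA u h.1 v h.2 hA
  · intro p q h
    rcases (hmem p q).1 h with h | h
    · exact Or.inl ⟨h.1, (hC p h.1).1 h.2⟩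
    · exact Or.inr ⟨h.1, (hC q h.1).1 h.2⟩

end F3
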