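import Pool.Agent.F3.TY.TG

/-!
# Project F3, block TY: assembly of world R
-/

set_option autoImplicit false
set_option linter.unusedSectionVars false

namespace F3

open Finset NW F1

section

variable {V : Type} [Fintype V] [DecidableEq V]

theorem ty_co_symm {fl : Bool → Bool} {sd pt : V → Bool} {u v : V} (h : Co fl sd pt u v) :
    Co fl sd pt v u := by
  unfold Co CoP at *
  rcases h with h | h
  · exact Or.inl (Ne.symm h)
  · by_cases h1 : sd u = sd v
    · right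
      rw [h1]
      split_ifs at h ⊢ with h2
      · exact h.symm
      · exact Ne.symm h
    · exact Or.inl (Ne.symm h1)

theorem ty_co_cpt {fl : Bool → Bool} {sd pt : V → Bool} {v a r : V} (_ha : sd a = sd v)
    (ha' : pt a = pt v) (hr : r ∈ Pa sd pt (sd v) (cpt fl sd pt v)) : Co fl sd pt a r := by
  have h1 : sd r = sd v ∧ pt r = cpt fl sd pt v := by simpa [Pa] using hr
  unfold Co CoP
  right
  rw [h1.1, h1.2, ha']
  unfold cpt
  split_ifs with h2
  · rfl
  · cases pt v <;> simp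

theorem ty_co_edge {fl : Bool → Bool} {sd pt : V → Bool} {p r : V} (h : Co fl sd pt p r) :
    ∀ u ∈ s(p, r), ∀ v ∈ s(p, r), u ≠ v → Co fl sd pt u v := by
  intro u hu v hv huv
  rcases Sym2.mem_iff.1 hu with rfl | rfl <;> rcases Sym2.mem_iff.1 hv with rfl | rfl
  · exact absurd rfl huv
  · exact h
  · exact ty_co_symm h
  · exact absurd rfl huv

end

theorem tr (hlow : LowSt) (hlowR : LowRSt) (hrich : RichRSt) (hodd : OddRSt) (hch : ChoiceSt)
    (hmk : MkWXSt) (hrob : RobRSt) (he0 : E0St) (hapex : ApexSt) : TRStatement := by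
  intro ε hε
  set δ : ℝ := min (ε / 4) (1 / 1000) with hδdef
  have hδ : 0 < δ := by positivity
  have hδ1 : δ ≤ ε / 4 := min_le_left _ _
  have hδ3 : δ ≤ 1 / 1000 := min_le_right _ _
  obtain ⟨ε₁, hε₁, n₀, hch⟩ := hch δ (1 / 50) hδ (by norm_num)
  set ε' : ℝ := min ε₁ (min (ε / 4) (1 / 1000)) with hε'def
  have hε' : 0 < ε' := by positivity
  have hε'1 : ε' ≤ ε₁ := min_le_left _ _
  have hε'2 : ε' ≤ ε / 4 := (min_le_right _ _).trans (min_le_left _ _)
  have hε'3 : ε' ≤ 1 / 1000 := (min_le_right _ _).trans (min_le_right _ _)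
  refine ⟨ε', hε', max n₀ 200, fun V _ _ E fl sd pt At hn hR => ?_⟩
  have hn1 : n₀ ≤ Fintype.card V := (le_max_left _ _).trans hn
  have hn2 : 200 ≤ Fintype.card V := (le_max_right _ _).trans hn
  have hnn : (200 : ℝ) ≤ nn V := by unfold nn; exact_mod_cast hn2
  have hn0 : (0 : ℝ) ≤ nn V := by linarith
  obtain ⟨hlA, hlD, _, _⟩ := hlow V E sd At ε' hn2 hε'.le hε'3 hR.x
  obtain ⟨hr1, hr2, hr3⟩ := hlowR V E fl sd pt At ε' hε'.le hε'3 hR hlD
  obtain ⟨hc1, hc2⟩ := hrich V E fl sd pt At ε' hε'.le hε'3 hR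
  obtain ⟨u₀, v₀, he₀E, he₀C, he₀A⟩ := he0 V E fl sd pt At ε' (by omega) hε'.le hε'3 hR
  set P : Finset V := Pa sd pt false true \ At with hP
  have hPmem : ∀ y, y ∈ P ↔ (sd y = false ∧ pt y = true) ∧ y ∉ At := fun y => by simp [hP, Pa]
  set Rich : Finset (Sym2 V) := E.filter (fun e => ∀ v ∈ e, v ∈ P) with hRich
  have hRE : Rich ⊆ E := Finset.filter_subset _ _
  have hRmem : ∀ p q, s(p, q) ∈ Rich → p ∈ P ∧ q ∈ P := fun p q hpq =>
    ⟨(Finset.mem_filter.1 hpq).2 p (Sym2.mem_mk_left _ _),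
      (Finset.mem_filter.1 hpq).2 q (Sym2.mem_mk_right _ _)⟩
  have hRtyp : ∀ e ∈ Rich, ∀ v ∈ e, v ∉ At := fun e he v hv =>
    ((hPmem v).1 ((Finset.mem_filter.1 he).2 v hv)).2
  set Cd : V → Finset V := fun v => ((nbr E v ∩ Pa sd pt (sd v) (pt v)) \ At).filter
    (fun a => s(v, a) ≠ s(u₀, v₀)) with hCdef
  have hCmem : ∀ v a, a ∈ Cd v ↔ ((s(v, a) ∈ E ∧ sd a = sd v ∧ pt a = pt v) ∧ a ∉ At) ∧
      s(v, a) ≠ s(u₀, v₀) := by
    intro v a
    simp only [hCdef, Finset.mem_filter, Finset.mem_sdiff, Finset.mem_inter, NW.mem_nbr, Pa,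
      Finset.mem_univ, true_and]
  have hCd : ∀ v ∈ Low E sd, Disjoint (Cd v) At := fun v _ =>
    Finset.disjoint_left.2 (fun a ha => ((hCmem v a).1 ha).1.2)
  have hCcard : ∀ v ∈ Low E sd, nn V / 50 ≤ ((Cd v).card : ℝ) := by
    intro v hv
    have h1 : ((nbr E v ∩ Pa sd pt (sd v) (pt v)) \ At) ⊆ Cd v ∪
        ((nbr E v ∩ Pa sd pt (sd v) (pt v)) \ At).filter (fun a => s(v, a) = s(u₀, v₀)) := by
      intro a ha
      rw [Finset.mem_union, Finset.mem_filter, Finset.mem_filter]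
      by_cases h : s(v, a) = s(u₀, v₀)
      · exact Or.inr ⟨ha, h⟩
      · exact Or.inl ⟨ha, h⟩
    have h2 : (((nbr E v ∩ Pa sd pt (sd v) (pt v)) \ At).filter
        (fun a => s(v, a) = s(u₀, v₀))).card ≤ 1 := by
      rw [Finset.card_le_one]
      intro a ha b hb
      have h3 := (Finset.mem_filter.1 ha).2.trans (Finset.mem_filter.1 hb).2.symm
      rcases Sym2.eq_iff.1 h3 with ⟨_, h⟩ | ⟨h, h'⟩
      · exact h
      · rw [h', ← h]
    have h3 : (((nbr E v ∩ Pa sd pt (sd v) (pt v)) \ At).card : ℝ) ≤ ((Cd v).card : ℝ) + 1 := by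
      exact_mod_cast (Finset.card_le_card h1).trans ((Finset.card_union_le _ _).trans
        (Nat.add_le_add_left h2 _))
    have h4 := hr1 v hv (pt v)
    linarith
  obtain ⟨De, hDe⟩ := hch V E sd At Cd Rich hn1 (hR.x.mono hε'1) hCcard hCd
    (hR.x.div.1.mono hRE) hRtyp (by linarith)
  have hDmem : ∀ p q, s(p, q) ∈ De → s(p, q) ∈ E ∧ sd p = sd q ∧ s(p, q) ≠ s(u₀, v₀) := by
    intro p q hpq
    rcases hDe.mem p q hpq with ⟨_, h2⟩ | ⟨_, h2⟩ | h
    · rw [hCmem] at h2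
      exact ⟨h2.1.1.1, h2.1.1.2.1.symm, h2.2⟩
    · rw [hCmem] at h2
      rw [Sym2.eq_swap]
      exact ⟨h2.1.1.1, h2.1.1.2.1, h2.2⟩
    · obtain ⟨hp, hq⟩ := hRmem p q h
      rw [hPmem] at hp hq
      refine ⟨hRE h, by rw [hp.1.1, hq.1.1], ?_⟩
      intro he
      apply he₀C
      have h1 : Co fl sd pt p q := by
        unfold Co CoP
        right
        rw [hq.1.1, if_pos hR.flD, hp.1.2, hq.1.2]
      rcases Sym2.eq_iff.1 he with ⟨rfl, rfl⟩ | ⟨rfl, rfl⟩
      · exact h1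
      · exact ty_co_symm h1
  have hDE : De ⊆ E := by
    intro e
    induction e using Sym2.ind with
    | _ p q => exact fun he => (hDmem p q he).1
  have hDI : ∀ e ∈ De, Int sd e := by
    intro e
    induction e using Sym2.ind with
    | _ p q =>
      intro he u hu v hv
      have h := (hDmem p q he).2.1
      rcases Sym2.mem_iff.1 hu with rfl | rfl <;> rcases Sym2.mem_iff.1 hv with rfl | rfl
      · rfl
      · exact h
      · exact h.symm
      · rfl
  have he₀D : s(u₀, v₀) ∉ De := fun h => (hDmem u₀ v₀ h).2.2 rfl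
  set H : Finset (Sym2 V) := (E \ De).filter (fun e => (∃ v ∈ e, v ∉ At) ∧
    ∀ u ∈ e, ∀ v ∈ e, u ≠ v → Co fl sd pt u v) with hH
  have hHs : H ⊆ E \ De := Finset.filter_subset _ _
  have hHmem : ∀ p r, r ∉ At → Co fl sd pt p r → s(p, r) ∈ E \ De → s(p, r) ∈ H :=
    fun p r hr hc h => Finset.mem_filter.2 ⟨h, ⟨r, Sym2.mem_mk_right _ _, hr⟩, ty_co_edge hc⟩
  obtain ⟨ha1, ha2, ha3⟩ := hapex V E De H fl sd pt At ε' hε'.le hε'3 hR hDI hH u₀ v₀ he₀E he₀C
    he₀A
  -- the fields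
  have hx : WX E De H sd At ε (1 / 1000) (1 / 100) := by
    refine hmk V E De H sd At Cd Rich ε δ (1 / 1000) (1 / 100) hn2 hε hδ.le (by linarith)
      (by linarith) (by norm_num) (hR.x.mono (by linarith)) hlA hDe hDE hDI hCd hRtyp hHs ?_ ?_ ?_
    · intro p q hpq hD
      obtain ⟨hp, hq⟩ := hRmem p q hpq
      have hc := hc2 p hp q hq
      have hp' := (hPmem p).1 hp
      have hq' := (hPmem q).1 hq
      have h1 := ty_cnt E De P p q
      have h2 : (P.filter (fun r => s(p, r) ∈ E \ De ∧ s(q, r) ∈ E \ De)) ⊆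
          ((Sd sd (sd p) \ At).filter (fun r => s(p, r) ∈ H ∧ s(q, r) ∈ H)) := by
        intro r hr
        rw [Finset.mem_filter, hPmem] at hr
        have hcr : ∀ w, sd w = false ∧ pt w = true → Co fl sd pt w r := by
          intro w hw
          unfold Co CoP
          right
          rw [hr.1.1.1, if_pos hR.flD, hw.2, hr.1.1.2]
        rw [Finset.mem_filter, Finset.mem_sdiff]
        refine ⟨⟨?_, hr.1.2⟩, hHmem p r hr.1.2 (hcr p hp'.1) hr.2.1,
          hHmem q r hr.1.2 (hcr q hq'.1) hr.2.2⟩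
        simp [Sd, hr.1.1.1, hp'.1.1]
      have h2' := Finset.card_le_card h2
      have h3 := hDe.T p hp'.2
      have h4 := hDe.T q hq'.2
      have h1' : (((nbr E p ∩ nbr E q) ∩ P).card : ℝ) ≤
          (((Sd sd (sd p) \ At).filter (fun r => s(p, r) ∈ H ∧ s(q, r) ∈ H)).card : ℝ) +
            ((NW.deg De p : ℝ) + NW.deg De q) := by
        exact_mod_cast h1.trans (Nat.add_le_add_right h2' _)
      have h5 : ((nbr E p ∩ nbr E q) ∩ Pa sd pt false true) \ At =
          (nbr E p ∩ nbr E q) ∩ P := by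
        rw [Finset.inter_sdiff_assoc]
      rw [h5] at hc
      have h6 : δ * nn V ≤ 1 / 1000 * nn V := mul_le_mul_of_nonneg_right hδ3 hn0
      linarith
    · intro p q hp hq hD
      have hq' := (hCmem p q).1 hq
      have hqA : q ∉ At := hq'.1.2
      have h0 := hr3 p hp q (by
        rw [Finset.mem_sdiff, Finset.mem_inter, NW.mem_nbr]
        refine ⟨⟨hq'.1.1.1, ?_⟩, hqA⟩
        simp [Pa, hq'.1.1.2.1, hq'.1.1.2.2])
      have h1 := ty_cnt E De (Pa sd pt (sd p) (cpt fl sd pt p) \ At) p q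
      have h2 : ((Pa sd pt (sd p) (cpt fl sd pt p) \ At).filter
          (fun r => s(p, r) ∈ E \ De ∧ s(q, r) ∈ E \ De)) ⊆
          ((Sd sd (sd p) \ At).filter (fun r => s(p, r) ∈ H ∧ s(q, r) ∈ H)) := by
        intro r hr
        rw [Finset.mem_filter, Finset.mem_sdiff] at hr
        rw [Finset.mem_filter, Finset.mem_sdiff]
        refine ⟨⟨?_, hr.1.2⟩, hHmem p r hr.1.2 (ty_co_cpt rfl rfl hr.1.1) hr.2.1,
          hHmem q r hr.1.2 (ty_co_cpt hq'.1.1.2.1 hq'.1.1.2.2 hr.1.1) hr.2.2⟩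
        have h7 : sd r = sd p ∧ pt r = cpt fl sd pt p := by simpa [Pa] using hr.1.1
        simp [Sd, h7.1]
      have h2' := Finset.card_le_card h2
      have h3 := hDe.hi p hp
      have h4 := hDe.T q hqA
      have h1' : (((nbr E p ∩ nbr E q) ∩ (Pa sd pt (sd p) (cpt fl sd pt p) \ At)).card : ℝ) ≤
          (((Sd sd (sd p) \ At).filter (fun r => s(p, r) ∈ H ∧ s(q, r) ∈ H)).card : ℝ) +
            ((NW.deg De p : ℝ) + NW.deg De q) := by
        exact_mod_cast h1.trans (Nat.add_le_add_right h2' _)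
      have h5 : ((nbr E p ∩ nbr E q) ∩ Pa sd pt (sd p) (cpt fl sd pt p)) \ At =
          (nbr E p ∩ nbr E q) ∩ (Pa sd pt (sd p) (cpt fl sd pt p) \ At) := by
        rw [Finset.inter_sdiff_assoc]
      rw [h5] at h0
      have h6 : δ * nn V ≤ 1 / 1000 * nn V := mul_le_mul_of_nonneg_right hδ3 hn0
      linarith
    · exact hodd V E De fl sd pt At ε' δ hε'.le hε'3 hδ.le hδ3 hR hDe.T
  refine ⟨De, H, s(u₀, v₀), hx, hR.flD, hH, ?_, hR.more, ?_, ⟨u₀, Sym2.mem_mk_left _ _, he₀A⟩,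
    ⟨ha1, ha2⟩, ha3⟩
  · exact hrob V E De H fl sd pt At Cd Rich ε ε' δ hn2 hε' hδ.le hε'3 (by linarith) hR hlA hr2
      hDe hDI hH
  · exact Finset.mem_sdiff.2 ⟨he₀E, he₀D⟩

end F3
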