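import Pool.Agent.F3.TY.Stm

/-!
# Project F3, block TY: assembly of world T
-/

set_option autoImplicit false
set_option linter.unusedSectionVars false

namespace F3

open Finset NW F1

section

variable {V : Type} [Fintype V] [DecidableEq V]

theorem tt_ex4_eq (sd pt : V → Bool) (ty : Sym2 V → Fin 3) (E : Finset (Sym2 V)) (v : V) :
    ex4 sd pt E v = ∑ t, mT sd pt ty E t v := by
  unfold ex4 mT
  rw [Finset.card_eq_sum_card_fiberwise (f := fun w => ty s(v, w)) (t := Finset.univ)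
    (fun _ _ => Finset.mem_coe.2 (Finset.mem_univ _))]
  refine Finset.sum_congr rfl fun t _ => ?_
  rw [Finset.filter_filter]

theorem tt_sum (sd pt : V → Bool) (ty : Sym2 V → Fin 3) (E : Finset (Sym2 V)) (v : V)
    (t : Fin 3) : ∑ t' ∈ univ.erase t, ((NT sd pt E t' v : ℝ) - mT sd pt ty E t' v) =
      ((∑ t' ∈ univ.erase t, NT sd pt E t' v : ℕ) : ℝ) - (ex4 sd pt E v : ℝ) +
        mT sd pt ty E t v := by
  rw [tt_ex4_eq sd pt ty E v, Finset.sum_sub_distrib,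
    ← Finset.add_sum_erase Finset.univ (fun t => mT sd pt ty E t v) (Finset.mem_univ t)]
  push_cast
  ring

theorem tt_exc {sd pt : V → Bool} {u w : V} : Exc sd pt s(u, w) ↔ (sd u = sd w ∧ pt u = pt w) := by
  unfold Exc
  constructor
  · exact fun h => h u (Sym2.mem_mk_left _ _) w (Sym2.mem_mk_right _ _)
  · intro h a ha b hb
    rcases Sym2.mem_iff.1 ha with rfl | rfl <;> rcases Sym2.mem_iff.1 hb with rfl | rfl
    · exact ⟨rfl, rfl⟩
    · exact h
    · exact ⟨h.1.symm, h.2.symm⟩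
    · exact ⟨rfl, rfl⟩

end

theorem tt (hdeg : Deg4St) (htot : Tot4St) (htyp : TypingSt) (hrob : RobTSt)
    (hfeas : FeasCSt) : TTStatement := by
  intro ε hε
  set ε' : ℝ := min (ε / 3) (1 / 1000) with hε'def
  have hε' : 0 < ε' := by positivity
  have hε'2 : ε' ≤ ε / 3 := min_le_left _ _
  have hε'3 : ε' ≤ 1 / 1000 := min_le_right _ _
  refine ⟨ε', hε', 1000, fun V _ _ E sd pt At hn hT => ?_⟩
  have hnn : (1000 : ℝ) ≤ nn V := by unfold nn; exact_mod_cast hn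
  have hn0 : (0 : ℝ) ≤ nn V := by linarith
  obtain ⟨_, _, hd3, hd4, hd5, _⟩ := hdeg V E sd pt At ε' hT
  obtain ⟨ty, ht1, ht2, ht3⟩ := htyp V E sd pt At ε' hn hε'.le hε'3 hT
  have hm := hT.mono (show ε' ≤ ε by linarith)
  set H : Finset (Sym2 V) := E.filter (fun e => (∃ v ∈ e, v ∉ At) ∧ ¬ Exc sd pt e) with hH
  have hHmem : ∀ u w, w ∉ At → ¬ (sd u = sd w ∧ pt u = pt w) → s(u, w) ∈ E → s(u, w) ∈ H :=
    fun u w hw hp he => Finset.mem_filter.2 ⟨he, ⟨w, Sym2.mem_mk_right _ _, hw⟩,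
      fun h => hp (tt_exc.1 h)⟩
  refine ⟨H, ty, ?_⟩
  refine ⟨hT.div, hT.deg, hT.loc, ?_, hm.part, hm.At_card, hm.miss, hm.exc, ?_, hH, ?_, ?_, ?_, ?_⟩
  · intro t
    rw [(htot V E sd pt).2 ty t, ht1 t]
    ring
  · intro v t
    have h1 := hd3 v t
    have h2 : ε' * nn V ≤ ε / 3 * nn V := mul_le_mul_of_nonneg_right hε'2 hn0
    nlinarith
  · exact hrob V E H sd pt At ε ε' hε'.le (by linarith) hT hH
  · intro v t
    have h1 := ht2 t v
    rw [tt_sum, ← hd5 v t]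
    have h2 : (di (cut sd pt t) E v : ℝ) = ex4 sd pt E v + NT sd pt E t v := by
      exact_mod_cast hd4 v t
    rw [h2] at h1
    linarith
  · intro u v huv hp
    have h1 := ht3 u v huv hp.1 hp.2
    have h2 : ct4 sd pt E At (ty s(u, v)) u v ⊆ (univ \ At).filter
        (fun w => CT sd pt (ty s(u, v)) u w ∧ s(u, w) ∈ H ∧ s(v, w) ∈ H) := by
      intro w hw
      unfold ct4 at hw
      rw [Finset.mem_filter, Finset.mem_sdiff] at hw
      rw [Finset.mem_filter, Finset.mem_sdiff]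
      have h3 := hw.2.1.2
      refine ⟨hw.1, hw.2.1, hHmem u w hw.1.2 h3 hw.2.2.1, hHmem v w hw.1.2 ?_ hw.2.2.2⟩
      rw [← hp.1, ← hp.2]
      exact h3
    have h4 : ((ct4 sd pt E At (ty s(u, v)) u v).card : ℝ) ≤ (((univ \ At).filter
        (fun w => CT sd pt (ty s(u, v)) u w ∧ s(u, w) ∈ H ∧ s(v, w) ∈ H)).card : ℝ) := by
      exact_mod_cast Finset.card_le_card h2
    linarith
  · intro u v _ hp
    have h1 := hfeas V E sd pt At ε' hε'.le hε'3 hT u v hp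
    have h2 : ((univ \ At).filter (fun w => ¬ (sd u = sd w ∧ pt u = pt w) ∧
        ¬ (sd v = sd w ∧ pt v = pt w) ∧ s(u, w) ∈ E ∧ s(v, w) ∈ E)) ⊆ (univ \ At).filter
        (fun w => ¬ (sd u = sd w ∧ pt u = pt w) ∧ ¬ (sd v = sd w ∧ pt v = pt w) ∧
          s(u, w) ∈ H ∧ s(v, w) ∈ H) := by
      intro w hw
      rw [Finset.mem_filter, Finset.mem_sdiff] at hw
      rw [Finset.mem_filter, Finset.mem_sdiff]
      exact ⟨hw.1, hw.2.1, hw.2.2.1, hHmem u w hw.1.2 hw.2.1 hw.2.2.2.1,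
        hHmem v w hw.1.2 hw.2.2.1 hw.2.2.2.2⟩
    have h4 : (((univ \ At).filter (fun w => ¬ (sd u = sd w ∧ pt u = pt w) ∧
        ¬ (sd v = sd w ∧ pt v = pt w) ∧ s(u, w) ∈ E ∧ s(v, w) ∈ E)).card : ℝ) ≤
        (((univ \ At).filter
        (fun w => ¬ (sd u = sd w ∧ pt u = pt w) ∧ ¬ (sd v = sd w ∧ pt v = pt w) ∧
          s(u, w) ∈ H ∧ s(v, w) ∈ H)).card : ℝ) := by
      exact_mod_cast Finset.card_le_card h2
    linarith

end F3
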