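import Pool.Agent.F3.TY.Stm

/-!
# Project F3, row TY-21: totals of world T
-/

set_option autoImplicit false
set_option linter.unusedSectionVars false

namespace F3

open Finset NW F1

theorem tot4_int {V : Type} (χ : V → Bool) (u v : V) : Int χ s(u, v) ↔ χ u = χ v := by
  unfold Int
  constructor
  · intro h
    exact h u (Sym2.mem_mk_left _ _) v (Sym2.mem_mk_right _ _)
  · intro h a ha b hb
    rw [Sym2.mem_iff] at ha hb
    rcases ha with rfl | rfl <;> rcases hb with rfl | rfl
    · rfl
    · exact h
    · exact h.symm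
    · rfl

theorem tot4_exc {V : Type} (sd pt : V → Bool) (u v : V) :
    Exc sd pt s(u, v) ↔ (sd u = sd v ∧ pt u = pt v) := by
  unfold Exc
  constructor
  · intro h
    exact h u (Sym2.mem_mk_left _ _) v (Sym2.mem_mk_right _ _)
  · intro h a ha b hb
    rw [Sym2.mem_iff] at ha hb
    rcases ha with rfl | rfl <;> rcases hb with rfl | rfl
    · exact ⟨rfl, rfl⟩
    · exact h
    · exact ⟨h.1.symm, h.2.symm⟩
    · exact ⟨rfl, rfl⟩

theorem tot4_gam {V : Type} [Fintype V] [DecidableEq V] (sd pt : V → Bool) (e : Sym2 V) :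
    ∑ t, gam (cut sd pt t) e = if Exc sd pt e then 6 else 0 := by
  induction e using Sym2.ind with
  | _ u v =>
    rw [Fin.sum_univ_three]
    unfold gam
    simp only [tot4_int, tot4_exc, cut]
    cases sd u <;> cases sd v <;> cases pt u <;> cases pt v <;> decide

theorem tot4_gamE {V : Type} [Fintype V] [DecidableEq V] (sd pt : V → Bool) (e : Sym2 V)
    (h : Exc sd pt e) (t : Fin 3) : gam (cut sd pt t) e = 2 := by
  induction e using Sym2.ind with
  | _ u v =>
    rw [tot4_exc] at h
    unfold gam
    rw [if_pos]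
    rw [tot4_int]
    unfold cut
    rw [h.1, h.2]

theorem tot4_gamT {V : Type} [Fintype V] [DecidableEq V] (sd pt : V → Bool) (ty : Sym2 V → Fin 3)
    (t : Fin 3) (e : Sym2 V) :
    gamT sd pt ty t e = gam (cut sd pt t) e - 6 * (if Exc sd pt e ∧ ty e = t then 1 else 0) := by
  unfold gamT
  split_ifs with h
  · rw [tot4_gamE sd pt e h.1 t]
    norm_num
  · ring

theorem tot4 : Tot4St := by
  intro V _ _ E sd pt
  constructor
  · rw [Finset.sum_comm, Finset.sum_congr rfl (fun e _ => tot4_gam sd pt e), ← Finset.sum_filter,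
      Finset.sum_const, nsmul_eq_mul, mul_comm]
  · intro ty t
    rw [Finset.sum_congr rfl (fun e _ => tot4_gamT sd pt ty t e), Finset.sum_sub_distrib,
      ← Finset.mul_sum, Finset.sum_boole]

end F3
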