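import Pool.Agent.F3.TY.Stm

/-!
# Project F3, block TY, row TY-26: the typing
-/

set_option autoImplicit false
set_option linter.unusedSectionVars false
set_option linter.unusedVariables false

namespace F3

open Finset NW F1

section Typing

variable {V : Type} [Fintype V] [DecidableEq V]

theorem typing_exc {sd pt : V → Bool} {u v : V} :
    Exc sd pt s(u, v) ↔ (sd u = sd v ∧ pt u = pt v) := by
  unfold Exc
  constructor
  · intro h
    exact h u (Sym2.mem_mk_left u v) v (Sym2.mem_mk_right u v)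
  · rintro ⟨h1, h2⟩ a ha b hb
    rcases Sym2.mem_iff.1 ha with rfl | rfl <;> rcases Sym2.mem_iff.1 hb with rfl | rfl
    · exact ⟨rfl, rfl⟩
    · exact ⟨h1, h2⟩
    · exact ⟨h1.symm, h2.symm⟩
    · exact ⟨rfl, rfl⟩

theorem typing_ct4 {sd pt : V → Bool} {E : Finset (Sym2 V)} {At : Finset V} {t : Fin 3} {u v : V}
    (h1 : sd u = sd v) (h2 : pt u = pt v) : ct4 sd pt E At t u v = ct4 sd pt E At t v u := by
  unfold ct4 CT
  apply Finset.filter_congr
  intro w _
  have h3 : cut sd pt t u = cut sd pt t v := by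
    unfold cut
    rw [h1, h2]
  rw [h1, h2, h3]
  constructor
  · rintro ⟨a, b, c⟩
    exact ⟨a, c, b⟩
  · rintro ⟨a, b, c⟩
    exact ⟨a, c, b⟩

theorem typing (hdvd : DvdSt) (hge : GamGeSt) (hdeg : Deg4St) (htot : Tot4St) (hass : AssignSt)
    (hreq : RequestSt) (hinf : InfeasSt) (hfit : FitSt) : TypingSt := by
  intro V _ _ E sd pt At ε hn hε0 hε1 hPT
  have hnn : (1000 : ℝ) ≤ nn V := by
    unfold nn
    exact_mod_cast hn
  obtain ⟨k, hk1, hk2, hk3, hk4⟩ := hfit V E sd pt At ε hn hε0 hε1 hPT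
  have hfin : ∀ t : Fin 3, t + 2 ≠ t := by decide
  have hfin1 : ∀ t : Fin 3, t + 1 ≠ t := by decide
  have hfin2 : ∀ t : Fin 3, t + 1 + 2 = t := by decide
  -- the numbers f t
  have hD0 : ∀ t, 0 ≤ ∑ e ∈ E, gam (cut sd pt t) e := by
    intro t
    have h := hge V E (cut sd pt t) ∅ hPT.div.1 hPT.deg
    rw [Finset.sum_empty] at h
    exact_mod_cast h
  have hf : ∀ t, ∃ f : ℕ, ∑ e ∈ E, gam (cut sd pt t) e = 6 * (f : ℤ) := by
    intro t
    obtain ⟨g, hg⟩ := hdvd V E (cut sd pt t) hPT.div
    have h0 := hD0 t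
    rw [hg] at h0
    refine ⟨g.toNat, ?_⟩
    rw [hg, Int.toNat_of_nonneg (by omega)]
  choose f hf using hf
  obtain ⟨F, hF⟩ : ∃ F : Finset (Sym2 V), F = E.filter (fun e => Exc sd pt e) := ⟨_, rfl⟩
  have hmF : ∀ u v, s(u, v) ∈ F ↔ (s(u, v) ∈ E ∧ sd u = sd v ∧ pt u = pt v) := by
    intro u v
    rw [hF, Finset.mem_filter, typing_exc]
  have hfs : ∑ t, f t = F.card := by
    have h := (htot V E sd pt).1
    simp only [hf] at h
    rw [← hF, ← Finset.mul_sum] at h
    have h2 : ∑ t, (f t : ℤ) = (F.card : ℤ) := by linarith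
    exact_mod_cast h2
  -- the candidates
  obtain ⟨C, hC⟩ : ∃ C : V → Finset V, C = fun v =>
    ((nbr E v).filter (fun w => sd v = sd w ∧ pt v = pt w)) \ At := ⟨_, rfl⟩
  have hmC : ∀ v w, w ∈ C v ↔ ((s(v, w) ∈ E ∧ sd v = sd w ∧ pt v = pt w) ∧ w ∉ At) := by
    intro v w
    rw [hC, Finset.mem_sdiff, Finset.mem_filter, mem_nbr]
  obtain ⟨R, hR1, hR2, hR3, hR4⟩ := hreq V At C k
    (by
      intro v _
      rw [Finset.disjoint_left]
      intro w hw
      exact ((hmC v w).1 hw).2)
    (by
      intro v hv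
      by_cases h0 : ∑ t, k t v = 0
      · rw [h0]
        exact Nat.zero_le _
      have h1 := hk3 v hv h0
      have h2 : ex4 sd pt E v ≤ (C v).card + At.card := by
        have := Finset.le_card_sdiff At ((nbr E v).filter (fun w => sd v = sd w ∧ pt v = pt w))
        rw [hC]
        unfold ex4
        simp only
        omega
      have h3 := hPT.At_card
      have h4 : (ex4 sd pt E v : ℝ) ≤ (C v).card + At.card := by exact_mod_cast h2
      have h5 : ((∑ t, k t v : ℕ) : ℝ) ≤ ((C v).card : ℝ) := by linarith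
      exact_mod_cast h5)
  have hRF : ∀ t e, e ∈ R t → e ∈ F := by
    intro t e he
    obtain ⟨v, _, w, hw, rfl⟩ := hR2 t e he
    exact (hmF v w).2 ((hmC v w).1 hw).1
  -- the infeasible edges
  classical
  obtain ⟨In, hIn⟩ : ∃ In : Fin 3 → Finset (Sym2 V), In = fun t => F.filter (fun e => ∃ u v,
    e = s(u, v) ∧ ((ct4 sd pt E At (t + 2) u v).card : ℝ) < nn V / 100) := ⟨_, rfl⟩
  have hInF : ∀ t e, e ∈ In t → e ∈ F := by
    intro t e he
    rw [hIn] at he
    exact (Finset.mem_filter.1 he).1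
  have hInI : ∀ t u v, s(u, v) ∈ In t → ((ct4 sd pt E At (t + 2) u v).card : ℝ) < nn V / 100 := by
    intro t u v he
    have hF' := (hmF u v).1 (hInF t _ he)
    rw [hIn] at he
    obtain ⟨_, u', v', h1, h2⟩ := Finset.mem_filter.1 he
    rcases Sym2.eq_iff.1 h1 with ⟨rfl, rfl⟩ | ⟨rfl, rfl⟩
    · exact h2
    · rw [typing_ct4 hF'.2.1 hF'.2.2]
      exact h2
  have hInH : ∀ t u v, s(u, v) ∈ In t →
      (∀ s, s ≠ t + 2 → nn V / 100 ≤ ((ct4 sd pt E At s u v).card : ℝ)) ∧
      (nn V / 10 ≤ ((Sd (cut sd pt t) (!cut sd pt t u)).card : ℝ) - (dc (cut sd pt t) E u : ℝ)) ∧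
      u ∈ At ∧ v ∈ At := by
    intro t u v he
    have hF' := (hmF u v).1 (hInF t _ he)
    obtain ⟨h1, h2, h3, h4⟩ := hinf V E sd pt At ε hε0 hε1 hPT u v hF'.2.1 hF'.2.2 (t + 2)
      (hInI t u v he)
    exact ⟨h1, h2 t (hfin t).symm, h3, h4⟩
  -- the partial typing
  have hGF : ∀ t, R t ∪ In t ⊆ F := by
    intro t e he
    rcases Finset.mem_union.1 he with he | he
    · exact hRF t e he
    · exact hInF t e he
  have hRI : ∀ s t, Disjoint (R s) (In t) := by
    intro s t
    rw [Finset.disjoint_left]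
    intro e h1 h2
    obtain ⟨v, _, w, hw, rfl⟩ := hR2 s e h1
    exact ((hmC v w).1 hw).2 (hInH t v w h2).2.2.2
  have hII : ∀ s t, s ≠ t → Disjoint (In s) (In t) := by
    intro s t hst
    rw [Finset.disjoint_left]
    intro e
    induction e using Sym2.ind with
    | _ u v =>
      intro h1 h2
      have h3 := (hInH s u v h1).1 (t + 2) (by
        intro h
        exact hst (add_right_cancel h).symm)
      have h4 := hInI t u v h2
      linarith
  have hGd : ∀ s t, s ≠ t → Disjoint (R s ∪ In s) (R t ∪ In t) := by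
    intro s t hst
    rw [Finset.disjoint_union_left, Finset.disjoint_union_right, Finset.disjoint_union_right]
    exact ⟨⟨hR1 s t hst, hRI s t⟩, (hRI t s).symm, hII s t hst⟩
  -- the budget
  have hGc : ∀ t, (R t ∪ In t).card ≤ f t := by
    intro t
    obtain ⟨S, hS⟩ : ∃ S : Finset V, S = At.filter (fun v => k t v ≠ 0 ∨ ∃ w, s(v, w) ∈ In t) :=
      ⟨_, rfl⟩
    have hSA : S ⊆ At := by
      rw [hS]
      exact Finset.filter_subset _ _
    have h1 : (R t).card = ∑ v ∈ S, k t v := by
      rw [hR3 t]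
      symm
      apply Finset.sum_subset hSA
      intro v hv hvS
      by_contra h0
      apply hvS
      rw [hS]
      exact Finset.mem_filter.2 ⟨hv, Or.inl h0⟩
    have h2 : (In t).card ≤ S.card * At.card := by
      have hsub : In t ⊆ (S ×ˢ At).image (fun p => s(p.1, p.2)) := by
        intro e
        induction e using Sym2.ind with
        | _ u v =>
          intro he
          have hh := hInH t u v he
          apply Finset.mem_image.2
          refine ⟨(u, v), Finset.mem_product.2 ⟨?_, hh.2.2.2⟩, rfl⟩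
          rw [hS]
          exact Finset.mem_filter.2 ⟨hh.2.2.1, Or.inr ⟨v, he⟩⟩
      calc (In t).card ≤ ((S ×ˢ At).image (fun p => s(p.1, p.2))).card :=
            Finset.card_le_card hsub
        _ ≤ (S ×ˢ At).card := Finset.card_image_le
        _ = S.card * At.card := Finset.card_product _ _
    have h3 := hge V E (cut sd pt t) S hPT.div.1 hPT.deg
    have hAc := hPT.At_card
    have hSc : (S.card : ℝ) ≤ ε * nn V := by
      have : (S.card : ℝ) ≤ At.card := by exact_mod_cast Finset.card_le_card hSA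
      linarith
    have h4 : ∑ v ∈ S, (6 * (k t v : ℝ) + (nn V / 10 - 3 / 2 * (ε * nn V))) ≤
        ((∑ e ∈ E, gam (cut sd pt t) e : ℤ) : ℝ) := by
      refine le_trans (Finset.sum_le_sum ?_) h3
      intro v hv
      rw [hS] at hv
      obtain ⟨hvA, hvk⟩ := Finset.mem_filter.1 hv
      by_cases h0 : k t v = 0
      · rcases hvk with hvk | ⟨w, hw⟩
        · exact absurd h0 hvk
        · have hh := (hInH t v w hw).2.1
          have hd : 3 * nn V ≤ 4 * (NW.deg E v : ℝ) := by
            unfold nn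
            exact_mod_cast hPT.deg v
          rw [h0]
          push_cast
          linarith
      · have hh := hk4 t v h0
        linarith
    rw [Finset.sum_add_distrib, Finset.sum_const, nsmul_eq_mul, ← Finset.mul_sum] at h4
    have h5 : ((R t).card : ℝ) = ∑ v ∈ S, (k t v : ℝ) := by
      rw [h1]
      push_cast
      rfl
    have h6 : ((In t).card : ℝ) ≤ (S.card : ℝ) * (ε * nn V) := by
      have : ((In t).card : ℝ) ≤ (S.card : ℝ) * At.card := by exact_mod_cast h2
      exact this.trans (mul_le_mul_of_nonneg_left hAc (Nat.cast_nonneg _))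
    have h7 : ((R t ∪ In t).card : ℝ) ≤ (R t).card + (In t).card := by
      exact_mod_cast Finset.card_union_le _ _
    rw [hf t] at h4
    push_cast at h4
    have h8 : (S.card : ℝ) * (6 * (ε * nn V)) ≤
        (S.card : ℝ) * (nn V / 10 - 3 / 2 * (ε * nn V)) := by
      apply mul_le_mul_of_nonneg_left _ (Nat.cast_nonneg _)
      have : ε * nn V ≤ 1 / 1000 * nn V := mul_le_mul_of_nonneg_right hε1 (by linarith)
      linarith
    have h9 : ((R t ∪ In t).card : ℝ) ≤ f t := by nlinarith
    exact_mod_cast h9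
  obtain ⟨ty, hty1, hty2⟩ := hass (Sym2 V) F (fun t => R t ∪ In t) f hGF hGd hGc hfs
  refine ⟨ty, ?_, ?_, ?_⟩
  · intro t
    rw [hf t, ← hty2 t, hF, Finset.filter_filter]
  · intro t v
    have h1 := hk1 t v
    have h2 : k t v ≤ mT sd pt ty E t v := by
      by_cases hv : v ∈ At
      · rw [← hR4 t v hv]
        unfold mT NW.deg
        apply Finset.card_le_card
        intro w hw
        rw [mem_nbr] at hw
        have hE := (hmF v w).1 (hRF t _ hw)
        rw [Finset.mem_filter, mem_nbr]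
        exact ⟨hE.1, hE.2, hty1 t _ (Finset.mem_union_left _ hw)⟩
      · rw [hk2 t v hv]
        exact Nat.zero_le _
    have h3 : (k t v : ℝ) ≤ mT sd pt ty E t v := by exact_mod_cast h2
    linarith
  · intro u v huv h1 h2
    by_contra hcon
    push Not at hcon
    have hFm : s(u, v) ∈ F := (hmF u v).2 ⟨huv, h1, h2⟩
    have hm : s(u, v) ∈ In (ty s(u, v) + 1) := by
      rw [hIn]
      refine Finset.mem_filter.2 ⟨hFm, u, v, rfl, ?_⟩
      rw [hfin2]
      exact hcon
    have h3 := hty1 (ty s(u, v) + 1) s(u, v) (Finset.mem_union_right _ hm)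
    exact hfin1 _ h3.symm

end Typing

end F3
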