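import Pool.Agent.F3.TY.TG
import Pool.Agent.F3.TY.TR
import Pool.Agent.F3.TY.TT
import Pool.Agent.F3.TY.Assign
import Pool.Agent.F3.TY.Choice
import Pool.Agent.F3.TY.Cnt
import Pool.Agent.F3.TY.Deg4
import Pool.Agent.F3.TY.E0
import Pool.Agent.F3.TY.Fill
import Pool.Agent.F3.TY.Fit
import Pool.Agent.F3.TY.Infeas
import Pool.Agent.F3.TY.Low
import Pool.Agent.F3.TY.LowR
import Pool.Agent.F3.TY.MkWX
import Pool.Agent.F3.TY.RichG
import Pool.Agent.F3.TY.RichR
import Pool.Agent.F3.TY.RobG
import Pool.Agent.F3.TY.RobR
import Pool.Agent.F3.TY.RobT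
import Pool.Agent.F3.TY.Select
import Pool.Agent.F3.TY.Tot4
import Pool.Agent.F3.TY.Typing
import Pool.Agent.F3.W.Del

/-!
# Project F3, block TY: the three theorems
-/

set_option autoImplicit false

namespace F3

theorem choiceS : ChoiceSt := choice dvd_gam gamGe fill select

theorem tgS : TGStatement := tg low richG choiceS mkWX robG del

theorem trS : TRStatement := tr low lowR richR oddR choiceS mkWX robR e0 apex

theorem ttS : TTStatement :=
  tt deg4 tot4 (typing dvd_gam gamGe deg4 tot4 assign request (infeas deg4) (fit deg4))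
    (robT deg4) (feasC deg4)

/-- sections 1 and 2 together, from the output of block W -/
theorem caseS (hW : WStatement) : CaseStatement := case_of hW tgS trS ttS

end F3
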