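import Pool.Agent.F3.TY.Stm

/-!
# Project F3, block TY, rows TY-27, TY-28: the core edges of world T
-/

set_option autoImplicit false
set_option linter.unusedSectionVars false

namespace F3

open Finset NW F1

section RobTAux

variable {V : Type} [Fintype V] [DecidableEq V]

theorem robt_nn : (0 : ℝ) ≤ nn V := by
  unfold nn
  positivity

theorem robt_CoP {sd pt : V → Bool} {v : V} {b c : Bool} :
    CoP (fun _ => false) sd pt v b c ↔ ¬ (sd v = b ∧ pt v = c) := by
  unfold CoP
  simp only [Bool.false_eq_true, if_false]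
  tauto

theorem robt_Co {sd pt : V → Bool} {u v : V} :
    Co (fun _ => false) sd pt u v ↔ ¬ (sd u = sd v ∧ pt u = pt v) := robt_CoP

theorem robt_exc {sd pt : V → Bool} {u v : V} :
    Exc sd pt s(u, v) ↔ (sd u = sd v ∧ pt u = pt v) := by
  unfold Exc
  constructor
  · intro h
    exact h u (by simp) v (by simp)
  · intro h a ha b hb
    rw [Sym2.mem_iff] at ha hb
    rcases ha with rfl | rfl <;> rcases hb with rfl | rfl <;> simp [h.1, h.2]

/-- the type of a part, seen from `v` -/
theorem robt_type (sd pt : V → Bool) (v : V) (b c : Bool) (h : ¬ (sd v = b ∧ pt v = c)) :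
    ∃ t : Fin 3, ∀ w, CT sd pt t v w → (sd w = b ∧ pt w = c) := by
  by_cases h1 : sd v = b
  · refine ⟨0, fun w hw => ?_⟩
    unfold CT cut at hw
    rw [if_pos rfl, if_pos rfl] at hw
    obtain ⟨h2, h3⟩ := hw
    have h4 : pt v ≠ c := fun h5 => h ⟨h1, h5⟩
    refine ⟨by rw [← h2, h1], ?_⟩
    have h5 : pt v ≠ pt w := fun h6 => h3 ⟨h2, h6⟩
    cases hv : pt v <;> cases hw : pt w <;> cases c <;> simp_all
  · by_cases h2 : pt v = c
    · refine ⟨1, fun w hw => ?_⟩
      unfold CT cut at hw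
      rw [if_neg (by decide), if_pos rfl, if_neg (by decide), if_pos rfl] at hw
      obtain ⟨h3, h4⟩ := hw
      have h5 : sd v ≠ sd w := fun h6 => h4 ⟨h6, h3⟩
      refine ⟨?_, by rw [← h3, h2]⟩
      cases hv : sd v <;> cases hw : sd w <;> cases b <;> simp_all
    · refine ⟨2, fun w hw => ?_⟩
      unfold CT cut at hw
      rw [if_neg (by decide), if_neg (by decide), if_neg (by decide), if_neg (by decide)] at hw
      obtain ⟨h3, h4⟩ := hw
      cases h5 : sd v <;> cases h6 : pt v <;> cases h7 : sd w <;> cases h8 : pt w <;>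
        cases b <;> cases c <;> simp_all

/-- the common side of two vertices -/
theorem robt_cut (sd pt : V → Bool) (u v : V) :
    ∃ t : Fin 3, cut sd pt t u = cut sd pt t v := by
  by_cases h1 : sd u = sd v
  · exact ⟨0, by unfold cut; rw [if_pos rfl, if_pos rfl, h1]⟩
  · by_cases h2 : pt u = pt v
    · refine ⟨1, ?_⟩
      unfold cut
      rw [if_neg (by decide), if_pos rfl, if_neg (by decide), if_pos rfl, h2]
    · refine ⟨2, ?_⟩
      unfold cut
      rw [if_neg (by decide), if_neg (by decide), if_neg (by decide), if_neg (by decide)]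
      cases h5 : sd u <;> cases h6 : pt u <;> cases h7 : sd v <;> cases h8 : pt v <;> simp_all

/-- different sides of a cut: different parts -/
theorem robt_ne {sd pt : V → Bool} {t : Fin 3} {u w : V}
    (h : cut sd pt t w = !cut sd pt t u) : ¬ (sd u = sd w ∧ pt u = pt w) := by
  rintro ⟨h1, h2⟩
  have h3 : cut sd pt t w = cut sd pt t u := by
    unfold cut
    rw [h1, h2]
  rw [h3] at h
  cases h4 : cut sd pt t u <;> simp_all

end RobTAux

/-- row TY-27 -/
theorem robT (hdeg : Deg4St) : RobTSt := by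
  intro V _ _ E H sd pt At ε ε' hε' hεε hP hH
  subst hH
  have hn := robt_nn (V := V)
  have hle : ε' * nn V ≤ ε * nn V := mul_le_mul_of_nonneg_right (by linarith) hn
  have h3 : 3 * (ε' * nn V) ≤ ε * nn V := by
    have := mul_le_mul_of_nonneg_right hεε hn
    linarith
  obtain ⟨-, -, hN, -, -, -, -, -, -⟩ := hdeg V E sd pt At ε' hP
  refine ⟨?_, ?_, ?_, ?_, ?_, ?_, ?_⟩
  · intro e he
    exact hP.div.1 e (Finset.mem_filter.1 he).1
  · intro b c
    have := (abs_le.1 (hP.part b c)).2
    linarith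
  · exact hP.At_card.trans hle
  · intro u hu v hv h
    obtain ⟨-, ⟨w, hw, hwA⟩, -⟩ := Finset.mem_filter.1 h
    rw [Sym2.mem_iff] at hw
    rcases hw with rfl | rfl
    · exact hwA hu
    · exact hwA hv
  · intro u v h
    rw [robt_Co]
    intro h1
    exact (Finset.mem_filter.1 h).2.2 (robt_exc.2 h1)
  · intro v hv
    refine le_trans ?_ ((hP.miss v hv).trans hle)
    have hsub : univ.filter (fun w => Co (fun _ => false) sd pt v w ∧ s(v, w) ∉
        E.filter (fun e => (∃ v ∈ e, v ∉ At) ∧ ¬ Exc sd pt e)) ⊆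
        univ.filter (fun w => ¬ (sd v = sd w ∧ pt v = pt w) ∧ s(v, w) ∉ E) := by
      intro w hw
      rw [Finset.mem_filter] at hw ⊢
      obtain ⟨-, h1, h2⟩ := hw
      rw [robt_Co] at h1
      refine ⟨Finset.mem_univ _, h1, fun h4 => h2 ?_⟩
      rw [Finset.mem_filter]
      exact ⟨h4, ⟨v, by simp, hv⟩, fun h5 => h1 (robt_exc.1 h5)⟩
    exact_mod_cast Finset.card_le_card hsub
  · intro v b c hc
    rw [robt_CoP] at hc
    obtain ⟨t, ht⟩ := robt_type sd pt v b c hc
    have h1 := hN v t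
    have hsub : (nbr E v).filter (fun w => CT sd pt t v w) ⊆
        (nbr (E.filter (fun e => (∃ v ∈ e, v ∉ At) ∧ ¬ Exc sd pt e)) v ∩ Pa sd pt b c) ∪ At := by
      intro w hw
      rw [Finset.mem_filter, mem_nbr] at hw
      rw [Finset.mem_union]
      by_cases hwA : w ∈ At
      · exact Or.inr hwA
      · left
        rw [Finset.mem_inter, mem_nbr, Finset.mem_filter]
        have h2 := ht w hw.2
        refine ⟨⟨hw.1, ⟨w, by simp, hwA⟩, fun h5 => hw.2.2 (robt_exc.1 h5)⟩, ?_⟩
        unfold Pa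
        rw [Finset.mem_filter]
        exact ⟨Finset.mem_univ _, h2⟩
    have h2 := (Finset.card_le_card hsub).trans (Finset.card_union_le _ _)
    have h4 : (NT sd pt E t v : ℝ) ≤
        ((nbr (E.filter (fun e => (∃ v ∈ e, v ∉ At) ∧ ¬ Exc sd pt e)) v ∩ Pa sd pt b c).card : ℝ) +
          (At.card : ℝ) := by exact_mod_cast h2
    have h5 := hP.At_card
    linarith

/-- row TY-28 -/
theorem feasC (hdeg : Deg4St) : FeasCSt := by
  intro V _ _ E sd pt At ε hε0 hε hP u v huv
  have hn := robt_nn (V := V)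
  obtain ⟨hD, hNu, -, -, hdc, -, -, -, hS⟩ := hdeg V E sd pt At ε hP
  obtain ⟨t, ht⟩ := robt_cut sd pt u v
  set D := Sd (cut sd pt t) (!cut sd pt t u) with hDdef
  have key : ∀ x, cut sd pt t x = cut sd pt t u →
      (1 / 3 - ε) * nn V ≤ ((nbr E x ∩ D).card : ℝ) := by
    intro x hx
    have h1 : (nbr E x ∩ D).card = dc (cut sd pt t) E x := by
      unfold dc
      rw [hx]
    have h2 := hdc x t
    have h3 := hD x
    rw [← Finset.add_sum_erase Finset.univ _ (Finset.mem_univ t)] at h3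
    have h4 : 2 * ex4 sd pt E x ≤ ∑ t' ∈ univ.erase t, NT sd pt E t' x := by
      have h5 : (univ.erase t).card = 2 := by
        rw [Finset.card_erase_of_mem (Finset.mem_univ t), Finset.card_univ, Fintype.card_fin]
      have h6 := Finset.card_nsmul_le_sum (univ.erase t) (fun t' => NT sd pt E t' x)
        (ex4 sd pt E x) (fun t' _ => hP.loc x t')
      rw [h5, smul_eq_mul] at h6
      exact h6
    have h7 := hNu x t
    have h8 := hP.deg x
    rw [h1]
    rw [← h2] at h3 h4
    have h3' : (NW.deg E x : ℝ) = (ex4 sd pt E x : ℝ) + ((NT sd pt E t x : ℝ) +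
        (dc (cut sd pt t) E x : ℝ)) := by exact_mod_cast h3
    have h4' : 2 * (ex4 sd pt E x : ℝ) ≤ (dc (cut sd pt t) E x : ℝ) := by exact_mod_cast h4
    have h8' : 3 * nn V ≤ 4 * (NW.deg E x : ℝ) := by
      unfold nn
      exact_mod_cast h8
    have h9 : 0 ≤ ε * nn V := mul_nonneg hε0 hn
    linarith
  have hu := key u rfl
  have hv := key v ht.symm
  have hDc : (D.card : ℝ) ≤ nn V / 2 + 2 * ε * nn V := by
    have := (abs_le.1 (hS t (!cut sd pt t u))).2
    linarith
  have h1 : ((nbr E u ∩ D).card : ℝ) + ((nbr E v ∩ D).card : ℝ) ≤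
      (D.card : ℝ) + (((nbr E u ∩ D) ∩ (nbr E v ∩ D)).card : ℝ) := by
    have h2 := Finset.card_union_add_card_inter (nbr E u ∩ D) (nbr E v ∩ D)
    have h3 : ((nbr E u ∩ D) ∪ (nbr E v ∩ D)).card ≤ D.card :=
      Finset.card_le_card (Finset.union_subset Finset.inter_subset_right Finset.inter_subset_right)
    exact_mod_cast (by omega : (nbr E u ∩ D).card + (nbr E v ∩ D).card ≤
      D.card + ((nbr E u ∩ D) ∩ (nbr E v ∩ D)).card)
  have hsub : (nbr E u ∩ D) ∩ (nbr E v ∩ D) ⊆
      ((univ \ At).filter (fun w => ¬ (sd u = sd w ∧ pt u = pt w) ∧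
        ¬ (sd v = sd w ∧ pt v = pt w) ∧ s(u, w) ∈ E ∧ s(v, w) ∈ E)) ∪ At := by
    intro w hw
    simp only [Finset.mem_inter, mem_nbr] at hw
    obtain ⟨⟨h2, h3⟩, h4, -⟩ := hw
    rw [Finset.mem_union]
    by_cases hwA : w ∈ At
    · exact Or.inr hwA
    · left
      have h5 : cut sd pt t w = !cut sd pt t u := by
        rw [hDdef] at h3
        unfold Sd at h3
        exact (Finset.mem_filter.1 h3).2
      rw [Finset.mem_filter]
      exact ⟨by simp [hwA], robt_ne h5, robt_ne (by rw [h5, ht]), h2, h4⟩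
  have h2 := (Finset.card_le_card hsub).trans (Finset.card_union_le _ _)
  have h3 : (((nbr E u ∩ D) ∩ (nbr E v ∩ D)).card : ℝ) ≤
      (((univ \ At).filter (fun w => ¬ (sd u = sd w ∧ pt u = pt w) ∧
        ¬ (sd v = sd w ∧ pt v = pt w) ∧ s(u, w) ∈ E ∧ s(v, w) ∈ E)).card : ℝ) +
        (At.card : ℝ) := by exact_mod_cast h2
  have h4 := hP.At_card
  have h5 : ε * nn V ≤ 1 / 1000 * nn V := mul_le_mul_of_nonneg_right hε hn
  linarith

end F3
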