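import Pool.Agent.F3.Worlds

/-!
# Project F3, block TY (typed edges): interface with block W and the targets

`PX`, `PG`, `PR`, `PT`: the worlds before the designated edges / the types are chosen (output of
block W); `TGStatement`, `TRStatement`, `TTStatement`: the theorems of block TY; `WStatement`: what
block W has to prove; `case_of`: the case distinction.
-/

set_option autoImplicit false
set_option linter.unusedSectionVars false

namespace F3

open Finset NW F1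

section Pre

variable {V : Type} [Fintype V] [DecidableEq V]

/-- worlds G and R, common part, before the designated edges are chosen -/
structure PX (E : Finset (Sym2 V)) (sd : V → Bool) (At : Finset V) (ε : ℝ) : Prop where
  div : NW.Divis E
  deg : ∀ v, 3 * Fintype.card V ≤ 4 * NW.deg E v
  side : ∀ b, |((Sd sd b).card : ℝ) - nn V / 2| ≤ ε * nn V
  At_card : (At.card : ℝ) ≤ ε * nn V
  miss : ∀ v, v ∉ At → (((Sd sd (!sd v)).filter (fun w => s(v, w) ∉ E)).card : ℝ) ≤ ε * nn V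
  intT : ∀ v, v ∉ At → (di sd E v : ℝ) ≤ (1 / 4 + ε) * nn V
  loc : ∀ v, di sd E v ≤ dc sd E v
  ex : ((∑ e ∈ E, gam sd e : ℤ) : ℝ) ≤ ε * nn V ^ 2

/-- world G, before the designated edges are chosen -/
structure PG (E : Finset (Sym2 V)) (sd : V → Bool) (At : Finset V) (ε θ : ℝ) : Prop where
  x : PX E sd At ε
  gen1 : ∀ y z, y ∉ At → z ∉ At → sd y = false → sd z = false →
    θ * nn V ^ 4 ≤ ((walks5 E (Sd sd false \ At) y z).card : ℝ)
  gen2 : ∀ y z, y ∉ At → z ∉ At → sd y = false → sd z = false →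
    θ * nn V ≤ (((Sd sd false \ At).filter (fun x =>
      θ * nn V ≤ (((nbr E x ∩ nbr E y) ∩ (Sd sd false \ At)).card : ℝ) ∧
      θ * nn V ≤ (((nbr E x ∩ nbr E z) ∩ (Sd sd false \ At)).card : ℝ))).card : ℝ)
  tri : θ * nn V ^ 3 ≤
    ((univ.filter (fun T : Tri V => T.1 ⊆ Sd sd false \ At ∧ NW.edg T.1 ⊆ E)).card : ℝ)

/-- world R, before the designated edges are chosen -/
structure PR (E : Finset (Sym2 V)) (fl : Bool → Bool) (sd pt : V → Bool) (At : Finset V)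
    (ε : ℝ) : Prop where
  x : PX E sd At ε
  flD : fl false = true
  part : ∀ b c, |((Pa sd pt b c).card : ℝ) - nn V / 4| ≤ ε * nn V
  core : ∀ v, v ∉ At → ((univ.filter (fun w => Co fl sd pt v w ∧ s(v, w) ∉ E)).card : ℝ) ≤
    ε * nn V
  more : ∀ v c, CoP fl sd pt v (sd v) c →
    (nbr E v ∩ Pa sd pt (sd v) (!c)).card ≤ (nbr E v ∩ Pa sd pt (sd v) c).card

/-- number of exceptional edges at `v` (world T) -/
def ex4 (sd pt : V → Bool) (E : Finset (Sym2 V)) (v : V) : ℕ :=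
  ((nbr E v).filter (fun w => sd v = sd w ∧ pt v = pt w)).card

/-- world T, before the types are chosen; `loc`: the 4-cut is locally maximal -/
structure PT (E : Finset (Sym2 V)) (sd pt : V → Bool) (At : Finset V) (ε : ℝ) : Prop where
  div : NW.Divis E
  deg : ∀ v, 3 * Fintype.card V ≤ 4 * NW.deg E v
  part : ∀ a b, |((Pa sd pt a b).card : ℝ) - nn V / 4| ≤ ε * nn V
  At_card : (At.card : ℝ) ≤ ε * nn V
  miss : ∀ v, v ∉ At →
    ((univ.filter (fun w => ¬ (sd v = sd w ∧ pt v = pt w) ∧ s(v, w) ∉ E)).card : ℝ) ≤ ε * nn V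
  exc : ∀ v, v ∉ At → (ex4 sd pt E v : ℝ) ≤ ε * nn V
  loc : ∀ v t, ex4 sd pt E v ≤ NT sd pt E t v

theorem PX.mono {E : Finset (Sym2 V)} {sd : V → Bool} {At : Finset V} {ε ε' : ℝ}
    (h : PX E sd At ε) (hε : ε ≤ ε') : PX E sd At ε' := by
  have hn : (0 : ℝ) ≤ nn V := by unfold nn; positivity
  have h1 : ε * nn V ≤ ε' * nn V := mul_le_mul_of_nonneg_right hε hn
  have h2 : ε * nn V ^ 2 ≤ ε' * nn V ^ 2 := mul_le_mul_of_nonneg_right hε (by positivity)
  exact ⟨h.div, h.deg, fun b => (h.side b).trans h1, h.At_card.trans h1,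
    fun v hv => (h.miss v hv).trans h1, fun v hv => (h.intT v hv).trans (by nlinarith), h.loc,
    h.ex.trans h2⟩

theorem PR.mono {E : Finset (Sym2 V)} {fl : Bool → Bool} {sd pt : V → Bool} {At : Finset V}
    {ε ε' : ℝ} (h : PR E fl sd pt At ε) (hε : ε ≤ ε') : PR E fl sd pt At ε' := by
  have hn : (0 : ℝ) ≤ nn V := by unfold nn; positivity
  have h1 : ε * nn V ≤ ε' * nn V := mul_le_mul_of_nonneg_right hε hn
  exact ⟨h.x.mono hε, h.flD, fun b c => (h.part b c).trans h1, fun v hv => (h.core v hv).trans h1,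
    h.more⟩

theorem PT.mono {E : Finset (Sym2 V)} {sd pt : V → Bool} {At : Finset V}
    {ε ε' : ℝ} (h : PT E sd pt At ε) (hε : ε ≤ ε') : PT E sd pt At ε' := by
  have hn : (0 : ℝ) ≤ nn V := by unfold nn; positivity
  have h1 : ε * nn V ≤ ε' * nn V := mul_le_mul_of_nonneg_right hε hn
  exact ⟨h.div, h.deg, fun a b => (h.part a b).trans h1, h.At_card.trans h1,
    fun v hv => (h.miss v hv).trans h1, fun v hv => (h.exc v hv).trans h1, h.loc⟩

end Pre

/-- worlds before the choice of the designated edges and types: output of block W (helper53) -/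
def WStatement : Prop :=
  ∀ εR : ℝ, 0 < εR → ∃ θG : ℝ, 0 < θG ∧ ∀ εG : ℝ, 0 < εG → ∃ ρ : ℝ, 0 < ρ ∧
    ∃ θS : ℝ, 0 < θS ∧ ∀ εS : ℝ, 0 < εS → ∃ θN : ℝ, 0 < θN ∧ ∃ n₀ : ℕ,
    ∀ (V : Type) [Fintype V] [DecidableEq V] (E : Finset (Sym2 V)), NW.Divis E →
      n₀ ≤ Fintype.card V → (∀ v, 3 * Fintype.card V ≤ 4 * NW.deg E v) →
      (¬ EX ρ E ∧ (RobN E θN ∨ ∃ H sd At, WS E H sd At εS θS)) ∨
      (∃ sd At, PG E sd At εG θG) ∨
      (∃ fl sd pt At, PR E fl sd pt At εR) ∨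
      (∃ sd pt At, PT E sd pt At εR)

/-- block TY, world G -/
def TGStatement : Prop :=
  ∀ θ : ℝ, 0 < θ → ∃ θ' c : ℝ, 0 < θ' ∧ 0 < c ∧ ∀ ε : ℝ, 0 < ε → ∃ ε' : ℝ, 0 < ε' ∧ ∃ n₀ : ℕ,
    ∀ (V : Type) [Fintype V] [DecidableEq V] (E : Finset (Sym2 V)) (sd : V → Bool)
      (At : Finset V), n₀ ≤ Fintype.card V → PG E sd At ε' θ →
      ∃ De H, WG E De H sd At ε θ' c

/-- block TY, world R -/
def TRStatement : Prop :=
  ∀ ε : ℝ, 0 < ε → ∃ ε' : ℝ, 0 < ε' ∧ ∃ n₀ : ℕ,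
    ∀ (V : Type) [Fintype V] [DecidableEq V] (E : Finset (Sym2 V)) (fl : Bool → Bool)
      (sd pt : V → Bool) (At : Finset V), n₀ ≤ Fintype.card V → PR E fl sd pt At ε' →
      ∃ De H e₀, WR E De H fl sd pt At e₀ ε (1 / 1000) (1 / 100)

/-- block TY, world T -/
def TTStatement : Prop :=
  ∀ ε : ℝ, 0 < ε → ∃ ε' : ℝ, 0 < ε' ∧ ∃ n₀ : ℕ,
    ∀ (V : Type) [Fintype V] [DecidableEq V] (E : Finset (Sym2 V)) (sd pt : V → Bool)
      (At : Finset V), n₀ ≤ Fintype.card V → PT E sd pt At ε' →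
      ∃ H ty, WT E H sd pt ty At ε (1 / 100)

/-- sections 1 and 2 together -/
theorem case_of (hW : WStatement) (hG : TGStatement) (hR : TRStatement) (hT : TTStatement) :
    CaseStatement := by
  refine ⟨1 / 100, 1 / 1000, by norm_num, by norm_num, fun εR hεR => ?_⟩
  obtain ⟨εR', hεR', nR, hR⟩ := hR εR hεR
  obtain ⟨εT', hεT', nT, hT⟩ := hT εR hεR
  obtain ⟨θ, hθ, hW⟩ := hW (min εR' εT') (lt_min hεR' hεT')
  obtain ⟨θG, cG, hθG, hcG, hG⟩ := hG θ hθ
  refine ⟨θG, cG, hθG, hcG, fun εG hεG => ?_⟩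
  obtain ⟨εG', hεG', nG, hG⟩ := hG εG hεG
  obtain ⟨ρ, hρ, θS, hθS, hW⟩ := hW εG' hεG'
  refine ⟨ρ, hρ, θS, hθS, fun εS hεS => ?_⟩
  obtain ⟨θN, hθN, n₀, hW⟩ := hW εS hεS
  refine ⟨θN, hθN, max n₀ (max nR (max nT nG)), fun V _ _ E hE hn hd => ?_⟩
  have h1 : n₀ ≤ Fintype.card V := (le_max_left _ _).trans hn
  have h2 : nR ≤ Fintype.card V := ((le_max_left _ _).trans (le_max_right _ _)).trans hn
  have h3 : nT ≤ Fintype.card V :=
    (((le_max_left _ _).trans (le_max_right _ _)).trans (le_max_right _ _)).trans hn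
  have h4 : nG ≤ Fintype.card V :=
    (((le_max_right _ _).trans (le_max_right _ _)).trans (le_max_right _ _)).trans hn
  rcases hW V E hE h1 hd with h | ⟨sd, At, h⟩ | ⟨fl, sd, pt, At, h⟩ | ⟨sd, pt, At, h⟩
  · exact Or.inl h
  · obtain ⟨De, H, h⟩ := hG V E sd At h4 h
    exact Or.inr (Or.inl ⟨De, H, sd, At, h⟩)
  · obtain ⟨De, H, e₀, h⟩ := hR V E fl sd pt At h2 (h.mono (min_le_left _ _))
    exact Or.inr (Or.inr (Or.inl ⟨De, H, fl, sd, pt, At, e₀, h⟩))
  · obtain ⟨H, ty, h⟩ := hT V E sd pt At h3 (h.mono (min_le_right _ _))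
    exact Or.inr (Or.inr (Or.inr ⟨H, sd, pt, ty, At, h⟩))

end F3
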