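import Pool.Agent.F3.W.Defs

/-!
# Project F3, block TY: statements of the rows
-/

set_option autoImplicit false
set_option linter.unusedSectionVars false

namespace F3

open Finset NW F1

section TYDefs

variable {V : Type} [Fintype V] [DecidableEq V]

/-- low vertices: the cross degree is (almost) not larger than the internal degree -/
def Low (E : Finset (Sym2 V)) (sd : V → Bool) : Finset V :=
  univ.filter (fun v => 100 * dc sd E v < 100 * di sd E v + Fintype.card V)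

/-- result of the choice of the designated edges: `Cd v` the allowed partners of a low vertex
`v`, `Rich` the allowed edges between typical vertices -/
structure Chosen (E : Finset (Sym2 V)) (sd : V → Bool) (At : Finset V) (Cd : V → Finset V)
    (Rich : Finset (Sym2 V)) (δ : ℝ) (De : Finset (Sym2 V)) : Prop where
  tot : ∑ e ∈ E, gam sd e = 6 * (De.card : ℤ)
  T : ∀ v, v ∉ At → (NW.deg De v : ℝ) ≤ δ * nn V
  A0 : ∀ v, v ∈ At → v ∉ Low E sd → NW.deg De v = 0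
  lo : ∀ v, v ∈ Low E sd → nn V / 100 ≤ (NW.deg De v : ℝ)
  hi : ∀ v, v ∈ Low E sd → (NW.deg De v : ℝ) ≤ nn V / 100 + 1
  mem : ∀ p q, s(p, q) ∈ De →
    (p ∈ Low E sd ∧ q ∈ Cd p) ∨ (q ∈ Low E sd ∧ p ∈ Cd q) ∨ s(p, q) ∈ Rich

/-- the core part of the side of `v` (`fl = true`: the part of `v`, `fl = false`: the other one) -/
def cpt (fl : Bool → Bool) (sd pt : V → Bool) (v : V) : Bool :=
  if fl (sd v) = true then pt v else !pt v

/-- typical common neighbours of `u`, `v` in the part of type `t` (seen from `u`) -/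
def ct4 (sd pt : V → Bool) (E : Finset (Sym2 V)) (At : Finset V) (t : Fin 3) (u v : V) :
    Finset V :=
  (univ \ At).filter (fun w => CT sd pt t u w ∧ s(u, w) ∈ E ∧ s(v, w) ∈ E)

end TYDefs

/-! ### Counting -/

/-- row TY-1a -/
def SumGamSt : Prop :=
  ∀ (V : Type) [Fintype V] [DecidableEq V] (E : Finset (Sym2 V)) (χ : V → Bool), NW.NL E →
    2 * ∑ e ∈ E, gam χ e = ∑ v, (2 * (di χ E v : ℤ) - (dc χ E v : ℤ))

/-- row TY-1b -/
def DvdSt : Prop :=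
  ∀ (V : Type) [Fintype V] [DecidableEq V] (E : Finset (Sym2 V)) (χ : V → Bool), NW.Divis E →
    (6 : ℤ) ∣ ∑ e ∈ E, gam χ e

/-- row TY-1c: lower bound, every missing cross pair is charged fully to its end in `S` -/
def GamGeSt : Prop :=
  ∀ (V : Type) [Fintype V] [DecidableEq V] (E : Finset (Sym2 V)) (χ : V → Bool) (S : Finset V),
    NW.NL E → (∀ v, 3 * Fintype.card V ≤ 4 * NW.deg E v) →
    ∑ v ∈ S, (((NW.deg E v : ℝ) - 3 * nn V / 4) +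
      3 * (((Sd χ (!χ v)).card : ℝ) - (dc χ E v : ℝ)) - 3 / 2 * (S.card : ℝ)) ≤
      ((∑ e ∈ E, gam χ e : ℤ) : ℝ)

/-! ### The choice of the designated edges -/

/-- row TY-2 -/
def FillSt : Prop :=
  ∀ (V : Type) [Fintype V] [DecidableEq V] (R : Finset (Sym2 V)) (N q : ℕ), NW.NL R → 0 < q →
    N * (2 * Fintype.card V / q + 1) ≤ R.card →
    ∃ F, F ⊆ R ∧ F.card = N ∧ ∀ v, NW.deg F v ≤ q

/-- row TY-3 -/
def SelectSt : Prop :=
  ∀ (V : Type) [Fintype V] [DecidableEq V] (L At : Finset V) (k : ℕ) (Cd : V → Finset V),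
    L ⊆ At → (∀ v ∈ L, k ≤ (Cd v).card) → (∀ v ∈ L, Disjoint (Cd v) At) →
    ∃ F : Finset (Sym2 V), F.card = k * L.card ∧ (∀ v ∈ L, NW.deg F v = k) ∧
      (∀ v, v ∉ L → NW.deg F v ≤ L.card) ∧ (∀ v ∈ At, v ∉ L → NW.deg F v = 0) ∧
      ∀ p q, s(p, q) ∈ F → (p ∈ L ∧ q ∈ Cd p) ∨ (q ∈ L ∧ p ∈ Cd q)

/-- row TY-4 -/
def ChoiceSt : Prop :=
  ∀ δ c : ℝ, 0 < δ → 0 < c → ∃ ε' : ℝ, 0 < ε' ∧ ∃ n₀ : ℕ,
    ∀ (V : Type) [Fintype V] [DecidableEq V] (E : Finset (Sym2 V)) (sd : V → Bool)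
      (At : Finset V) (Cd : V → Finset V) (Rich : Finset (Sym2 V)),
      n₀ ≤ Fintype.card V → PX E sd At ε' →
      (∀ v ∈ Low E sd, nn V / 50 ≤ ((Cd v).card : ℝ)) → (∀ v ∈ Low E sd, Disjoint (Cd v) At) →
      NW.NL Rich → (∀ e ∈ Rich, ∀ v ∈ e, v ∉ At) → c * nn V ^ 2 ≤ (Rich.card : ℝ) →
      ∃ De, Chosen E sd At Cd Rich δ De

/-- row TY-5: the fields of `WX` -/
def MkWXSt : Prop :=
  ∀ (V : Type) [Fintype V] [DecidableEq V] (E De H : Finset (Sym2 V)) (sd : V → Bool)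
    (At : Finset V) (Cd : V → Finset V) (Rich : Finset (Sym2 V)) (ε δ θ c : ℝ),
    200 ≤ Fintype.card V → 0 < ε → 0 ≤ δ → δ ≤ ε → δ ≤ 1 / 50 → c ≤ 1 / 12 →
    PX E sd At ε → Low E sd ⊆ At → Chosen E sd At Cd Rich δ De → De ⊆ E →
    (∀ e ∈ De, Int sd e) → (∀ v ∈ Low E sd, Disjoint (Cd v) At) →
    (∀ e ∈ Rich, ∀ v ∈ e, v ∉ At) → H ⊆ E \ De →
    (∀ p q, s(p, q) ∈ Rich → s(p, q) ∈ De → c * nn V ≤
      (((Sd sd (sd p) \ At).filter (fun r => s(p, r) ∈ H ∧ s(q, r) ∈ H)).card : ℝ)) →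
    (∀ p q, p ∈ Low E sd → q ∈ Cd p → s(p, q) ∈ De → nn V / 12 ≤
      (((Sd sd (sd p) \ At).filter (fun r => s(p, r) ∈ H ∧ s(q, r) ∈ H)).card : ℝ)) →
    (∀ y, y ∉ At → sd y = false →
      θ * nn V ^ 4 ≤ ((walks5 (E \ De) (Sd sd false \ At) y y).card : ℝ)) →
    WX E De H sd At ε θ c

/-- row TY-6: low vertices -/
def LowSt : Prop :=
  ∀ (V : Type) [Fintype V] [DecidableEq V] (E : Finset (Sym2 V)) (sd : V → Bool)
    (At : Finset V) (ε : ℝ), 200 ≤ Fintype.card V → 0 ≤ ε → ε ≤ 1 / 1000 → PX E sd At ε →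
    Low E sd ⊆ At ∧ (∀ v ∈ Low E sd, 37 / 100 * nn V ≤ (di sd E v : ℝ)) ∧
      (∀ v ∈ Low E sd, nn V / 50 + 1 ≤ (((nbr E v ∩ Sd sd (sd v)) \ At).card : ℝ)) ∧
      ∀ v ∈ Low E sd, ∀ a ∈ (nbr E v ∩ Sd sd (sd v)) \ At,
        nn V / 9 ≤ ((((nbr E v ∩ nbr E a) ∩ Sd sd (sd v)) \ At).card : ℝ)

/-! ### World G -/

/-- the edges of `W` with at least `c n` common neighbours in `W` -/
noncomputable def RichE {V : Type} [Fintype V] [DecidableEq V] (E : Finset (Sym2 V))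
    (W : Finset V) (c : ℝ) : Finset (Sym2 V) :=
  E.filter (fun e => ∃ p ∈ W, ∃ q ∈ W, e = s(p, q) ∧
    c * nn V ≤ (((nbr E p ∩ nbr E q) ∩ W).card : ℝ))

/-- row TY-7: rich edges from triangles -/
def RichGSt : Prop :=
  ∀ (V : Type) [Fintype V] [DecidableEq V] (E : Finset (Sym2 V)) (W : Finset V) (θ : ℝ),
    NW.NL E → 0 ≤ θ →
    θ * nn V ^ 3 ≤
      ((univ.filter (fun T : Tri V => T.1 ⊆ W ∧ NW.edg T.1 ⊆ E)).card : ℝ) →
    θ * nn V ^ 2 ≤ ((RichE E W θ).card : ℝ)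

/-- row TY-8: the core edges of world G -/
def RobGSt : Prop :=
  ∀ (V : Type) [Fintype V] [DecidableEq V] (E De : Finset (Sym2 V)) (sd : V → Bool)
    (At : Finset V) (Cd : V → Finset V) (Rich : Finset (Sym2 V)) (ε ε' δ θ : ℝ),
    200 ≤ Fintype.card V → 0 < ε' → 0 ≤ δ → ε' ≤ 1 / 1000 → 2 * (ε' + δ) ≤ ε →
    PX E sd At ε' → Low E sd ⊆ At →
    (∀ v ∈ Low E sd, 37 / 100 * nn V ≤ (di sd E v : ℝ)) → Chosen E sd At Cd Rich δ De →
    (∀ e ∈ De, Int sd e) →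
    Gen1 θ ((E \ De).filter (fun e => ∃ v ∈ e, v ∉ At)) (Sd sd false \ At) →
    Gen2 θ ((E \ De).filter (fun e => ∃ v ∈ e, v ∉ At)) (Sd sd false \ At) →
    RobG ((E \ De).filter (fun e => ∃ v ∈ e, v ∉ At)) sd At ε θ

/-! ### World R -/

/-- row TY-9: low vertices of world R: the candidates are the typical neighbours in the own part,
the third vertices are in the core part `cpt` -/
def LowRSt : Prop :=
  ∀ (V : Type) [Fintype V] [DecidableEq V] (E : Finset (Sym2 V)) (fl : Bool → Bool)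
    (sd pt : V → Bool) (At : Finset V) (ε : ℝ), 0 ≤ ε → ε ≤ 1 / 1000 →
    PR E fl sd pt At ε → (∀ v ∈ Low E sd, 37 / 100 * nn V ≤ (di sd E v : ℝ)) →
    (∀ v ∈ Low E sd, ∀ c, 11 / 100 * nn V ≤
      (((nbr E v ∩ Pa sd pt (sd v) c) \ At).card : ℝ)) ∧
    (∀ v ∈ Low E sd, 18 / 100 * nn V ≤
      (((nbr E v ∩ Pa sd pt (sd v) (cpt fl sd pt v)) \ At).card : ℝ)) ∧
    ∀ v ∈ Low E sd, ∀ a ∈ (nbr E v ∩ Pa sd pt (sd v) (pt v)) \ At,
      17 / 100 * nn V ≤ ((((nbr E v ∩ nbr E a) ∩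
        Pa sd pt (sd v) (cpt fl sd pt v)) \ At).card : ℝ)

/-- row TY-10: rich edges of world R: pairs in the part `(false, true)` -/
def RichRSt : Prop :=
  ∀ (V : Type) [Fintype V] [DecidableEq V] (E : Finset (Sym2 V)) (fl : Bool → Bool)
    (sd pt : V → Bool) (At : Finset V) (ε : ℝ), 0 ≤ ε → ε ≤ 1 / 1000 →
    PR E fl sd pt At ε →
    nn V ^ 2 / 50 ≤ ((E.filter (fun e => ∀ v ∈ e, v ∈ Pa sd pt false true \ At)).card : ℝ) ∧
    ∀ p ∈ Pa sd pt false true \ At, ∀ q ∈ Pa sd pt false true \ At,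
      nn V / 5 ≤ ((((nbr E p ∩ nbr E q) ∩ Pa sd pt false true) \ At).card : ℝ)

/-- row TY-11: closed walks of length five in a clique -/
def OddRSt : Prop :=
  ∀ (V : Type) [Fintype V] [DecidableEq V] (E De : Finset (Sym2 V)) (fl : Bool → Bool)
    (sd pt : V → Bool) (At : Finset V) (ε δ : ℝ), 0 ≤ ε → ε ≤ 1 / 1000 → 0 ≤ δ →
    δ ≤ 1 / 1000 → PR E fl sd pt At ε → (∀ v, v ∉ At → (NW.deg De v : ℝ) ≤ δ * nn V) →
    ∀ y, y ∉ At → sd y = false →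
      1 / 1000 * nn V ^ 4 ≤ ((walks5 (E \ De) (Sd sd false \ At) y y).card : ℝ)

/-- row TY-12: the core edges of world R -/
def RobRSt : Prop :=
  ∀ (V : Type) [Fintype V] [DecidableEq V] (E De H : Finset (Sym2 V)) (fl : Bool → Bool)
    (sd pt : V → Bool) (At : Finset V) (Cd : V → Finset V) (Rich : Finset (Sym2 V))
    (ε ε' δ : ℝ), 200 ≤ Fintype.card V → 0 < ε' → 0 ≤ δ → ε' ≤ 1 / 1000 →
    2 * (ε' + δ) ≤ ε → PR E fl sd pt At ε' → Low E sd ⊆ At →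
    (∀ v ∈ Low E sd, 18 / 100 * nn V ≤
      (((nbr E v ∩ Pa sd pt (sd v) (cpt fl sd pt v)) \ At).card : ℝ)) →
    Chosen E sd At Cd Rich δ De → (∀ e ∈ De, Int sd e) →
    H = (E \ De).filter (fun e => (∃ v ∈ e, v ∉ At) ∧ ∀ u ∈ e, ∀ v ∈ e, u ≠ v →
      Co fl sd pt u v) →
    RobR H fl sd pt At ε

/-- row TY-13: existence of an exceptional edge with a typical end -/
def E0St : Prop :=
  ∀ (V : Type) [Fintype V] [DecidableEq V] (E : Finset (Sym2 V)) (fl : Bool → Bool)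
    (sd pt : V → Bool) (At : Finset V) (ε : ℝ), 0 < Fintype.card V → 0 ≤ ε → ε ≤ 1 / 1000 →
    PR E fl sd pt At ε → ∃ u v, s(u, v) ∈ E ∧ ¬ Co fl sd pt u v ∧ u ∉ At

/-- row TY-14: apexes of an exceptional edge with a typical end -/
def ApexSt : Prop :=
  ∀ (V : Type) [Fintype V] [DecidableEq V] (E De H : Finset (Sym2 V)) (fl : Bool → Bool)
    (sd pt : V → Bool) (At : Finset V) (ε' : ℝ), 0 ≤ ε' → ε' ≤ 1 / 1000 →
    PR E fl sd pt At ε' → (∀ e ∈ De, Int sd e) →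
    H = (E \ De).filter (fun e => (∃ v ∈ e, v ∉ At) ∧ ∀ u ∈ e, ∀ v ∈ e, u ≠ v →
      Co fl sd pt u v) →
    ∀ u₀ v₀, s(u₀, v₀) ∈ E → ¬ Co fl sd pt u₀ v₀ → u₀ ∉ At →
      Int sd s(u₀, v₀) ∧ (∀ u v, s(u₀, v₀) = s(u, v) → ¬ Co fl sd pt u v) ∧
      ∀ u v, s(u₀, v₀) = s(u, v) → ∀ b : Bool, 1 / 100 * nn V ≤
        (((Pa sd pt (!sd u) b \ At).filter (fun w => s(u, w) ∈ H ∧ s(v, w) ∈ H)).card : ℝ)

/-! ### World T -/

/-- row TY-20: degrees of world T -/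
def Deg4St : Prop :=
  ∀ (V : Type) [Fintype V] [DecidableEq V] (E : Finset (Sym2 V)) (sd pt : V → Bool)
    (At : Finset V) (ε : ℝ), PT E sd pt At ε →
    (∀ v, NW.deg E v = ex4 sd pt E v + ∑ t, NT sd pt E t v) ∧
    (∀ v t, (NT sd pt E t v : ℝ) ≤ (1 / 4 + ε) * nn V) ∧
    (∀ v t, (1 / 8 - 2 * ε) * nn V ≤ (NT sd pt E t v : ℝ)) ∧
    (∀ v t, di (cut sd pt t) E v = ex4 sd pt E v + NT sd pt E t v) ∧
    (∀ v t, dc (cut sd pt t) E v = ∑ t' ∈ univ.erase t, NT sd pt E t' v) ∧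
    (∀ v t, ((univ.filter (fun w => CT sd pt t v w)).card : ℝ) ≤ (1 / 4 + ε) * nn V) ∧
    (∀ v t, (1 / 4 - ε) * nn V ≤ ((univ.filter (fun w => CT sd pt t v w)).card : ℝ)) ∧
    (∀ v t, (Sd (cut sd pt t) (!cut sd pt t v)).card =
      ∑ t' ∈ univ.erase t, (univ.filter (fun w => CT sd pt t' v w)).card) ∧
    ∀ t b, |((Sd (cut sd pt t) b).card : ℝ) - nn V / 2| ≤ 2 * ε * nn V

/-- row TY-21: totals of world T -/
def Tot4St : Prop :=
  ∀ (V : Type) [Fintype V] [DecidableEq V] (E : Finset (Sym2 V)) (sd pt : V → Bool),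
    (∑ t, ∑ e ∈ E, gam (cut sd pt t) e = 6 * ((E.filter (fun e => Exc sd pt e)).card : ℤ)) ∧
    ∀ (ty : Sym2 V → Fin 3) (t : Fin 3), ∑ e ∈ E, gamT sd pt ty t e =
      ∑ e ∈ E, gam (cut sd pt t) e -
        6 * ((E.filter (fun e => Exc sd pt e ∧ ty e = t)).card : ℤ)

/-- row TY-22: completing a partial typing -/
def AssignSt : Prop :=
  ∀ (α : Type) [DecidableEq α] (F : Finset α) (G : Fin 3 → Finset α) (f : Fin 3 → ℕ),
    (∀ t, G t ⊆ F) → (∀ s t, s ≠ t → Disjoint (G s) (G t)) → (∀ t, (G t).card ≤ f t) →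
    ∑ t, f t = F.card →
    ∃ ty : α → Fin 3, (∀ t, ∀ e ∈ G t, ty e = t) ∧
      ∀ t, (F.filter (fun e => ty e = t)).card = f t

/-- row TY-23: requested edges at the atypical vertices: `C v` the typical exceptional neighbours
of `v`, `k t v` the number of requested edges of type `t` -/
def RequestSt : Prop :=
  ∀ (V : Type) [Fintype V] [DecidableEq V] (At : Finset V) (C : V → Finset V)
    (k : Fin 3 → V → ℕ), (∀ v ∈ At, Disjoint (C v) At) → (∀ v ∈ At, ∑ t, k t v ≤ (C v).card) →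
    ∃ R : Fin 3 → Finset (Sym2 V), (∀ s t, s ≠ t → Disjoint (R s) (R t)) ∧
      (∀ t e, e ∈ R t → ∃ v ∈ At, ∃ w ∈ C v, e = s(v, w)) ∧
      (∀ t, (R t).card = ∑ v ∈ At, k t v) ∧ ∀ t, ∀ v ∈ At, NW.deg (R t) v = k t v

/-- row TY-24: at most one infeasible type; large number of missing pairs there.  `u`, `v` are two
vertices of the same part -/
def InfeasSt : Prop :=
  ∀ (V : Type) [Fintype V] [DecidableEq V] (E : Finset (Sym2 V)) (sd pt : V → Bool)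
    (At : Finset V) (ε : ℝ), 0 ≤ ε → ε ≤ 1 / 1000 → PT E sd pt At ε →
    ∀ u v, sd u = sd v → pt u = pt v →
      ∀ t, ((ct4 sd pt E At t u v).card : ℝ) < nn V / 100 →
        (∀ s, s ≠ t → nn V / 100 ≤ ((ct4 sd pt E At s u v).card : ℝ)) ∧
        (∀ s, s ≠ t → nn V / 10 ≤
          ((Sd (cut sd pt s) (!cut sd pt s u)).card : ℝ) - (dc (cut sd pt s) E u : ℝ)) ∧
        u ∈ At ∧ v ∈ At

/-- row TY-25: the requests fit -/
def FitSt : Prop :=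
  ∀ (V : Type) [Fintype V] [DecidableEq V] (E : Finset (Sym2 V)) (sd pt : V → Bool)
    (At : Finset V) (ε : ℝ), 1000 ≤ Fintype.card V → 0 ≤ ε → ε ≤ 1 / 1000 → PT E sd pt At ε →
    ∃ k : Fin 3 → V → ℕ,
      (∀ t v, (di (cut sd pt t) E v : ℝ) + nn V / 100 ≤ dc (cut sd pt t) E v + 2 * k t v) ∧
      (∀ t v, v ∉ At → k t v = 0) ∧
      (∀ v ∈ At, (∑ t, k t v) ≠ 0 → ((∑ t, k t v : ℕ) : ℝ) + ε * nn V ≤ (ex4 sd pt E v : ℝ)) ∧
      (∀ t v, k t v ≠ 0 → 6 * (k t v : ℝ) + nn V / 10 ≤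
        ((NW.deg E v : ℝ) - 3 * nn V / 4) +
          3 * (((Sd (cut sd pt t) (!cut sd pt t v)).card : ℝ) - (dc (cut sd pt t) E v : ℝ)))

/-- row TY-26: the typing -/
def TypingSt : Prop :=
  ∀ (V : Type) [Fintype V] [DecidableEq V] (E : Finset (Sym2 V)) (sd pt : V → Bool)
    (At : Finset V) (ε : ℝ), 1000 ≤ Fintype.card V → 0 ≤ ε → ε ≤ 1 / 1000 → PT E sd pt At ε →
    ∃ ty : Sym2 V → Fin 3,
      (∀ t, ∑ e ∈ E, gam (cut sd pt t) e =
        6 * ((E.filter (fun e => Exc sd pt e ∧ ty e = t)).card : ℤ)) ∧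
      (∀ t v, (di (cut sd pt t) E v : ℝ) + nn V / 100 ≤
        dc (cut sd pt t) E v + 2 * mT sd pt ty E t v) ∧
      ∀ u v, s(u, v) ∈ E → sd u = sd v → pt u = pt v →
        nn V / 100 ≤ ((ct4 sd pt E At (ty s(u, v)) u v).card : ℝ)

/-- row TY-27: the core edges of world T -/
def RobTSt : Prop :=
  ∀ (V : Type) [Fintype V] [DecidableEq V] (E H : Finset (Sym2 V)) (sd pt : V → Bool)
    (At : Finset V) (ε ε' : ℝ), 0 ≤ ε' → 3 * ε' ≤ ε → PT E sd pt At ε' →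
    H = E.filter (fun e => (∃ v ∈ e, v ∉ At) ∧ ¬ Exc sd pt e) →
    RobR H (fun _ => false) sd pt At ε

/-- row TY-28: common neighbours of core edges -/
def FeasCSt : Prop :=
  ∀ (V : Type) [Fintype V] [DecidableEq V] (E : Finset (Sym2 V)) (sd pt : V → Bool)
    (At : Finset V) (ε : ℝ), 0 ≤ ε → ε ≤ 1 / 1000 → PT E sd pt At ε →
    ∀ u v, ¬ (sd u = sd v ∧ pt u = pt v) → nn V / 100 ≤
      (((univ \ At).filter (fun w => ¬ (sd u = sd w ∧ pt u = pt w) ∧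
        ¬ (sd v = sd w ∧ pt v = pt w) ∧ s(u, w) ∈ E ∧ s(v, w) ∈ E)).card : ℝ)

end F3
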