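import Pool.Agent.F3.TY.Stm

/-!
# Project F3, block TY: assembly of world G
-/

set_option autoImplicit false
set_option linter.unusedSectionVars false

namespace F3

open Finset NW F1

section

variable {V : Type} [Fintype V] [DecidableEq V]

/-- common neighbours after the removal of the designated edges -/
theorem ty_cnt (E De : Finset (Sym2 V)) (S : Finset V) (p q : V) :
    ((nbr E p ∩ nbr E q) ∩ S).card ≤
      (S.filter (fun r => s(p, r) ∈ E \ De ∧ s(q, r) ∈ E \ De)).card +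
        (NW.deg De p + NW.deg De q) := by
  have h1 : (nbr E p ∩ nbr E q) ∩ S ⊆
      (S.filter (fun r => s(p, r) ∈ E \ De ∧ s(q, r) ∈ E \ De)) ∪ (nbr De p ∪ nbr De q) := by
    intro r hr
    rw [Finset.mem_inter, Finset.mem_inter, NW.mem_nbr, NW.mem_nbr] at hr
    rw [Finset.mem_union, Finset.mem_union, Finset.mem_filter, NW.mem_nbr, NW.mem_nbr,
      Finset.mem_sdiff, Finset.mem_sdiff]
    by_cases h2 : s(p, r) ∈ De
    · exact Or.inr (Or.inl h2)
    · by_cases h3 : s(q, r) ∈ De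
      · exact Or.inr (Or.inr h3)
      · exact Or.inl ⟨hr.2, ⟨hr.1.1, h2⟩, hr.1.2, h3⟩
  refine (Finset.card_le_card h1).trans ((Finset.card_union_le _ _).trans ?_)
  exact Nat.add_le_add_left (Finset.card_union_le _ _) _

theorem ty_walks_mono {E F : Finset (Sym2 V)} (h : E ⊆ F) (W : Finset V) (y z : V) :
    walks5 E W y z ⊆ walks5 F W y z := by
  intro w hw
  unfold walks5 at hw ⊢
  rw [Finset.mem_filter] at hw ⊢
  exact ⟨hw.1, h hw.2.1, h hw.2.2.1, h hw.2.2.2.1, h hw.2.2.2.2.1, h hw.2.2.2.2.2⟩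

end

theorem tg (hlow : LowSt) (hrich : RichGSt) (hch : ChoiceSt) (hmk : MkWXSt) (hrob : RobGSt)
    (hdel : DelSt) : TGStatement := by
  intro θ hθ
  refine ⟨θ / 2, min (θ / 2) (1 / 12), by positivity, by positivity, fun ε hε => ?_⟩
  obtain ⟨εd, hεd, hdel⟩ := hdel θ hθ
  set δ : ℝ := min (min (ε / 4) (θ / 4)) (min (1 / 1000) εd) with hδdef
  have hδ : 0 < δ := by positivity
  have hδ1 : δ ≤ ε / 4 := (min_le_left _ _).trans (min_le_left _ _)
  have hδ2 : δ ≤ θ / 4 := (min_le_left _ _).trans (min_le_right _ _)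
  have hδ3 : δ ≤ 1 / 1000 := (min_le_right _ _).trans (min_le_left _ _)
  have hδ4 : δ ≤ εd := (min_le_right _ _).trans (min_le_right _ _)
  obtain ⟨ε₁, hε₁, n₀, hch⟩ := hch δ θ hδ hθ
  set ε' : ℝ := min ε₁ (min (ε / 4) (1 / 1000)) with hε'def
  have hε' : 0 < ε' := by positivity
  have hε'1 : ε' ≤ ε₁ := min_le_left _ _
  have hε'2 : ε' ≤ ε / 4 := (min_le_right _ _).trans (min_le_left _ _)
  have hε'3 : ε' ≤ 1 / 1000 := (min_le_right _ _).trans (min_le_right _ _)
  refine ⟨ε', hε', max n₀ 200, fun V _ _ E sd At hn hG => ?_⟩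
  have hn1 : n₀ ≤ Fintype.card V := (le_max_left _ _).trans hn
  have hn2 : 200 ≤ Fintype.card V := (le_max_right _ _).trans hn
  have hnn : (200 : ℝ) ≤ nn V := by unfold nn; exact_mod_cast hn2
  have hn0 : (0 : ℝ) ≤ nn V := by linarith
  obtain ⟨hlA, hlD, hlC, hlN⟩ := hlow V E sd At ε' hn2 hε'.le hε'3 hG.x
  set W : Finset V := Sd sd false \ At with hW
  have hRcard := hrich V E W θ hG.x.div.1 hθ.le hG.tri
  -- the rich edges
  have hRE : RichE E W θ ⊆ E := Finset.filter_subset _ _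
  have hRmem : ∀ p q, s(p, q) ∈ RichE E W θ → p ∈ W ∧ q ∈ W ∧
      θ * nn V ≤ (((nbr E p ∩ nbr E q) ∩ W).card : ℝ) := by
    intro p q hpq
    obtain ⟨_, p', hp', q', hq', he, hc⟩ := Finset.mem_filter.1 hpq
    rcases Sym2.eq_iff.1 he with ⟨rfl, rfl⟩ | ⟨rfl, rfl⟩
    · exact ⟨hp', hq', hc⟩
    · refine ⟨hq', hp', ?_⟩
      rw [Finset.inter_comm (nbr E p) (nbr E q)]
      exact hc
  have hRtyp : ∀ e ∈ RichE E W θ, ∀ v ∈ e, v ∉ At := by
    intro e
    induction e using Sym2.ind with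
    | _ p q =>
      intro he v hv
      obtain ⟨hp, hq, _⟩ := hRmem p q he
      rcases Sym2.mem_iff.1 hv with rfl | rfl
      · exact (Finset.mem_sdiff.1 hp).2
      · exact (Finset.mem_sdiff.1 hq).2
  have hCd : ∀ v ∈ Low E sd, Disjoint ((nbr E v ∩ Sd sd (sd v)) \ At) At :=
    fun v _ => Finset.sdiff_disjoint
  obtain ⟨De, hDe⟩ := hch V E sd At (fun v => (nbr E v ∩ Sd sd (sd v)) \ At) (RichE E W θ) hn1
    (hG.x.mono hε'1) (fun v hv => by linarith [hlC v hv]) hCd (hG.x.div.1.mono hRE) hRtyp hRcard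
  -- membership in the sides
  have hSd : ∀ v w : V, w ∈ Sd sd (sd v) ↔ sd w = sd v := fun v w => by simp [Sd]
  have hDmem : ∀ p q, s(p, q) ∈ De → s(p, q) ∈ E ∧ sd p = sd q := by
    intro p q hpq
    rcases hDe.mem p q hpq with ⟨_, h2⟩ | ⟨_, h2⟩ | h
    · rw [Finset.mem_sdiff, Finset.mem_inter, NW.mem_nbr, hSd] at h2
      exact ⟨h2.1.1, h2.1.2.symm⟩
    · rw [Finset.mem_sdiff, Finset.mem_inter, NW.mem_nbr, hSd] at h2
      rw [Sym2.eq_swap]
      exact ⟨h2.1.1, h2.1.2⟩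
    · obtain ⟨hp, hq, _⟩ := hRmem p q h
      refine ⟨hRE h, ?_⟩
      rw [hW, Finset.mem_sdiff] at hp hq
      have h1 : sd p = false := by simpa [Sd] using hp.1
      have h2 : sd q = false := by simpa [Sd] using hq.1
      rw [h1, h2]
  have hDE : De ⊆ E := by
    intro e
    induction e using Sym2.ind with
    | _ p q => exact fun he => (hDmem p q he).1
  have hDI : ∀ e ∈ De, Int sd e := by
    intro e
    induction e using Sym2.ind with
    | _ p q =>
      intro he u hu v hv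
      have h := (hDmem p q he).2
      rcases Sym2.mem_iff.1 hu with rfl | rfl <;> rcases Sym2.mem_iff.1 hv with rfl | rfl
      · rfl
      · exact h
      · exact h.symm
      · rfl
  set H : Finset (Sym2 V) := (E \ De).filter (fun e => ∃ v ∈ e, v ∉ At) with hH
  have hHs : H ⊆ E \ De := Finset.filter_subset _ _
  have hHE : H ⊆ E := hHs.trans Finset.sdiff_subset
  have hHmem : ∀ p r, r ∉ At → s(p, r) ∈ E \ De → s(p, r) ∈ H := fun p r hr h =>
    Finset.mem_filter.2 ⟨h, r, Sym2.mem_mk_right _ _, hr⟩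
  have hfil : ∀ (S : Finset V) (p q : V), ((S \ At).filter
      (fun r => s(p, r) ∈ E \ De ∧ s(q, r) ∈ E \ De)) ⊆
      ((S \ At).filter (fun r => s(p, r) ∈ H ∧ s(q, r) ∈ H)) := by
    intro S p q r hr
    rw [Finset.mem_filter] at hr ⊢
    have h1 := (Finset.mem_sdiff.1 hr.1).2
    exact ⟨hr.1, hHmem p r h1 hr.2.1, hHmem q r h1 hr.2.2⟩
  -- genericity after the removal
  have hdel' := hdel V E H W ∅ hHE (by simp; positivity) (by
    intro v hv _
    rw [Finset.sdiff_empty]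
    have hvA : v ∉ At := (Finset.mem_sdiff.1 hv).2
    have h1 : (W.filter (fun w => s(v, w) ∈ E ∧ s(v, w) ∉ H)) ⊆ nbr De v := by
      intro w hw
      rw [Finset.mem_filter] at hw
      rw [NW.mem_nbr]
      by_contra h2
      exact hw.2.2 (hHmem v w (Finset.mem_sdiff.1 hw.1).2 (Finset.mem_sdiff.2 ⟨hw.2.1, h2⟩))
    have h2 : ((W.filter (fun w => s(v, w) ∈ E ∧ s(v, w) ∉ H)).card : ℝ) ≤ NW.deg De v := by
      exact_mod_cast Finset.card_le_card h1
    have h3 := hDe.T v hvA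
    nlinarith)
  rw [Finset.sdiff_empty] at hdel'
  have hWmem : ∀ y, y ∈ W ↔ sd y = false ∧ y ∉ At := fun y => by simp [hW, Sd]
  have hg1 : Gen1 (θ / 2) H W := hdel'.1 (fun y hy z hz =>
    hG.gen1 y z ((hWmem y).1 hy).2 ((hWmem z).1 hz).2 ((hWmem y).1 hy).1 ((hWmem z).1 hz).1)
  have hg2 : Gen2 (θ / 2) H W := hdel'.2.1 (fun y hy z hz =>
    hG.gen2 y z ((hWmem y).1 hy).2 ((hWmem z).1 hz).2 ((hWmem y).1 hy).1 ((hWmem z).1 hz).1)
  -- the fields
  have hx : WX E De H sd At ε (θ / 2) (min (θ / 2) (1 / 12)) := by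
    refine hmk V E De H sd At (fun v => (nbr E v ∩ Sd sd (sd v)) \ At) (RichE E W θ) ε δ (θ / 2)
      (min (θ / 2) (1 / 12)) hn2 hε hδ.le (by linarith) (by linarith) (min_le_right _ _)
      (hG.x.mono (by linarith)) hlA hDe hDE hDI hCd hRtyp hHs ?_ ?_ ?_
    · intro p q hpq hD
      obtain ⟨hp, hq, hc⟩ := hRmem p q hpq
      have hps : sd p = false := ((hWmem p).1 hp).1
      have h1 := ty_cnt E De W p q
      have h2 := Finset.card_le_card (hfil (Sd sd false) p q)
      rw [hps]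
      have h3 := hDe.T p ((hWmem p).1 hp).2
      have h4 := hDe.T q ((hWmem q).1 hq).2
      have h1' : (((nbr E p ∩ nbr E q) ∩ W).card : ℝ) ≤
          (((Sd sd false \ At).filter (fun r => s(p, r) ∈ H ∧ s(q, r) ∈ H)).card : ℝ) +
            ((NW.deg De p : ℝ) + NW.deg De q) := by
        exact_mod_cast h1.trans (Nat.add_le_add_right h2 _)
      have h5 : min (θ / 2) (1 / 12) * nn V ≤ θ / 2 * nn V :=
        mul_le_mul_of_nonneg_right (min_le_left _ _) hn0
      have h6 : δ * nn V ≤ θ / 4 * nn V := mul_le_mul_of_nonneg_right hδ2 hn0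
      linarith
    · intro p q hp hq hD
      have hqA : q ∉ At := (Finset.mem_sdiff.1 hq).2
      have h0 := hlN p hp q hq
      have h1 := ty_cnt E De (Sd sd (sd p) \ At) p q
      have h2 := Finset.card_le_card (hfil (Sd sd (sd p)) p q)
      have h3 := hDe.hi p hp
      have h4 := hDe.T q hqA
      have h1' : (((nbr E p ∩ nbr E q) ∩ (Sd sd (sd p) \ At)).card : ℝ) ≤
          (((Sd sd (sd p) \ At).filter (fun r => s(p, r) ∈ H ∧ s(q, r) ∈ H)).card : ℝ) +
            ((NW.deg De p : ℝ) + NW.deg De q) := by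
        exact_mod_cast h1.trans (Nat.add_le_add_right h2 _)
      have h5 : ((nbr E p ∩ nbr E q) ∩ Sd sd (sd p)) \ At =
          (nbr E p ∩ nbr E q) ∩ (Sd sd (sd p) \ At) := by
        rw [Finset.inter_sdiff_assoc]
      rw [h5] at h0
      have h6 : δ * nn V ≤ 1 / 1000 * nn V := mul_le_mul_of_nonneg_right hδ3 hn0
      linarith
    · intro y hyA hys
      have hy : y ∈ W := (hWmem y).2 ⟨hys, hyA⟩
      refine (hg1 y hy y hy).trans ?_
      exact_mod_cast Finset.card_le_card (ty_walks_mono hHs W y y)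
  refine ⟨De, H, hx, hH, ?_⟩
  exact hrob V E De sd At _ _ ε ε' δ (θ / 2) hn2 hε' hδ.le hε'3 (by linarith) hG.x hlA hlD hDe
    hDI hg1 hg2

end F3
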